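import Pool.Agent.H29.W3.Ext

/-!
[H29 W3 BAS] The first triangle: the two admissible sets of its two sides meet (MP_9f68ee_co).

PROOF. Let `S = t1 + t2 + t3 = u1 + u2 + u3` (both `2 S + |c+a-n| + |a+b-n| + |b+c-n| = n`).
(1) There are `p q r ≥ 0` with `p + q + r = S`, `p ≤ t2 + t3`, `p ≤ u2 + u3`, `q ≤ t3 + t1`, `q ≤ u3 + u1`,
`r ≤ t1 + t2`, `r ≤ u1 + u2`: with `P = min (t2+t3) (u2+u3)` etc. one has `P + Q + R ≥ S`; take
`p = P`, `q = min Q (S - p)`, `r = S - p - q` (`omega`).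
(2) Let `E1 = c + a - n`, `E2 = a + b - n`, `E3 = b + c - n`. The multiset `Q : Multiset T4` with
`q + (|E2| + E2)/2` copies of `(.xyz, 0)`, `q + (|E2| - E2)/2` of `(.zyx, 0)`, `r + (|E3| + E3)/2` of
`(.yzx, 0)`, `r + (|E3| - E3)/2` of `(.xzy, 0)`, `p + (|E1| + E1)/2` of `(.zxy, 0)`, `p + (|E1| - E1)/2` of
`(.yxz, 0)` (`Multiset.replicate`, natural numbers via `Int.toNat` or `obtain ⟨n1, _⟩ := Int.eq_ofNat_of_zero_le`) has
`card = n`, `sm (lt X Y) Q = a`, `sm (lt Y Z) Q = b`, `sm (lt Z X) Q = c`, `sm (md Z X Y) Q = |E1| + 2 p`,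
`sm (md X Y Z) Q = |E2| + 2 q`, `sm (md Y Z X) Q = |E3| + 2 r`. `exists_fun` gives `q : Fin n → T4`; put
`fx i = (X (q i) : ℚ)` and so on.
-/

set_option autoImplicit false
set_option maxHeartbeats 4000000

namespace Pool.Agent.H29.W3

open Finset

theorem base {n : ℕ} {a b c t1 t2 t3 u1 u2 u3 : ℤ} (h : Face n a b c t1 t2 t3)
    (h' : Face n a b c u1 u2 u3) :
    ∃ fx fy fz : Fin n → ℚ, (∀ i, fx i ≠ fy i ∧ fy i ≠ fz i ∧ fz i ≠ fx i) ∧
      ltc fx fy = a ∧ ltc fy fz = b ∧ ltc fz fx = c ∧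
      (mdc fz fx fy ≤ |c + a - n| + 2 * (t2 + t3) ∧ mdc fx fy fz ≤ |a + b - n| + 2 * (t3 + t1) ∧
        mdc fy fz fx ≤ |b + c - n| + 2 * (t1 + t2)) ∧
      (mdc fz fx fy ≤ |c + a - n| + 2 * (u2 + u3) ∧ mdc fx fy fz ≤ |a + b - n| + 2 * (u3 + u1) ∧
        mdc fy fz fx ≤ |b + c - n| + 2 * (u1 + u2)) := by
  obtain ⟨h1, h2, h3, h4⟩ := h
  obtain ⟨g1, g2, g3, g4⟩ := h'
  obtain ⟨E1, hE1⟩ : ∃ E1 : ℤ, E1 = c + a - n := ⟨_, rfl⟩
  obtain ⟨E2, hE2⟩ : ∃ E2 : ℤ, E2 = a + b - n := ⟨_, rfl⟩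
  obtain ⟨E3, hE3⟩ : ∃ E3 : ℤ, E3 = b + c - n := ⟨_, rfl⟩
  rw [← hE1, ← hE2, ← hE3] at h4 g4
  rw [← hE1, ← hE2, ← hE3]
  have key : ∀ E : ℤ, ∃ ep em : ℤ, 0 ≤ ep ∧ 0 ≤ em ∧ ep - em = E ∧ ep + em = |E| := by
    intro E
    rcases le_total 0 E with hE | hE
    · exact ⟨E, 0, hE, le_rfl, sub_zero _, by rw [add_zero, abs_of_nonneg hE]⟩
    · exact ⟨0, -E, le_rfl, by linarith, by ring, by rw [zero_add, abs_of_nonpos hE]⟩
  obtain ⟨p1, p1', hp1, hp1', d1, s1⟩ := key E1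
  obtain ⟨p2, p2', hp2, hp2', d2, s2⟩ := key E2
  obtain ⟨p3, p3', hp3, hp3', d3, s3⟩ := key E3
  -- the common triple
  obtain ⟨p, q, r, hp, hq, hr, hsum, b1, b2, b3, b4, b5, b6⟩ : ∃ p q r : ℤ, 0 ≤ p ∧ 0 ≤ q ∧
      0 ≤ r ∧ p + q + r = t1 + t2 + t3 ∧ p ≤ t2 + t3 ∧ p ≤ u2 + u3 ∧ q ≤ t3 + t1 ∧
      q ≤ u3 + u1 ∧ r ≤ t1 + t2 ∧ r ≤ u1 + u2 := by
    have hS : t1 + t2 + t3 = u1 + u2 + u3 := by linarith
    clear h4 g4 key d1 s1 d2 s2 d3 s3 hE1 hE2 hE3 hp1 hp1' hp2 hp2' hp3 hp3'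
    obtain ⟨p, hp⟩ : ∃ p : ℤ, p = min (t2 + t3) (u2 + u3) := ⟨_, rfl⟩
    obtain ⟨q, hq⟩ : ∃ q : ℤ, q = min (min (t3 + t1) (u3 + u1)) (t1 + t2 + t3 - p) := ⟨_, rfl⟩
    refine ⟨p, q, t1 + t2 + t3 - p - q, ?_, ?_, ?_, ?_, ?_, ?_, ?_, ?_, ?_, ?_⟩ <;> omega
  obtain ⟨m1, hm1⟩ := Int.eq_ofNat_of_zero_le (show 0 ≤ q + p2 by linarith)
  obtain ⟨m2, hm2⟩ := Int.eq_ofNat_of_zero_le (show 0 ≤ q + p2' by linarith)
  obtain ⟨m3, hm3⟩ := Int.eq_ofNat_of_zero_le (show 0 ≤ r + p3 by linarith)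
  obtain ⟨m4, hm4⟩ := Int.eq_ofNat_of_zero_le (show 0 ≤ r + p3' by linarith)
  obtain ⟨m5, hm5⟩ := Int.eq_ofNat_of_zero_le (show 0 ≤ p + p1 by linarith)
  obtain ⟨m6, hm6⟩ := Int.eq_ofNat_of_zero_le (show 0 ≤ p + p1' by linarith)
  obtain ⟨Q, hQ⟩ : ∃ Q : Multiset T4, Q = Multiset.replicate m1 ((O.xyz, 0) : T4) +
      Multiset.replicate m2 ((O.zyx, 0) : T4) + Multiset.replicate m3 ((O.yzx, 0) : T4) +
      Multiset.replicate m4 ((O.xzy, 0) : T4) + Multiset.replicate m5 ((O.zxy, 0) : T4) +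
      Multiset.replicate m6 ((O.yxz, 0) : T4) := ⟨_, rfl⟩
  have hcard : Multiset.card Q = n := by
    rw [hQ]
    simp only [Multiset.card_add, Multiset.card_replicate]
    have hc : (m1 : ℤ) + m2 + m3 + m4 + m5 + m6 = n := by linarith
    exact_mod_cast hc
  have hf : ∀ f : T4 → ℤ, (Q.map f).sum = m1 * f (O.xyz, 0) + m2 * f (O.zyx, 0) +
      m3 * f (O.yzx, 0) + m4 * f (O.xzy, 0) + m5 * f (O.zxy, 0) + m6 * f (O.yxz, 0) := by
    intro f
    rw [hQ]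
    simp only [Multiset.map_add, Multiset.map_replicate, Multiset.sum_add,
      Multiset.sum_replicate, nsmul_eq_mul]
  obtain ⟨k, hk⟩ := exists_fun Q n hcard
  have hlt : ∀ A B : T4 → ℤ, ltc (fun i => (A (k i) : ℚ)) (fun i => (B (k i) : ℚ)) =
      (Q.map (lt A B)).sum := by
    intro A B
    rw [← hk]
    unfold ltc lt
    refine Finset.sum_congr rfl fun i _ => ?_
    simp only [Int.cast_lt]
  have hmd : ∀ A B C : T4 → ℤ, mdc (fun i => (A (k i) : ℚ)) (fun i => (B (k i) : ℚ))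
      (fun i => (C (k i) : ℚ)) = (Q.map (md A B C)).sum := by
    intro A B C
    rw [← hk]
    unfold mdc md
    refine Finset.sum_congr rfl fun i _ => ?_
    simp only [Int.cast_lt]
  have hne : ∀ e : T4, X e ≠ Y e ∧ Y e ≠ Z e ∧ Z e ≠ X e := by
    rintro ⟨o, s⟩
    show px o ≠ py o ∧ py o ≠ pz o ∧ pz o ≠ px o
    cases o <;> decide
  have w1 : mdc (fun i => (Z (k i) : ℚ)) (fun i => (X (k i) : ℚ)) (fun i => (Y (k i) : ℚ)) =
      |E1| + 2 * p := by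
    rw [hmd, hf]
    have v1 : md Z X Y (O.xyz, 0) = 0 := by decide
    have v2 : md Z X Y (O.zyx, 0) = 0 := by decide
    have v3 : md Z X Y (O.yzx, 0) = 0 := by decide
    have v4 : md Z X Y (O.xzy, 0) = 0 := by decide
    have v5 : md Z X Y (O.zxy, 0) = 1 := by decide
    have v6 : md Z X Y (O.yxz, 0) = 1 := by decide
    rw [v1, v2, v3, v4, v5, v6]
    linarith
  have w2 : mdc (fun i => (X (k i) : ℚ)) (fun i => (Y (k i) : ℚ)) (fun i => (Z (k i) : ℚ)) =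
      |E2| + 2 * q := by
    rw [hmd, hf]
    have v1 : md X Y Z (O.xyz, 0) = 1 := by decide
    have v2 : md X Y Z (O.zyx, 0) = 1 := by decide
    have v3 : md X Y Z (O.yzx, 0) = 0 := by decide
    have v4 : md X Y Z (O.xzy, 0) = 0 := by decide
    have v5 : md X Y Z (O.zxy, 0) = 0 := by decide
    have v6 : md X Y Z (O.yxz, 0) = 0 := by decide
    rw [v1, v2, v3, v4, v5, v6]
    linarith
  have w3 : mdc (fun i => (Y (k i) : ℚ)) (fun i => (Z (k i) : ℚ)) (fun i => (X (k i) : ℚ)) =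
      |E3| + 2 * r := by
    rw [hmd, hf]
    have v1 : md Y Z X (O.xyz, 0) = 0 := by decide
    have v2 : md Y Z X (O.zyx, 0) = 0 := by decide
    have v3 : md Y Z X (O.yzx, 0) = 1 := by decide
    have v4 : md Y Z X (O.xzy, 0) = 1 := by decide
    have v5 : md Y Z X (O.zxy, 0) = 0 := by decide
    have v6 : md Y Z X (O.yxz, 0) = 0 := by decide
    rw [v1, v2, v3, v4, v5, v6]
    linarith
  refine ⟨fun i => (X (k i) : ℚ), fun i => (Y (k i) : ℚ), fun i => (Z (k i) : ℚ), ?_, ?_, ?_, ?_,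
    ?_, ?_⟩
  · intro i
    obtain ⟨e1, e2, e3⟩ := hne (k i)
    exact ⟨fun h => e1 (Int.cast_injective h), fun h => e2 (Int.cast_injective h),
      fun h => e3 (Int.cast_injective h)⟩
  · rw [hlt, hf]
    have v1 : lt X Y (O.xyz, 0) = 1 := by decide
    have v2 : lt X Y (O.zyx, 0) = 0 := by decide
    have v3 : lt X Y (O.yzx, 0) = 0 := by decide
    have v4 : lt X Y (O.xzy, 0) = 1 := by decide
    have v5 : lt X Y (O.zxy, 0) = 1 := by decide
    have v6 : lt X Y (O.yxz, 0) = 0 := by decide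
    rw [v1, v2, v3, v4, v5, v6]
    linarith
  · rw [hlt, hf]
    have v1 : lt Y Z (O.xyz, 0) = 1 := by decide
    have v2 : lt Y Z (O.zyx, 0) = 0 := by decide
    have v3 : lt Y Z (O.yzx, 0) = 1 := by decide
    have v4 : lt Y Z (O.xzy, 0) = 0 := by decide
    have v5 : lt Y Z (O.zxy, 0) = 0 := by decide
    have v6 : lt Y Z (O.yxz, 0) = 1 := by decide
    rw [v1, v2, v3, v4, v5, v6]
    linarith
  · rw [hlt, hf]
    have v1 : lt Z X (O.xyz, 0) = 0 := by decide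
    have v2 : lt Z X (O.zyx, 0) = 1 := by decide
    have v3 : lt Z X (O.yzx, 0) = 1 := by decide
    have v4 : lt Z X (O.xzy, 0) = 0 := by decide
    have v5 : lt Z X (O.zxy, 0) = 1 := by decide
    have v6 : lt Z X (O.yxz, 0) = 0 := by decide
    rw [v1, v2, v3, v4, v5, v6]
    linarith
  · rw [w1, w2, w3]
    refine ⟨by linarith, by linarith, by linarith⟩
  · rw [w1, w2, w3]
    refine ⟨by linarith, by linarith, by linarith⟩

/-- the sum rules for arbitrary potentials -/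
theorem mdc_eq {n : ℕ} (u v w : Fin n → ℚ) (h : ∀ i, u i ≠ v i ∧ v i ≠ w i ∧ w i ≠ u i) :
    mdc w u v + mdc u v w + mdc v w u = n ∧
      (∃ q : ℤ, 0 ≤ q ∧ mdc u v w = |ltc u v + ltc v w - n| + 2 * q) := by
  have hone : ∑ _i : Fin n, (1 : ℤ) = n := by simp
  constructor
  · have h1 : ∀ i, (if (w i < u i ∧ u i < v i) ∨ (v i < u i ∧ u i < w i) then (1 : ℤ) else 0) +
        (if (u i < v i ∧ v i < w i) ∨ (w i < v i ∧ v i < u i) then 1 else 0) +
        (if (v i < w i ∧ w i < u i) ∨ (u i < w i ∧ w i < v i) then 1 else 0) = 1 := by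
      intro i
      obtain ⟨e1, e2, e3⟩ := h i
      rcases lt_or_gt_of_ne e1 with a | a <;> rcases lt_or_gt_of_ne e2 with b | b <;>
        rcases lt_or_gt_of_ne e3 with c | c
      · exact absurd (a.trans (b.trans c)) (lt_irrefl _)
      all_goals
        first
          | exact absurd (a.trans (c.trans b)) (lt_irrefl _)
          | simp [a, b, c, a.le, b.le, c.le, a.not_gt, b.not_gt, c.not_gt]
    unfold mdc
    rw [← Finset.sum_add_distrib, ← Finset.sum_add_distrib, Finset.sum_congr rfl fun i _ => h1 i]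
    exact hone
  · obtain ⟨A, hA⟩ : ∃ A : ℤ, A = ∑ i, if u i < v i ∧ v i < w i then (1 : ℤ) else 0 := ⟨_, rfl⟩
    obtain ⟨B, hB⟩ : ∃ B : ℤ, B = ∑ i, if w i < v i ∧ v i < u i then (1 : ℤ) else 0 := ⟨_, rfl⟩
    have hA0 : 0 ≤ A := by
      rw [hA]
      exact Finset.sum_nonneg fun i _ => by split_ifs <;> norm_num
    have hB0 : 0 ≤ B := by
      rw [hB]
      exact Finset.sum_nonneg fun i _ => by split_ifs <;> norm_num
    have h1 : mdc u v w = A + B := by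
      unfold mdc
      rw [hA, hB, ← Finset.sum_add_distrib]
      refine Finset.sum_congr rfl fun i _ => ?_
      by_cases a : u i < v i ∧ v i < w i
      · have b : ¬ (w i < v i ∧ v i < u i) := fun b => lt_asymm a.1 b.2
        rw [if_pos (Or.inl a), if_pos a, if_neg b, add_zero]
      · by_cases b : w i < v i ∧ v i < u i
        · rw [if_pos (Or.inr b), if_neg a, if_pos b, zero_add]
        · rw [if_neg (not_or.2 ⟨a, b⟩), if_neg a, if_neg b, zero_add]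
    have h2 : ltc u v + ltc v w - n = A - B := by
      unfold ltc
      rw [hA, hB, ← hone, ← Finset.sum_add_distrib, ← Finset.sum_sub_distrib,
        ← Finset.sum_sub_distrib]
      refine Finset.sum_congr rfl fun i _ => ?_
      obtain ⟨e1, e2, e3⟩ := h i
      rcases lt_or_gt_of_ne e1 with a | a <;> rcases lt_or_gt_of_ne e2 with b | b <;>
        simp [a, b, a.not_gt, b.not_gt]
    rw [h1, h2]
    refine ⟨min A B, le_min hA0 hB0, ?_⟩
    have a1 : |A - B| = max (A - B) (-(A - B)) := abs_eq_max_neg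
    omega

/-- symmetry and complement -/
theorem ltc_compl {n : ℕ} (u v : Fin n → ℚ) (h : ∀ i, u i ≠ v i) : ltc u v + ltc v u = n := by
  have hone : ∑ _i : Fin n, (1 : ℤ) = n := by simp
  unfold ltc
  rw [← hone, ← Finset.sum_add_distrib]
  refine Finset.sum_congr rfl fun i _ => ?_
  rcases lt_or_gt_of_ne (h i) with a | a
  · rw [if_pos a, if_neg a.not_gt, add_zero]
  · rw [if_neg (not_lt.2 a.le), if_pos a, zero_add]

theorem mdc_comm {n : ℕ} (u v w : Fin n → ℚ) : mdc u v w = mdc w v u := by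
  unfold mdc
  refine Finset.sum_congr rfl fun i _ => ?_
  by_cases h : (u i < v i ∧ v i < w i) ∨ (w i < v i ∧ v i < u i)
  · rw [if_pos h, if_pos h.symm]
  · rw [if_neg h, if_neg fun h' => h h'.symm]

end Pool.Agent.H29.W3
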