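import Pool.Agent.H29.W3.Slot

/-!
The closure statement `Clo` and the two step lemmas (MP_9f68ee_co).
-/

set_option autoImplicit false
set_option maxHeartbeats 4000000

namespace Pool.Agent.H29.W3

/-- sum of an integer function over a multiset of linear orders of `x y z w` -/
def sm (f : T4 → ℤ) (Q : Multiset T4) : ℤ := (Q.map f).sum

theorem sm_cons (f : T4 → ℤ) (e : T4) (Q : Multiset T4) : sm f (e ::ₘ Q) = f e + sm f Q := by
  simp [sm]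

theorem sm_zero (f : T4 → ℤ) : sm f 0 = 0 := by simp [sm]

/-- the middle counts of the face `A B C` are within the truncation `t` -/
def Bd (g a b c t1 t2 t3 : ℤ) (A B C : T4 → ℤ) (Q : Multiset T4) : Prop :=
  sm (md C A B) Q ≤ |c + a - g| + 2 * (t2 + t3) ∧
  sm (md A B C) Q ≤ |a + b - g| + 2 * (t3 + t1) ∧
  sm (md B C A) Q ≤ |b + c - g| + 2 * (t1 + t2)

/-- `Q` has the marginals and the outer middle counts -/
def Mg (g axy ayz azx awx awy awz p q r : ℤ) (Q : Multiset T4) : Prop :=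
  (Multiset.card Q : ℤ) = g ∧ sm (lt X Y) Q = axy ∧ sm (lt Y Z) Q = ayz ∧ sm (lt Z X) Q = azx ∧
  sm (lt W X) Q = awx ∧ sm (lt W Y) Q = awy ∧ sm (lt W Z) Q = awz ∧
  sm (md Z X Y) Q = |azx + axy - g| + 2 * p ∧ sm (md X Y Z) Q = |axy + ayz - g| + 2 * q ∧
  sm (md Y Z X) Q = |ayz + azx - g| + 2 * r

/-- closure: there is an admissible truncation of `x y z` all of whose points are realized -/
def Clo (g axy ayz azx awx awy awz tzx tzy tzw txy txz txw tyz tyx tyw : ℤ) : Prop :=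
  ∃ sx sy sz : ℤ, Face g axy ayz azx sx sy sz ∧
    ∀ p q r : ℤ, 0 ≤ p → 0 ≤ q → 0 ≤ r → p + q + r = sx + sy + sz →
      p ≤ sy + sz → q ≤ sz + sx → r ≤ sx + sy →
      ∃ Q : Multiset T4, Mg g axy ayz azx awx awy awz p q r Q ∧
        Bd g axy (g - awy) awx tzx tzy tzw X Y W Q ∧
        Bd g ayz (g - awz) awy txy txz txw Y Z W Q ∧
        Bd g azx (g - awx) awz tyz tyx tyw Z X W Q

/-- when one order with middle indicators `m1 m2 m3` is added, the bounds stay true -/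
def Dr (g a b c t1 t2 t3 g' a' b' c' t1' t2' t3' m1 m2 m3 : ℤ) : Prop :=
  |c' + a' - g'| + 2 * (t2' + t3') + m1 ≤ |c + a - g| + 2 * (t2 + t3) ∧
  |a' + b' - g'| + 2 * (t3' + t1') + m2 ≤ |a + b - g| + 2 * (t3 + t1) ∧
  |b' + c' - g'| + 2 * (t1' + t2') + m3 ≤ |b + c - g| + 2 * (t1 + t2)

theorem md_sum (e : T4) : md Z X Y e + md X Y Z e + md Y Z X e = 1 := by
  obtain ⟨o, s⟩ := e
  revert o s
  decide

theorem step1 {g axy ayz azx awx awy awz tzx tzy tzw txy txz txw tyz tyx tyw : ℤ}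
    {g' bxy byz bzx bwx bwy bwz uzx uzy uzw uxy uxz uxw uyz uyx uyw : ℤ} (e : T4)
    (hg : g = g' + 1) (h1 : axy = lt X Y e + bxy) (h2 : ayz = lt Y Z e + byz)
    (h3 : azx = lt Z X e + bzx) (h4 : awx = lt W X e + bwx) (h5 : awy = lt W Y e + bwy)
    (h6 : awz = lt W Z e + bwz)
    (o1 : |azx + axy - g| = md Z X Y e + |bzx + bxy - g'|)
    (o2 : |axy + ayz - g| = md X Y Z e + |bxy + byz - g'|)
    (o3 : |ayz + azx - g| = md Y Z X e + |byz + bzx - g'|)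
    (d1 : Dr g axy (g - awy) awx tzx tzy tzw g' bxy (g' - bwy) bwx uzx uzy uzw
      (md W X Y e) (md X Y W e) (md Y W X e))
    (d2 : Dr g ayz (g - awz) awy txy txz txw g' byz (g' - bwz) bwy uxy uxz uxw
      (md W Y Z e) (md Y Z W e) (md Z W Y e))
    (d3 : Dr g azx (g - awx) awz tyz tyx tyw g' bzx (g' - bwx) bwz uyz uyx uyw
      (md W Z X e) (md Z X W e) (md X W Z e))
    (hc : Clo g' bxy byz bzx bwx bwy bwz uzx uzy uzw uxy uxz uxw uyz uyx uyw) :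
    Clo g axy ayz azx awx awy awz tzx tzy tzw txy txz txw tyz tyx tyw := by
  obtain ⟨sx, sy, sz, hF, hQ⟩ := hc
  obtain ⟨f1, f2, f3, f4⟩ := hF
  have hm := md_sum e
  refine ⟨sx, sy, sz, ⟨f1, f2, f3, by rw [o1, o2, o3, hg]; linarith⟩, ?_⟩
  intro p q r hp hq hr hpqr h1' h2' h3'
  obtain ⟨Q, hM, hz, hx, hy⟩ := hQ p q r hp hq hr hpqr h1' h2' h3'
  obtain ⟨m0, m1, m2, m3, m4, m5, m6, m7, m8, m9⟩ := hM
  refine ⟨e ::ₘ Q, ⟨?_, ?_, ?_, ?_, ?_, ?_, ?_, ?_, ?_, ?_⟩, ?_, ?_, ?_⟩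
  · rw [Multiset.card_cons]; push_cast; rw [m0, hg]
  · rw [sm_cons, m1, h1]
  · rw [sm_cons, m2, h2]
  · rw [sm_cons, m3, h3]
  · rw [sm_cons, m4, h4]
  · rw [sm_cons, m5, h5]
  · rw [sm_cons, m6, h6]
  · rw [sm_cons, m7, o1]; ring
  · rw [sm_cons, m8, o2]; ring
  · rw [sm_cons, m9, o3]; ring
  · obtain ⟨z1, z2, z3⟩ := hz
    obtain ⟨y1, y2, y3⟩ := d1
    refine ⟨?_, ?_, ?_⟩ <;> rw [sm_cons] <;> linarith
  · obtain ⟨z1, z2, z3⟩ := hx
    obtain ⟨y1, y2, y3⟩ := d2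
    refine ⟨?_, ?_, ?_⟩ <;> rw [sm_cons] <;> linarith
  · obtain ⟨z1, z2, z3⟩ := hy
    obtain ⟨y1, y2, y3⟩ := d3
    refine ⟨?_, ?_, ?_⟩ <;> rw [sm_cons] <;> linarith

end Pool.Agent.H29.W3
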