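import Pool.Agent.H29.W3.ZD

/-!
The closure theorem.
-/

set_option autoImplicit false
set_option maxHeartbeats 4000000

namespace Pool.Agent.H29.W3

variable {g axy ayz azx awx awy awz tzx tzy tzw txy txz txw tyz tyx tyw : ℤ}

theorem VD.rev (h : VD g axy ayz azx awx awy awz tzx tzy tzw txy txz txw tyz tyx tyw) :
    VD g (g - axy) (g - ayz) (g - azx) (g - awx) (g - awy) (g - awz)
      tzx tzy tzw txy txz txw tyz tyx tyw := by
  obtain ⟨h1, h2, h3, s1, s2, s3, h4⟩ := h
  exact ⟨h1.rev, h2.rev, h3.rev, s1, s2, s3, h4.rev⟩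

theorem Face.swap {a b c t1 t2 t3 : ℤ} (h : Face g a b c t1 t2 t3) :
    Face g (g - a) (g - c) (g - b) t2 t1 t3 := by
  obtain ⟨f1, f2, f3, f4⟩ := h.rev
  refine ⟨f2, f1, f3, ?_⟩
  have e1 : |g - b + (g - a) - g| = |g - a + (g - b) - g| := by congr 1; ring
  have e2 : |g - a + (g - c) - g| = |g - c + (g - a) - g| := by congr 1; ring
  have e3 : |g - c + (g - b) - g| = |g - b + (g - c) - g| := by congr 1; ring
  rw [e1, e2, e3]; linarith

theorem VD.sw (h : VD g axy ayz azx awx awy awz tzx tzy tzw txy txz txw tyz tyx tyw) :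
    VD g (g - ayz) (g - axy) (g - azx) awz awy awx txz txy txw tzy tzx tzw tyx tyz tyw := by
  obtain ⟨h1, h2, h3, s1, s2, s3, h4⟩ := h
  refine ⟨?_, ?_, ?_, s3, s2, s1, ?_⟩
  · have := h2.swap
    rw [sub_sub_cancel] at this; exact this
  · have := h1.swap
    rw [sub_sub_cancel] at this; exact this
  · have := h3.swap
    rw [sub_sub_cancel] at this; exact this
  · exact h4.swap.rot.rot

theorem Clo.rev' (h : Clo g (g - axy) (g - ayz) (g - azx) (g - awx) (g - awy) (g - awz)
    tzx tzy tzw txy txz txw tyz tyx tyw) :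
    Clo g axy ayz azx awx awy awz tzx tzy tzw txy txz txw tyz tyx tyw := by
  have := h.rev
  simp only [sub_sub_cancel] at this
  exact this

theorem Clo.sw' (h : Clo g (g - ayz) (g - axy) (g - azx) awz awy awx
    txz txy txw tzy tzx tzw tyx tyz tyw) :
    Clo g axy ayz azx awx awy awz tzx tzy tzw txy txz txw tyz tyx tyw := by
  have := h.sw
  simp only [sub_sub_cancel] at this
  exact this

theorem zPos
    (IH : ∀ bxy byz bzx bwx bwy bwz uzx uzy uzw uxy uxz uxw uyz uyx uyw : ℤ,
      VD (g - 2) bxy byz bzx bwx bwy bwz uzx uzy uzw uxy uxz uxw uyz uyx uyw →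
      Clo (g - 2) bxy byz bzx bwx bwy bwz uzx uzy uzw uxy uxz uxw uyz uyx uyw)
    (hV : VD g axy ayz azx awx awy awz tzx tzy tzw txy txz txw tyz tyx tyw)
    (hg : 2 ≤ g) (hxy : 2 * axy = g) (hyz : 2 * ayz = g) (hzx : 2 * azx = g)
    (b1 : axy < awy) (b2 : awx ≤ axy) (b3 : awz ≤ axy) (b4 : awx = axy ∨ awz = axy) :
    Clo g axy ayz azx awx awy awz tzx tzy tzw txy txz txw tyz tyx tyw := by
  have hV' := hV
  obtain ⟨hz, hx, hy, -⟩ := hV'
  obtain ⟨z1, z2, z3, z4, z5, z6, z7, z8, z9, z10, z11⟩ := face_le hz
  obtain ⟨x1, x2, x3, x4, x5, x6, x7, x8, x9, x10, x11⟩ := face_le hx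
  obtain ⟨y1, y2, y3, y4, y5, y6, y7, y8, y9, y10, y11⟩ := face_le hy
  have hs : 1 ≤ tyz + tyx + tyw := by
    have q := face_eq hy
    rcases b4 with b4 | b4 <;> omega
  have ht : 1 ≤ tyw ∨ 1 ≤ tyx ∨ 1 ≤ tyz := by omega
  rcases ht with ht | ht | ht
  · exact (zC1 IH hV.unrot.unrot hg hyz hzx hxy (by linarith) (by linarith) (by linarith) ht).rot.rot
  · exact zC2 IH hV hg hxy hyz hzx b1 (by linarith) (by linarith) ht
  · exact (zC2 IH hV.sw hg (by linarith) (by linarith) (by linarith) (by linarith) (by linarith)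
      (by linarith) ht).sw'

theorem zAll
    (IH : ∀ bxy byz bzx bwx bwy bwz uzx uzy uzw uxy uxz uxw uyz uyx uyw : ℤ,
      VD (g - 2) bxy byz bzx bwx bwy bwz uzx uzy uzw uxy uxz uxw uyz uyx uyw →
      Clo (g - 2) bxy byz bzx bwx bwy bwz uzx uzy uzw uxy uxz uxw uyz uyx uyw)
    (hV : VD g axy ayz azx awx awy awz tzx tzy tzw txy txz txw tyz tyx tyw)
    (hg : 2 ≤ g) (hxy : 2 * axy = g) (hyz : 2 * ayz = g) (hzx : 2 * azx = g)
    : Clo g axy ayz azx awx awy awz tzx tzy tzw txy txz txw tyz tyx tyw := by
  have hV1 := hV.unrot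
  have hV2 := hV1.unrot
  have hVr := hV.rev
  have hVr1 := hVr.unrot
  have hVr2 := hVr1.unrot
  rcases lt_trichotomy awx axy with hx | hx | hx <;>
  rcases lt_trichotomy awy axy with hy | hy | hy <;>
  rcases lt_trichotomy awz axy with hz | hz | hz
  · exact ((zA IH hVr hg (by linarith) (by linarith) (by linarith) (by linarith) (by linarith) (by linarith))).rev'
  · exact ((zB IH hVr1 hg (by linarith) (by linarith) (by linarith) (by linarith) (by linarith) (by linarith) (by linarith)).rot).rev'
  · exact ((zB IH hVr1 hg (by linarith) (by linarith) (by linarith) (by linarith) (by linarith) (by linarith) (by linarith)).rot).rev'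
  · exact ((zB IH hVr2 hg (by linarith) (by linarith) (by linarith) (by linarith) (by linarith) (by linarith) (by linarith)).rot.rot).rev'
  · exact ((zPos IH hVr1 hg (by linarith) (by linarith) (by linarith) (by linarith) (by linarith) (by linarith) (Or.inl (by linarith))).rot).rev'
  · exact (zPos IH hV2 hg hyz hzx hxy (by linarith) (by linarith) (by linarith) (Or.inl (by linarith))).rot.rot
  · exact ((zB IH hVr2 hg (by linarith) (by linarith) (by linarith) (by linarith) (by linarith) (by linarith) (by linarith)).rot.rot).rev'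
  · exact (zPos IH hV hg hxy hyz hzx (by linarith) (by linarith) (by linarith) (Or.inr (by linarith)))
  · exact (zB IH hV hg hxy hyz hzx (by linarith) (by linarith) (by linarith) (by linarith))
  · exact ((zB IH hVr hg (by linarith) (by linarith) (by linarith) (by linarith) (by linarith) (by linarith) (by linarith))).rev'
  · exact ((zPos IH hVr hg (by linarith) (by linarith) (by linarith) (by linarith) (by linarith) (by linarith) (Or.inl (by linarith)))).rev'
  · exact (zPos IH hV2 hg hyz hzx hxy (by linarith) (by linarith) (by linarith) (Or.inr (by linarith))).rot.rot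
  · exact ((zPos IH hVr2 hg (by linarith) (by linarith) (by linarith) (by linarith) (by linarith) (by linarith) (Or.inl (by linarith))).rot.rot).rev'
  · exact (zD IH hV hg hxy hyz hzx (by linarith) (by linarith) (by linarith))
  · exact (zPos IH hV2 hg hyz hzx hxy (by linarith) (by linarith) (by linarith) (Or.inl (by linarith))).rot.rot
  · exact (zPos IH hV hg hxy hyz hzx (by linarith) (by linarith) (by linarith) (Or.inl (by linarith)))
  · exact (zPos IH hV hg hxy hyz hzx (by linarith) (by linarith) (by linarith) (Or.inl (by linarith)))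
  · exact (zB IH hV hg hxy hyz hzx (by linarith) (by linarith) (by linarith) (by linarith))
  · exact ((zB IH hVr hg (by linarith) (by linarith) (by linarith) (by linarith) (by linarith) (by linarith) (by linarith))).rev'
  · exact (zPos IH hV1 hg hzx hxy hyz (by linarith) (by linarith) (by linarith) (Or.inl (by linarith))).rot
  · exact (zB IH hV2 hg hyz hzx hxy (by linarith) (by linarith) (by linarith) (by linarith)).rot.rot
  · exact (zPos IH hV1 hg hzx hxy hyz (by linarith) (by linarith) (by linarith) (Or.inr (by linarith))).rot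
  · exact (zPos IH hV1 hg hzx hxy hyz (by linarith) (by linarith) (by linarith) (Or.inl (by linarith))).rot
  · exact (zB IH hV2 hg hyz hzx hxy (by linarith) (by linarith) (by linarith) (by linarith)).rot.rot
  · exact (zB IH hV1 hg hzx hxy hyz (by linarith) (by linarith) (by linarith) (by linarith)).rot
  · exact (zB IH hV1 hg hzx hxy hyz (by linarith) (by linarith) (by linarith) (by linarith)).rot
  · exact (zA IH hV hg hxy hyz hzx (by linarith) (by linarith) (by linarith))

theorem closure : ∀ (n : ℕ) (axy ayz azx awx awy awz tzx tzy tzw txy txz txw tyz tyx tyw : ℤ),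
    VD n axy ayz azx awx awy awz tzx tzy tzw txy txz txw tyz tyx tyw →
    Clo n axy ayz azx awx awy awz tzx tzy tzw txy txz txw tyz tyx tyw := by
  intro n
  induction n using Nat.strong_induction_on with
  | _ n ih =>
    intro axy ayz azx awx awy awz tzx tzy tzw txy txz txw tyz tyx tyw hV
    rcases Nat.eq_zero_or_pos n with rfl | hn
    · -- no orders at all
      obtain ⟨hz, hx, hy, s1, s2, s3, hs⟩ := hV
      obtain ⟨z1, z2, z3, z4, z5, z6, z7, z8, z9, z10, z11⟩ := face_le hz
      obtain ⟨x1, x2, x3, x4, x5, x6, x7, x8, x9, x10, x11⟩ := face_le hx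
      obtain ⟨y1, y2, y3, y4, y5, y6, y7, y8, y9, y10, y11⟩ := face_le hy
      obtain ⟨k1, k2, k3, k4, k5, k6, k7, k8, k9, k10, k11⟩ := face_le hs
      push_cast at *
      have e1 : axy = 0 := by linarith
      have e2 : ayz = 0 := by linarith
      have e3 : azx = 0 := by linarith
      have e4 : awx = 0 := by linarith
      have e5 : awy = 0 := by linarith
      have e6 : awz = 0 := by linarith
      have e7 : s1 = 0 := by linarith
      have e8 : s2 = 0 := by linarith
      have e9 : s3 = 0 := by linarith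
      subst e1 e2 e3 e4 e5 e6 e7 e8 e9
      refine ⟨0, 0, 0, hs, ?_⟩
      intro p q r hp hq hr hpqr _ _ _
      have e7 : p = 0 := by linarith
      have e8 : q = 0 := by linarith
      have e9 : r = 0 := by linarith
      subst e7 e8 e9
      refine ⟨0, ?_, ?_, ?_, ?_⟩
      · simp [Mg, sm]
      all_goals
        simp only [Bd, sm, Multiset.map_zero, Multiset.sum_zero]
        refine ⟨by positivity, by positivity, by positivity⟩
    · have hcast : ((n - 1 : ℕ) : ℤ) = (n : ℤ) - 1 := by omega
      have ih1 := ih (n - 1) (by omega)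
      rw [hcast] at ih1
      have hV0 := hV
      obtain ⟨hz, hx, hy, s1, s2, s3, hs⟩ := hV0
      obtain ⟨k1, k2, k3, k4, k5, k6, k7, k8, k9, k10, k11⟩ := face_le hs
      rcases lt_trichotomy (axy + ayz - (n : ℤ)) 0 with h1 | h1 | h1
      · exact (clo_pos ih1 hV.rev (by linarith)).rev'
      · rcases lt_trichotomy (ayz + azx - (n : ℤ)) 0 with h2 | h2 | h2
        · exact (clo_pos ih1 hV.rev.unrot.unrot (by linarith)).rot.rot.rev'
        · rcases lt_trichotomy (azx + axy - (n : ℤ)) 0 with h3 | h3 | h3
          · exact (clo_pos ih1 hV.rev.unrot (by linarith)).rot.rev'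
          · have hn2 : 2 ≤ n := by omega
            have hcast2 : ((n - 2 : ℕ) : ℤ) = (n : ℤ) - 2 := by omega
            have ih2 := ih (n - 2) (by omega)
            rw [hcast2] at ih2
            exact zAll ih2 hV (by exact_mod_cast hn2) (by linarith) (by linarith) (by linarith)
          · exact (clo_pos ih1 hV.unrot (by linarith)).rot
        · exact (clo_pos ih1 hV.unrot.unrot (by linarith)).rot.rot
      · exact clo_pos ih1 hV h1

end Pool.Agent.H29.W3
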