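import Mathlib

set_option autoImplicit false

namespace Pool.Agent.H29.W3

/-- An admissible truncation `(t1, t2, t3)` of a triangle `p q r` in which `p` is before `q` in
`a` orders, `q` before `r` in `b` orders and `r` before `p` in `c` orders, out of `g`. -/
def Face (g a b c t1 t2 t3 : ℤ) : Prop :=
  0 ≤ t1 ∧ 0 ≤ t2 ∧ 0 ≤ t3 ∧ 2 * (t1 + t2 + t3) + |c + a - g| + |a + b - g| + |b + c - g| = g

/-- The six orders of `x y z`. -/
inductive O | xyz | yzx | zxy | zyx | xzy | yxz
  deriving DecidableEq, Fintype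

/-- positions of the three vertices: 2, 4, 6. -/
def px : O → ℤ | .xyz => 2 | .xzy => 2 | .yxz => 4 | .zxy => 4 | .yzx => 6 | .zyx => 6
def py : O → ℤ | .yxz => 2 | .yzx => 2 | .xyz => 4 | .zyx => 4 | .xzy => 6 | .zxy => 6
def pz : O → ℤ | .zxy => 2 | .zyx => 2 | .xzy => 4 | .yzx => 4 | .xyz => 6 | .yxz => 6
/-- position of `w` in slot `s`: 1, 3, 5, 7. -/
def pw (s : Fin 4) : ℤ := 2 * (s.val : ℤ) + 1

/-- A linear order of `x y z w`: an order of `x y z` and one of four slots for `w`. -/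
abbrev T4 := O × Fin 4

def X (e : T4) : ℤ := px e.1
def Y (e : T4) : ℤ := py e.1
def Z (e : T4) : ℤ := pz e.1
def W (e : T4) : ℤ := pw e.2

/-- indicator of `a < b` -/
def lt (A B : T4 → ℤ) (e : T4) : ℤ := if A e < B e then 1 else 0
/-- indicator of `b` in the middle of `a b c` -/
def md (A B C : T4 → ℤ) (e : T4) : ℤ :=
  if (A e < B e ∧ B e < C e) ∨ (C e < B e ∧ B e < A e) then 1 else 0

end Pool.Agent.H29.W3
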