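import Mathlib

/-!
[H29 W3 DST] Capped distances of a digraph all of whose directed cycles have weight at least `k`
(MP_9f68ee_co). A digraph has vertices `V`, arcs `A`, tail `tl`, head `hd`, weights `l`.

PROOF. For a list of arcs `p = [a1, ..., am]` call it a walk from `u` to `v` if `m = 0` and `u = v`, or
`tl a1 = u`, `hd a_i = tl a_{i+1}`, `hd am = v` (define `IsW : V → List A → V → Prop` by recursion:
`IsW u [] v = (u = v)`, `IsW u (a :: p) v = (tl a = u ∧ IsW (hd a) p v)`), weight `(p.map l).sum`.
(1) every CLOSED nonempty walk has weight `≥ k`: strong induction on the length; if the tails of its arcs are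
pairwise different it is a directed cycle (turn the list into `Fin (n + 1) → A`), use `h`; otherwise the
tails of the arcs number `i < j` are equal, then the arcs `i, ..., j - 1` form a shorter nonempty closed
walk, whose weight is at most the weight of the whole walk.
(2) `d u v := if u = v then 0 else min k (least weight of a walk from u to v)` (`= k` if there is no walk; use
`Nat.find` or `sInf` of a nonempty set, or define `d u v` as the least element of
`{n | n = k ∨ ∃ p, IsW u p v ∧ (p.map l).sum = n}`). Triangle inequality by concatenation;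
`k ≤ d u v + d v u` for `u ≠ v` by (1) (a walk from `u` to `v ≠ u` is nonempty); the last claim: `[a]` is a walk.
-/

set_option autoImplicit false

namespace Pool.Agent.H29.W3

open Finset

private def DIST_W {V A : Type} (tl hd : A → V) : V → List A → V → Prop
  | u, [], v => u = v
  | u, a :: p, v => tl a = u ∧ DIST_W tl hd (hd a) p v

private theorem DIST_append {V A : Type} (tl hd : A → V) (p q : List A) (u v : V) :
    DIST_W tl hd u (p ++ q) v ↔ ∃ w, DIST_W tl hd u p w ∧ DIST_W tl hd w q v := by
  induction p generalizing u with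
  | nil =>
    constructor
    · intro h
      exact ⟨u, rfl, h⟩
    · rintro ⟨w, h1, h2⟩
      have h1' : u = w := h1
      rw [h1']
      exact h2
  | cons a p ih =>
    constructor
    · rintro ⟨h1, h2⟩
      obtain ⟨w, h3, h4⟩ := (ih _).1 h2
      exact ⟨w, ⟨h1, h3⟩, h4⟩
    · rintro ⟨w, ⟨h1, h3⟩, h4⟩
      exact ⟨h1, (ih _).2 ⟨w, h3, h4⟩⟩

private theorem DIST_split {V A : Type} (tl hd : A → V) (l : A → ℕ) (p : List A) (u v : V)
    (h : DIST_W tl hd u p v) (hn : ¬ (p.map tl).Nodup) :
    ∃ q w, q ≠ [] ∧ DIST_W tl hd w q w ∧ q.length < p.length ∧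
      (q.map l).sum ≤ (p.map l).sum := by
  induction p generalizing u with
  | nil => exact absurd List.nodup_nil hn
  | cons a p ih =>
    rw [List.map_cons, List.nodup_cons, not_and_or, not_not] at hn
    obtain ⟨h1, h2⟩ := h
    by_cases hp : (p.map tl).Nodup
    · have h3 : tl a ∈ p.map tl := hn.resolve_right fun h => h hp
      obtain ⟨b, hb, hab⟩ := List.mem_map.1 h3
      obtain ⟨s, t, rfl⟩ := List.append_of_mem hb
      obtain ⟨w, h4, h5⟩ := (DIST_append tl hd s (b :: t) _ _).1 h2
      have h6 : tl b = w := h5.1
      refine ⟨a :: s, tl a, List.cons_ne_nil _ _, ⟨rfl, ?_⟩, ?_, ?_⟩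
      · rw [← hab, h6]
        exact h4
      · simp only [List.length_cons, List.length_append]
        omega
      · simp only [List.map_cons, List.sum_cons, List.map_append, List.sum_append]
        omega
    · obtain ⟨q, w, h3, h4, h5, h6⟩ := ih _ h2 hp
      refine ⟨q, w, h3, h4, ?_, ?_⟩
      · rw [List.length_cons]
        omega
      · rw [List.map_cons, List.sum_cons]
        omega

private theorem DIST_get {V A : Type} (tl hd : A → V) (p : List A) (u v : V)
    (h : DIST_W tl hd u p v) :
    (∀ i (hi : i + 1 < p.length), hd (p[i]'(by omega)) = tl (p[i + 1]'hi)) ∧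
      (∀ h0 : 0 < p.length, tl (p[0]'h0) = u) ∧
      (∀ h0 : 0 < p.length, hd (p[p.length - 1]'(by omega)) = v) := by
  induction p generalizing u with
  | nil => exact ⟨fun i hi => absurd hi (by simp), fun h0 => absurd h0 (by simp),
      fun h0 => absurd h0 (by simp)⟩
  | cons a p ih =>
    obtain ⟨h1, h2⟩ := h
    obtain ⟨h3, h4, h5⟩ := ih _ h2
    refine ⟨?_, fun _ => h1, ?_⟩
    · intro i hi
      cases i with
      | zero =>
        have h6 : 0 < p.length := by
          rw [List.length_cons] at hi
          omega
        have := h4 h6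
        exact this.symm
      | succ i =>
        have h6 : i + 1 < p.length := by
          rw [List.length_cons] at hi
          omega
        exact h3 i h6
    · intro h0
      cases p with
      | nil => exact h2
      | cons b p =>
        have := h5 (by simp)
        exact this

private theorem DIST_closed {V A : Type} (tl hd : A → V) (l : A → ℕ) (k : ℕ)
    (h : ∀ (n : ℕ) (c : Fin (n + 1) → A), (∀ i, hd (c i) = tl (c (i + 1))) →
      Function.Injective (fun i => tl (c i)) → k ≤ ∑ i, l (c i)) :
    ∀ (m : ℕ) (p : List A) (u : V), p.length = m → p ≠ [] → DIST_W tl hd u p u →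
      k ≤ (p.map l).sum := by
  intro m
  induction m using Nat.strong_induction_on with
  | _ m ih =>
    intro p u hm hne hw
    by_cases hnd : (p.map tl).Nodup
    · obtain ⟨n, hn⟩ : ∃ n, p.length = n + 1 :=
        ⟨p.length - 1, by have := List.length_pos_iff.2 hne; omega⟩
      obtain ⟨h1, h2, h3⟩ := DIST_get tl hd p u u hw
      have hc := h n (fun i => p.get (Fin.cast hn.symm i)) (by
        intro i
        by_cases hi : i = Fin.last n
        · subst hi
          rw [Fin.last_add_one]
          have e1 : p.get (Fin.cast hn.symm (Fin.last n)) = p[p.length - 1]'(by omega) := by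
            rw [List.get_eq_getElem]
            congr 1
            rw [Fin.val_cast, Fin.val_last]
            omega
          have e2 : p.get (Fin.cast hn.symm 0) = p[0]'(by omega) := by
            rw [List.get_eq_getElem]
            congr 1
          rw [e1, e2, h2 (by omega), h3 (by omega)]
        · have hlt : i < Fin.last n := Fin.lt_last_iff_ne_last.2 hi
          have hv : (i + 1).val = i.val + 1 := Fin.val_add_one_of_lt hlt
          have hlt' : i.val < n := hlt
          have e2 : p.get (Fin.cast hn.symm (i + 1)) = p[i.val + 1]'(by omega) := by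
            rw [List.get_eq_getElem]
            congr 1
          rw [e2]
          exact h1 i.val (by omega)) (by
        intro i j hij
        have h4 := List.nodup_iff_injective_get.1 hnd
        have h5 : (Fin.cast (by rw [List.length_map, hn]) i : Fin (p.map tl).length) =
            Fin.cast (by rw [List.length_map, hn]) j := by
          apply h4
          rw [List.get_eq_getElem, List.get_eq_getElem, List.getElem_map, List.getElem_map]
          exact hij
        have h6 := congrArg Fin.val h5
        rw [Fin.val_cast, Fin.val_cast] at h6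
        exact Fin.ext h6)
      refine hc.trans_eq ?_
      rw [← Fin.sum_univ_fun_getElem p l]
      exact Fintype.sum_equiv (finCongr hn.symm) _ _ fun i => rfl
    · obtain ⟨q, w, h1, h2, h3, h4⟩ := DIST_split tl hd l p u u hw hnd
      exact (ih q.length (by omega) q w rfl h1 h2).trans h4

theorem dist_exists {V A : Type} [Fintype V] [Fintype A] (tl hd : A → V) (l : A → ℕ) (k : ℕ)
    (h : ∀ (n : ℕ) (c : Fin (n + 1) → A), (∀ i, hd (c i) = tl (c (i + 1))) →
      Function.Injective (fun i => tl (c i)) → k ≤ ∑ i, l (c i)) :
    ∃ d : V → V → ℕ, (∀ u, d u u = 0) ∧ (∀ u v w, d u w ≤ d u v + d v w) ∧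
      (∀ u v, u ≠ v → k ≤ d u v + d v u) ∧ (∀ u v, d u v ≤ k) ∧
      ∀ a, tl a ≠ hd a → d (tl a) (hd a) ≤ l a := by
  classical
  have hcl := DIST_closed tl hd l k h
  obtain ⟨S, hS⟩ : ∃ S : V → V → Set ℕ, ∀ u v, S u v =
      {n | n = k ∨ ∃ p, DIST_W tl hd u p v ∧ (p.map l).sum = n} := ⟨_, fun _ _ => rfl⟩
  have hSk : ∀ u v, sInf (S u v) ≤ k := by
    intro u v
    apply Nat.sInf_le
    rw [hS]
    exact Or.inl rfl
  have hSw : ∀ u v p, DIST_W tl hd u p v → sInf (S u v) ≤ (p.map l).sum := by
    intro u v p hp
    apply Nat.sInf_le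
    rw [hS]
    exact Or.inr ⟨p, hp, rfl⟩
  have hSa : ∀ u v, sInf (S u v) = k ∨ ∃ p, DIST_W tl hd u p v ∧ (p.map l).sum = sInf (S u v) := by
    intro u v
    have h1 : sInf (S u v) ∈ S u v := Nat.sInf_mem ⟨k, by rw [hS]; exact Or.inl rfl⟩
    have h2 : sInf (S u v) ∈ {n | n = k ∨ ∃ p, DIST_W tl hd u p v ∧ (p.map l).sum = n} := by
      rw [← hS]
      exact h1
    exact h2
  refine ⟨fun u v => if u = v then 0 else sInf (S u v), ?_, ?_, ?_, ?_, ?_⟩
  · intro u
    exact if_pos rfl
  · intro u v w
    show (if u = w then 0 else sInf (S u w)) ≤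
      (if u = v then 0 else sInf (S u v)) + (if v = w then 0 else sInf (S v w))
    by_cases huw : u = w
    · rw [if_pos huw]
      exact Nat.zero_le _
    · by_cases huv : u = v
      · subst huv
        rw [if_pos rfl, zero_add]
      · by_cases hvw : v = w
        · subst hvw
          rw [if_pos (rfl : v = v), add_zero]
        · rw [if_neg huw, if_neg huv, if_neg hvw]
          rcases hSa u v with h1 | ⟨p, hp, hp2⟩
          · rw [h1]
            exact (hSk u w).trans (Nat.le_add_right _ _)
          · rcases hSa v w with h2 | ⟨q, hq, hq2⟩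
            · rw [h2]
              exact (hSk u w).trans (Nat.le_add_left _ _)
            · rw [← hp2, ← hq2, ← List.sum_append, ← List.map_append]
              exact hSw u w _ ((DIST_append tl hd p q u w).2 ⟨v, hp, hq⟩)
  · intro u v huv
    show k ≤ (if u = v then 0 else sInf (S u v)) + (if v = u then 0 else sInf (S v u))
    rw [if_neg huv, if_neg (Ne.symm huv)]
    rcases hSa u v with h1 | ⟨p, hp, hp2⟩
    · rw [h1]
      exact Nat.le_add_right _ _
    · rcases hSa v u with h2 | ⟨q, hq, hq2⟩
      · rw [h2]
        exact Nat.le_add_left _ _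
      · rw [← hp2, ← hq2, ← List.sum_append, ← List.map_append]
        refine hcl _ (p ++ q) u rfl ?_ ((DIST_append tl hd p q u u).2 ⟨v, hp, hq⟩)
        intro hnil
        rw [List.append_eq_nil_iff] at hnil
        rw [hnil.1] at hp
        exact huv hp
  · intro u v
    show (if u = v then 0 else sInf (S u v)) ≤ k
    split_ifs
    · exact Nat.zero_le _
    · exact hSk u v
  · intro a ha
    show (if tl a = hd a then 0 else sInf (S (tl a) (hd a))) ≤ l a
    rw [if_neg ha]
    have h1 := hSw (tl a) (hd a) [a] ⟨rfl, rfl⟩
    rw [List.map_singleton, List.sum_singleton] at h1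
    exact h1

/-- converse direction: the arcs that do not increase a potential meet every directed cycle -/
theorem fas_of_potential {V A : Type} (tl hd : A → V) (f : V → ℚ) (n : ℕ) (c : Fin (n + 1) → A)
    (hc : ∀ i, hd (c i) = tl (c (i + 1))) : ∃ j, f (hd (c j)) ≤ f (tl (c j)) := by
  by_contra hcon
  push Not at hcon
  have h1 : ∑ i, f (tl (c i)) < ∑ i, f (tl (c (i + 1))) := by
    apply Finset.sum_lt_sum_of_nonempty Finset.univ_nonempty
    intro i _
    rw [← hc i]
    exact hcon i
  have h2 : ∑ i, f (tl (c (i + 1))) = ∑ i, f (tl (c i)) :=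
    Equiv.sum_comp (Equiv.addRight (1 : Fin (n + 1))) fun i => f (tl (c i))
  rw [h2] at h1
  exact lt_irrefl _ h1

end Pool.Agent.H29.W3
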