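import Pool.Agent.H29.W3.Defs

/-!
[H29 W3 PRM] Three small lemmas (MP_9f68ee_co).

(1) `perm_of_fibers`: two functions on `Fin n` with equally large fibres differ by a permutation
(`Equiv.sigmaFiberEquiv`, `Fintype.card_eq`).
(2) `exists_fun`: a multiset of `n` elements is the image of a function on `Fin n` (take a list).
(3) `ext1`: given three different rationals in the order described by `e : T4`, there is a fourth one in the
slot described by `e` (24 cases `obtain ⟨o, s⟩ := e; cases o <;> fin_cases s`: smallest minus 1, a midpoint, or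
largest plus 1).
-/

set_option autoImplicit false

namespace Pool.Agent.H29.W3

open Finset

theorem perm_of_fibers {n : ℕ} {α : Type} [DecidableEq α] (p q : Fin n → α)
    (h : ∀ y, (univ.filter (fun i => p i = y)).card = (univ.filter (fun i => q i = y)).card) :
    ∃ e : Equiv.Perm (Fin n), ∀ i, p i = q (e i) := by
  have h1 : ∀ y, Nonempty ({i // p i = y} ≃ {i // q i = y}) := by
    intro y
    rw [← Fintype.card_eq, Fintype.card_subtype, Fintype.card_subtype]
    exact h y
  refine ⟨(Equiv.sigmaFiberEquiv p).symm.trans ((Equiv.sigmaCongrRight fun y => (h1 y).some).trans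
    (Equiv.sigmaFiberEquiv q)), fun i => ?_⟩
  exact (((h1 (p i)).some) ⟨i, rfl⟩).2.symm

theorem exists_fun {α : Type} (Q : Multiset α) (n : ℕ) (h : Multiset.card Q = n) :
    ∃ q : Fin n → α, ∀ f : α → ℤ, ∑ i, f (q i) = (Q.map f).sum := by
  induction Q using Quotient.inductionOn with
  | _ l =>
    have h1 : l.length = n := h
    subst h1
    refine ⟨l.get, fun f => ?_⟩
    show ∑ i, f (l.get i) = ((l : Multiset α).map f).sum
    rw [Multiset.map_coe, Multiset.sum_coe]
    exact Fin.sum_univ_fun_getElem l f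

theorem ext1 (e : T4) (fx fy fz : ℚ) (hxy : fx ≠ fy) (hyz : fy ≠ fz) (hzx : fz ≠ fx)
    (h1 : fx < fy ↔ X e < Y e) (h2 : fy < fz ↔ Y e < Z e) (h3 : fz < fx ↔ Z e < X e) :
    ∃ h : ℚ, h ≠ fx ∧ h ≠ fy ∧ h ≠ fz ∧ (h < fx ↔ W e < X e) ∧ (h < fy ↔ W e < Y e) ∧
      (h < fz ↔ W e < Z e) := by
  have key : ∀ (a b c : ℚ) (k : Fin 4), a < b → b < c → ∃ h : ℚ, h ≠ a ∧ h ≠ b ∧ h ≠ c ∧
      (h < a ↔ pw k < 2) ∧ (h < b ↔ pw k < 4) ∧ (h < c ↔ pw k < 6) := by
    intro a b c k hab hbc
    fin_cases k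
    · refine ⟨a - 1, ?_, ?_, ?_, ?_, ?_, ?_⟩
      · intro h; linarith
      · intro h; linarith
      · intro h; linarith
      · exact ⟨fun _ => by decide, fun _ => by linarith⟩
      · exact ⟨fun _ => by decide, fun _ => by linarith⟩
      · exact ⟨fun _ => by decide, fun _ => by linarith⟩
    · refine ⟨(a + b) / 2, ?_, ?_, ?_, ?_, ?_, ?_⟩
      · intro h; linarith
      · intro h; linarith
      · intro h; linarith
      · exact ⟨fun h => by linarith, fun h => absurd h (by decide)⟩
      · exact ⟨fun _ => by decide, fun _ => by linarith⟩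
      · exact ⟨fun _ => by decide, fun _ => by linarith⟩
    · refine ⟨(b + c) / 2, ?_, ?_, ?_, ?_, ?_, ?_⟩
      · intro h; linarith
      · intro h; linarith
      · intro h; linarith
      · exact ⟨fun h => by linarith, fun h => absurd h (by decide)⟩
      · exact ⟨fun h => by linarith, fun h => absurd h (by decide)⟩
      · exact ⟨fun _ => by decide, fun _ => by linarith⟩
    · refine ⟨c + 1, ?_, ?_, ?_, ?_, ?_, ?_⟩
      · intro h; linarith
      · intro h; linarith
      · intro h; linarith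
      · exact ⟨fun h => by linarith, fun h => absurd h (by decide)⟩
      · exact ⟨fun h => by linarith, fun h => absurd h (by decide)⟩
      · exact ⟨fun h => by linarith, fun h => absurd h (by decide)⟩
  obtain ⟨o, k⟩ := e
  have h1 : fx < fy ↔ px o < py o := h1
  have h2 : fy < fz ↔ py o < pz o := h2
  have h3 : fz < fx ↔ pz o < px o := h3
  have up : ∀ {a b : ℚ} {P : Prop}, (a < b ↔ P) → P → a < b := fun h hp => h.2 hp
  have dn : ∀ {a b : ℚ} {P : Prop}, a ≠ b → (a < b ↔ P) → ¬ P → b < a := by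
    intro a b P hne h hp
    exact lt_of_le_of_ne (not_lt.1 fun h' => hp (h.1 h')) hne.symm
  cases o
  · -- xyz
    obtain ⟨h, e1, e2, e3, e4, e5, e6⟩ := key fx fy fz k (up h1 (by decide)) (up h2 (by decide))
    exact ⟨h, e1, e2, e3, e4, e5, e6⟩
  · -- yzx
    obtain ⟨h, e1, e2, e3, e4, e5, e6⟩ := key fy fz fx k (up h2 (by decide)) (up h3 (by decide))
    exact ⟨h, e3, e1, e2, e6, e4, e5⟩
  · -- zxy
    obtain ⟨h, e1, e2, e3, e4, e5, e6⟩ := key fz fx fy k (up h3 (by decide)) (up h1 (by decide))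
    exact ⟨h, e2, e3, e1, e5, e6, e4⟩
  · -- zyx
    obtain ⟨h, e1, e2, e3, e4, e5, e6⟩ := key fz fy fx k (dn hyz h2 (by decide))
      (dn hxy h1 (by decide))
    exact ⟨h, e3, e2, e1, e6, e5, e4⟩
  · -- xzy
    obtain ⟨h, e1, e2, e3, e4, e5, e6⟩ := key fx fz fy k (dn hzx h3 (by decide))
      (dn hyz h2 (by decide))
    exact ⟨h, e1, e3, e2, e4, e6, e5⟩
  · -- yxz
    obtain ⟨h, e1, e2, e3, e4, e5, e6⟩ := key fy fx fz k (dn hxy h1 (by decide))
      (dn hzx h3 (by decide))
    exact ⟨h, e2, e1, e3, e5, e4, e6⟩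

end Pool.Agent.H29.W3
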