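import Pool.Agent.H29.W3.Sym
import Pool.Agent.H29.W3.Perm

/-!
[H29 W3 EXT] Extending `n` orders of `x y z` by the places of `w` (MP_9f68ee_co).

PROOF. Let `p c : O` be the order of `fx c, fy c, fz c` (`if fx c < fy c then (if fy c < fz c then .xyz else if
fx c < fz c then .xzy else .zxy) else (...)`), `q : Fin n → T4` from `exists_fun Q`. For every `o : O` the
fibres of `p` and `fun c => (q c).1` over `o` have the same size: both six-tuples of sizes `n_o` solve the same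
linear equations: `n_xyz + n_zyx = md x y z` (`y` in the middle), `n_xyz + n_xzy + n_zxy = lt x y` and so on;
`n_xyz - n_zyx = lt x y + lt y z - n`, etc. (write every `lt` and `md` sum as a sum over fibres,
`Finset.sum_fiberwise`, or prove for each `o` that its indicator function is a fixed rational combination of
the indicators `1, lt x y, lt y z, lt z x, md ...`: `2 [o = xyz] = md x y z + lt x y + lt y z - 1`,
`2 [o = zyx] = md x y z - lt x y - lt y z + 1`, cyclically `2 [o = yzx] = md y z x + lt y z + lt z x - 1`,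
`2 [o = xzy] = md y z x - lt y z - lt z x + 1`, `2 [o = zxy] = md z x y + lt z x + lt x y - 1`,
`2 [o = yxz] = md z x y - lt z x - lt x y + 1`; check by cases on the order, sum over `c`).
`perm_of_fibers` gives `e` with `p c = (q (e c)).1`; `ext1 (q (e c)) (fx c) (fy c) (fz c)` gives `fw c` with all
comparisons; all sums agree by `Equiv.sum_comp e` and `exists_fun`.
-/

set_option autoImplicit false
set_option maxHeartbeats 4000000

namespace Pool.Agent.H29.W3

open Finset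

/-- in how many of the `n` orders is `u` before `v` -/
def ltc {n : ℕ} (u v : Fin n → ℚ) : ℤ := ∑ c, if u c < v c then 1 else 0

/-- in how many of the `n` orders is `v` between `u` and `w` -/
def mdc {n : ℕ} (u v w : Fin n → ℚ) : ℤ :=
  ∑ c, if (u c < v c ∧ v c < w c) ∨ (w c < v c ∧ v c < u c) then 1 else 0

/-- the order of three different rationals -/
def ord3 (a b c : ℚ) : O :=
  if a < b then (if b < c then .xyz else if a < c then .xzy else .zxy)
  else (if b < c then (if c < a then .yzx else .yxz) else .zyx)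

theorem ord3_xy (a b c : ℚ) (h1 : a ≠ b) (h2 : b ≠ c) (h3 : c ≠ a) :
    (a < b ↔ px (ord3 a b c) < py (ord3 a b c)) ∧ (b < c ↔ py (ord3 a b c) < pz (ord3 a b c)) ∧
      (c < a ↔ pz (ord3 a b c) < px (ord3 a b c)) := by
  unfold ord3
  rcases lt_or_gt_of_ne h1 with h1 | h1 <;> rcases lt_or_gt_of_ne h2 with h2 | h2 <;>
    rcases lt_or_gt_of_ne h3 with h3 | h3
  · exfalso; linarith
  · simp [h1, h2, h3.le, px, py, pz]
  · have h4 : ¬ b < c := by linarith
    have h5 : ¬ a < c := by linarith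
    simp [h1, h4, h5, h3, px, py, pz]
  · have h4 : ¬ b < c := by linarith
    have h5 : ¬ c < a := by linarith
    simp [h1, h4, h5, h3, px, py, pz]
  · have h4 : ¬ a < b := by linarith
    simp [h4, h2, h3, px, py, pz]
  · have h4 : ¬ a < b := by linarith
    have h5 : ¬ c < a := by linarith
    simp [h4, h2, h5, px, py, pz]
  · have h4 : ¬ a < b := by linarith
    have h5 : ¬ b < c := by linarith
    simp [h4, h3, h5, px, py, pz]
  · exfalso; linarith

theorem cmp_flip {a b : ℚ} {u v : ℤ} (h : a ≠ b) (h' : u ≠ v) (k : a < b ↔ u < v) :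
    b < a ↔ v < u := by
  constructor
  · intro hh
    exact lt_of_le_of_ne (not_lt.1 fun h2 => lt_asymm hh (k.2 h2)) h'.symm
  · intro hh
    exact lt_of_le_of_ne (not_lt.1 fun h2 => lt_asymm hh (k.1 h2)) h.symm

theorem ext_aux {n : ℕ} (p q : Fin n → O) (F A B C : O → ℤ) (s : ℤ)
    (he : ∀ o, 2 * F o = A o + s * (B o + C o - 1)) (hA : ∑ c, A (p c) = ∑ c, A (q c))
    (hB : ∑ c, B (p c) = ∑ c, B (q c)) (hC : ∑ c, C (p c) = ∑ c, C (q c)) :
    ∑ c, F (p c) = ∑ c, F (q c) := by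
  have h : ∀ r : Fin n → O, 2 * ∑ c, F (r c) =
      ∑ c, A (r c) + s * (∑ c, B (r c) + ∑ c, C (r c) - n) := by
    intro r
    rw [Finset.mul_sum, Finset.sum_congr rfl (fun c _ => he (r c)), Finset.sum_add_distrib,
      ← Finset.mul_sum, Finset.sum_sub_distrib, Finset.sum_add_distrib]
    simp
  have h1 := h p
  have h2 := h q
  rw [hA, hB, hC] at h1
  linarith

theorem extend {n : ℕ} (fx fy fz : Fin n → ℚ)
    (hne : ∀ c, fx c ≠ fy c ∧ fy c ≠ fz c ∧ fz c ≠ fx c) (Q : Multiset T4)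
    (hQ : Multiset.card Q = n) (h1 : ltc fx fy = sm (lt X Y) Q) (h2 : ltc fy fz = sm (lt Y Z) Q)
    (h3 : ltc fz fx = sm (lt Z X) Q) (h4 : mdc fz fx fy = sm (md Z X Y) Q)
    (h5 : mdc fx fy fz = sm (md X Y Z) Q) (h6 : mdc fy fz fx = sm (md Y Z X) Q) :
    ∃ fw : Fin n → ℚ, (∀ c, fw c ≠ fx c ∧ fw c ≠ fy c ∧ fw c ≠ fz c) ∧
      ltc fw fx = sm (lt W X) Q ∧ ltc fw fy = sm (lt W Y) Q ∧ ltc fw fz = sm (lt W Z) Q ∧
      (mdc fw fx fy = sm (md W X Y) Q ∧ mdc fx fy fw = sm (md X Y W) Q ∧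
        mdc fy fw fx = sm (md Y W X) Q) ∧
      (mdc fw fy fz = sm (md W Y Z) Q ∧ mdc fy fz fw = sm (md Y Z W) Q ∧
        mdc fz fw fy = sm (md Z W Y) Q) ∧
      (mdc fw fz fx = sm (md W Z X) Q ∧ mdc fz fx fw = sm (md Z X W) Q ∧
        mdc fx fw fz = sm (md X W Z) Q) := by
  obtain ⟨q, hq⟩ := exists_fun Q n hQ
  have hq' : ∀ f : T4 → ℤ, ∑ i, f (q i) = sm f Q := hq
  set p : Fin n → O := fun c => ord3 (fx c) (fy c) (fz c) with hp
  have hpc : ∀ c, (fx c < fy c ↔ px (p c) < py (p c)) ∧ (fy c < fz c ↔ py (p c) < pz (p c)) ∧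
      (fz c < fx c ↔ pz (p c) < px (p c)) := fun c =>
    ord3_xy (fx c) (fy c) (fz c) (hne c).1 (hne c).2.1 (hne c).2.2
  have nxy : ∀ o : O, px o ≠ py o := by decide
  have nyz : ∀ o : O, py o ≠ pz o := by decide
  have nzx : ∀ o : O, pz o ≠ px o := by decide
  have fxy : ∀ c, (fy c < fx c ↔ py (p c) < px (p c)) := fun c =>
    cmp_flip (hne c).1 (nxy _) (hpc c).1
  have fyz : ∀ c, (fz c < fy c ↔ pz (p c) < py (p c)) := fun c =>
    cmp_flip (hne c).2.1 (nyz _) (hpc c).2.1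
  have fzx : ∀ c, (fx c < fz c ↔ px (p c) < pz (p c)) := fun c =>
    cmp_flip (hne c).2.2 (nzx _) (hpc c).2.2
  -- the six sums
  let L1 : O → ℤ := fun o => if px o < py o then 1 else 0
  let L2 : O → ℤ := fun o => if py o < pz o then 1 else 0
  let L3 : O → ℤ := fun o => if pz o < px o then 1 else 0
  let M1 : O → ℤ := fun o => if (pz o < px o ∧ px o < py o) ∨ (py o < px o ∧ px o < pz o) then 1 else 0
  let M2 : O → ℤ := fun o => if (px o < py o ∧ py o < pz o) ∨ (pz o < py o ∧ py o < px o) then 1 else 0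
  let M3 : O → ℤ := fun o => if (py o < pz o ∧ pz o < px o) ∨ (px o < pz o ∧ pz o < py o) then 1 else 0
  let q1 : Fin n → O := fun c => (q c).1
  have eL1 : ∑ c, L1 (p c) = ∑ c, L1 (q1 c) := by
    have h := hq' (lt X Y)
    rw [← h1] at h
    refine Eq.trans ?_ h.symm
    unfold ltc
    refine Finset.sum_congr rfl (fun c _ => ?_)
    simp only [L1, (hpc c).1]
  have eL2 : ∑ c, L2 (p c) = ∑ c, L2 (q1 c) := by
    have h := hq' (lt Y Z)
    rw [← h2] at h
    refine Eq.trans ?_ h.symm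
    unfold ltc
    refine Finset.sum_congr rfl (fun c _ => ?_)
    simp only [L2, (hpc c).2.1]
  have eL3 : ∑ c, L3 (p c) = ∑ c, L3 (q1 c) := by
    have h := hq' (lt Z X)
    rw [← h3] at h
    refine Eq.trans ?_ h.symm
    unfold ltc
    refine Finset.sum_congr rfl (fun c _ => ?_)
    simp only [L3, (hpc c).2.2]
  have eM1 : ∑ c, M1 (p c) = ∑ c, M1 (q1 c) := by
    have h := hq' (md Z X Y)
    rw [← h4] at h
    refine Eq.trans ?_ h.symm
    unfold mdc
    refine Finset.sum_congr rfl (fun c _ => ?_)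
    simp only [M1, (hpc c).1, (hpc c).2.2, fxy c, fzx c]
  have eM2 : ∑ c, M2 (p c) = ∑ c, M2 (q1 c) := by
    have h := hq' (md X Y Z)
    rw [← h5] at h
    refine Eq.trans ?_ h.symm
    unfold mdc
    refine Finset.sum_congr rfl (fun c _ => ?_)
    simp only [M2, (hpc c).1, (hpc c).2.1, fxy c, fyz c]
  have eM3 : ∑ c, M3 (p c) = ∑ c, M3 (q1 c) := by
    have h := hq' (md Y Z X)
    rw [← h6] at h
    refine Eq.trans ?_ h.symm
    unfold mdc
    refine Finset.sum_congr rfl (fun c _ => ?_)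
    simp only [M3, (hpc c).2.1, (hpc c).2.2, fzx c, fyz c]
  have hfib : ∀ o, ∑ c, (fun o' : O => if o' = o then (1 : ℤ) else 0) (p c) =
      ∑ c, (fun o' : O => if o' = o then (1 : ℤ) else 0) (q1 c) := by
    intro o
    cases o
    · exact ext_aux p q1 (fun o' : O => if o' = O.xyz then (1 : ℤ) else 0) M2 L1 L2 1 (by decide) eM2 eL1 eL2
    · exact ext_aux p q1 (fun o' : O => if o' = O.yzx then (1 : ℤ) else 0) M3 L2 L3 1 (by decide) eM3 eL2 eL3
    · exact ext_aux p q1 (fun o' : O => if o' = O.zxy then (1 : ℤ) else 0) M1 L3 L1 1 (by decide) eM1 eL3 eL1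
    · exact ext_aux p q1 (fun o' : O => if o' = O.zyx then (1 : ℤ) else 0) M2 L1 L2 (-1) (by decide) eM2 eL1 eL2
    · exact ext_aux p q1 (fun o' : O => if o' = O.xzy then (1 : ℤ) else 0) M3 L2 L3 (-1) (by decide) eM3 eL2 eL3
    · exact ext_aux p q1 (fun o' : O => if o' = O.yxz then (1 : ℤ) else 0) M1 L3 L1 (-1) (by decide) eM1 eL3 eL1
  have hcard : ∀ o, (univ.filter (fun i => p i = o)).card = (univ.filter (fun i => q1 i = o)).card := by
    intro o
    have h := hfib o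
    simp only [Finset.sum_boole] at h
    exact_mod_cast h
  obtain ⟨e, he⟩ := perm_of_fibers p q1 hcard
  have hex : ∀ c, ∃ h : ℚ, h ≠ fx c ∧ h ≠ fy c ∧ h ≠ fz c ∧
      (h < fx c ↔ W (q (e c)) < X (q (e c))) ∧ (h < fy c ↔ W (q (e c)) < Y (q (e c))) ∧
      (h < fz c ↔ W (q (e c)) < Z (q (e c))) := by
    intro c
    have hpc' := hpc c
    rw [he c] at hpc'
    exact ext1 (q (e c)) (fx c) (fy c) (fz c) (hne c).1 (hne c).2.1 (hne c).2.2 hpc'.1 hpc'.2.1
      hpc'.2.2
  choose fw w1 w2 w3 w4 w5 w6 using hex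
  have hsum : ∀ f : T4 → ℤ, ∑ c, f (q (e c)) = sm f Q := by
    intro f
    rw [← hq' f]
    exact Equiv.sum_comp e (fun c => f (q c))
  have c1 : ∀ c, (fx c < fy c ↔ X (q (e c)) < Y (q (e c))) := by
    intro c
    have := (hpc c).1
    rw [he c] at this
    exact this
  have c2 : ∀ c, (fy c < fz c ↔ Y (q (e c)) < Z (q (e c))) := by
    intro c
    have := (hpc c).2.1
    rw [he c] at this
    exact this
  have c3 : ∀ c, (fz c < fx c ↔ Z (q (e c)) < X (q (e c))) := by
    intro c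
    have := (hpc c).2.2
    rw [he c] at this
    exact this
  have d1 : ∀ c, (fy c < fx c ↔ Y (q (e c)) < X (q (e c))) := fun c =>
    cmp_flip (hne c).1 (neXY _) (c1 c)
  have d2 : ∀ c, (fz c < fy c ↔ Z (q (e c)) < Y (q (e c))) := fun c =>
    cmp_flip (hne c).2.1 (neYZ _) (c2 c)
  have d3 : ∀ c, (fx c < fz c ↔ X (q (e c)) < Z (q (e c))) := fun c =>
    cmp_flip (hne c).2.2 (neZX _) (c3 c)
  have v4 : ∀ c, (fx c < fw c ↔ X (q (e c)) < W (q (e c))) := fun c =>
    cmp_flip (w1 c) (neWX _) (w4 c)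
  have v5 : ∀ c, (fy c < fw c ↔ Y (q (e c)) < W (q (e c))) := fun c =>
    cmp_flip (w2 c) (neWY _) (w5 c)
  have v6 : ∀ c, (fz c < fw c ↔ Z (q (e c)) < W (q (e c))) := fun c =>
    cmp_flip (w3 c) (neWZ _) (w6 c)
  refine ⟨fw, fun c => ⟨w1 c, w2 c, w3 c⟩, ?_, ?_, ?_, ⟨?_, ?_, ?_⟩, ⟨?_, ?_, ?_⟩,
    ⟨?_, ?_, ?_⟩⟩
  all_goals
    rw [← hsum]
    first | unfold ltc | unfold mdc
    refine Finset.sum_congr rfl (fun c _ => ?_)
    simp only [lt, md, w4 c, w5 c, w6 c, v4 c, v5 c, v6 c, c1 c, c2 c, c3 c, d1 c, d2 c, d3 c]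

end Pool.Agent.H29.W3
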