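import Pool.Agent.H29.W3.Defs

set_option autoImplicit false
set_option maxHeartbeats 1000000

namespace Pool.Agent.H29.W3

theorem face_le {g a b c t1 t2 t3 : ℤ} (h : Face g a b c t1 t2 t3) :
    0 ≤ t1 ∧ 0 ≤ t2 ∧ 0 ≤ t3 ∧
    t1 + t2 + t3 ≤ a ∧ t1 + t2 + t3 ≤ b ∧ t1 + t2 + t3 ≤ c ∧
    t1 + t2 + t3 ≤ g - a ∧ t1 + t2 + t3 ≤ g - b ∧ t1 + t2 + t3 ≤ g - c ∧
    t1 + t2 + t3 ≤ a + b + c - g ∧ t1 + t2 + t3 ≤ 2 * g - a - b - c := by
  obtain ⟨h1, h2, h3, h4⟩ := h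
  have k1 := le_abs_self (c + a - g)
  have k2 := neg_le_abs (c + a - g)
  have k3 := le_abs_self (a + b - g)
  have k4 := neg_le_abs (a + b - g)
  have k5 := le_abs_self (b + c - g)
  have k6 := neg_le_abs (b + c - g)
  refine ⟨h1, h2, h3, ?_, ?_, ?_, ?_, ?_, ?_, ?_, ?_⟩ <;> omega

theorem face_eq {g a b c t1 t2 t3 : ℤ} (h : Face g a b c t1 t2 t3) :
    t1 + t2 + t3 = a ∨ t1 + t2 + t3 = b ∨ t1 + t2 + t3 = c ∨
    t1 + t2 + t3 = g - a ∨ t1 + t2 + t3 = g - b ∨ t1 + t2 + t3 = g - c ∨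
    t1 + t2 + t3 = a + b + c - g ∨ t1 + t2 + t3 = 2 * g - a - b - c := by
  obtain ⟨h1, h2, h3, h4⟩ := h
  rcases abs_cases (c + a - g) with ⟨e1, f1⟩ | ⟨e1, f1⟩ <;>
  rcases abs_cases (a + b - g) with ⟨e2, f2⟩ | ⟨e2, f2⟩ <;>
  rcases abs_cases (b + c - g) with ⟨e3, f3⟩ | ⟨e3, f3⟩ <;>
  rw [e1, e2, e3] at h4
  · right; right; right; right; right; right; right; omega
  · right; right; right; left; omega
  · right; right; right; right; right; left; omega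
  · right; left; omega
  · right; right; right; right; left; omega
  · right; right; left; omega
  · left; omega
  · right; right; right; right; right; right; left; omega

theorem face_eq1 {g a b c t1 t2 t3 : ℤ} (h : Face g a b c t1 t2 t3) (hn : c + a - g ≤ 0) :
    t1 + t2 + t3 = g - b ∨ t1 + t2 + t3 = c ∨ t1 + t2 + t3 = a ∨
    t1 + t2 + t3 = a + b + c - g := by
  obtain ⟨h1, h2, h3, h4⟩ := h
  rw [abs_of_nonpos hn] at h4
  rcases abs_cases (a + b - g) with ⟨e2, f2⟩ | ⟨e2, f2⟩ <;>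
  rcases abs_cases (b + c - g) with ⟨e3, f3⟩ | ⟨e3, f3⟩ <;>
  rw [e2, e3] at h4
  · left; omega
  · right; left; omega
  · right; right; left; omega
  · right; right; right; omega

end Pool.Agent.H29.W3
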