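import Mathlib

/-!
[H29 W3 SHR] Shrinking a quasi-metric until opposite distances sum to `k` (MP_9f68ee_co).

PROOF. Strong induction on `∑ u, ∑ v, d u v`. If `d u v + d v u = k` for all `u ≠ v`, take `d' = d`.
Otherwise there are `u ≠ v` with `k < d u v + d v u`. Put `α = k - d v u` (natural number, `d v u ≤ k`,
`α < d u v`) and `d1 p q = min (d p q) (d p u + α + d v q)`. Then `d1 ≤ d`, `d1 u v ≤ α < d u v`, so the
sum is smaller. `d1 p p = 0`. Triangle inequality `d1 p r ≤ d1 p q + d1 q r`: four cases, e.g.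
`d p u + α + d v r ≤ d p q + (d q u + α + d v r)`, and for both new:
`(d p u + α + d v q) + (d q u + α + d v r) ≥ d p u + α + d v r`. Condition `k ≤ d1 p q + d1 q p` for `p ≠ q`:
old/old clear; `d p q + (d q u + α + d v p) ≥ α + d v u = k` because
`d v u ≤ d v p + d p q + d q u`; both new: `(d p u + α + d v q) + (d q u + α + d v p) ≥ 2 α + 2 d v u ≥ k`
because `d v u ≤ d v q + d q u` and `d v u ≤ d v p + d p u`. `d1 ≤ k` clear.
-/

set_option autoImplicit false

namespace Pool.Agent.H29.W3

theorem shrink {V : Type} [Fintype V] (k : ℕ) (d : V → V → ℕ) (h0 : ∀ u, d u u = 0)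
    (hT : ∀ u v w, d u w ≤ d u v + d v w) (hK : ∀ u v, u ≠ v → k ≤ d u v + d v u)
    (hle : ∀ u v, d u v ≤ k) :
    ∃ d' : V → V → ℕ, (∀ u v, d' u v ≤ d u v) ∧ (∀ u v w, d' u w ≤ d' u v + d' v w) ∧
      ∀ u v, u ≠ v → d' u v + d' v u = k := by
  obtain ⟨N, hN⟩ : ∃ N, ∑ u, ∑ v, d u v = N := ⟨_, rfl⟩
  induction N using Nat.strong_induction_on generalizing d with
  | _ N ih =>
    by_cases hall : ∀ u v, u ≠ v → d u v + d v u = k
    · exact ⟨d, fun u v => le_rfl, hT, hall⟩
    · push Not at hall
      obtain ⟨u, v, huv, hne⟩ := hall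
      have hlt : k < d u v + d v u := lt_of_le_of_ne (hK u v huv) (Ne.symm hne)
      obtain ⟨α, hα⟩ : ∃ α, α + d v u = k := ⟨k - d v u, Nat.sub_add_cancel (hle v u)⟩
      obtain ⟨d1, hd1⟩ : ∃ d1 : V → V → ℕ, ∀ p q, d1 p q = min (d p q) (d p u + α + d v q) :=
        ⟨_, fun _ _ => rfl⟩
      have hle1 : ∀ p q, d1 p q ≤ d p q := by
        intro p q
        rw [hd1]
        exact min_le_left _ _
      have huv1 : d1 u v < d u v := by
        have h1 := h0 u
        have h2 := h0 v
        rw [hd1]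
        omega
      have hsum : ∑ p, ∑ q, d1 p q < N := by
        rw [← hN]
        refine Finset.sum_lt_sum (fun p _ => Finset.sum_le_sum fun q _ => hle1 p q)
          ⟨u, Finset.mem_univ u, Finset.sum_lt_sum (fun q _ => hle1 u q)
            ⟨v, Finset.mem_univ v, huv1⟩⟩
      have h01 : ∀ p, d1 p p = 0 := by
        intro p
        have h1 := hle1 p p
        have h2 := h0 p
        omega
      have hT1 : ∀ p q r, d1 p r ≤ d1 p q + d1 q r := by
        intro p q r
        have h1 := hT p q r
        have h2 := hT p q u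
        have h3 := hT v q r
        rw [hd1 p r, hd1 p q, hd1 q r]
        omega
      have hK1 : ∀ p q, p ≠ q → k ≤ d1 p q + d1 q p := by
        intro p q hpq
        have h1 := hK p q hpq
        have h2 := hT v p u
        have h3 := hT v q u
        have h4 := hT p q u
        have h5 := hT q p u
        rw [hd1 p q, hd1 q p]
        omega
      have hlek : ∀ p q, d1 p q ≤ k := fun p q => (hle1 p q).trans (hle p q)
      obtain ⟨d', h1, h2, h3⟩ := ih _ hsum d1 h01 hT1 hK1 hlek rfl
      exact ⟨d', fun p q => (h1 p q).trans (hle1 p q), h2, h3⟩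

end Pool.Agent.H29.W3
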