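import Pool.Agent.H29.W3.Ind
import Pool.Agent.H29.W3.Dist
import Pool.Agent.H29.W3.Shrink

/-!
Woodall's conjecture (Edmonds-Giles form) for planar 3-trees.
-/

set_option autoImplicit false
set_option maxHeartbeats 4000000

namespace Pool.Agent.H29.W3

open Finset

theorem final (V A : Type) [Fintype V] [Fintype A] [DecidableEq A] (tl hd : A → V) (G : SimpleGraph V)
    (hG : IsPlanarThreeTree G) (hA : ∀ a, tl a ≠ hd a → G.Adj (tl a) (hd a)) (l : A → ℕ) (k : ℕ)
    (hk : ∀ (n : ℕ) (c : Fin (n + 1) → A), (∀ i, hd (c i) = tl (c (i + 1))) →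
      Function.Injective (fun i => tl (c i)) → k ≤ ∑ i, l (c i)) :
    ∃ T : Fin k → Finset A, (∀ a, (univ.filter (fun i => a ∈ T i)).card ≤ l a) ∧
      ∀ i, ∀ (n : ℕ) (c : Fin (n + 1) → A), (∀ j, hd (c j) = tl (c (j + 1))) →
        Function.Injective (fun j => tl (c j)) → ∃ j, c j ∈ T i := by
  classical
  obtain ⟨d, d0, dT, dK, dle, dA⟩ := dist_exists tl hd l k hk
  obtain ⟨d', e1, e2, e3⟩ := shrink k d d0 dT dK dle
  obtain ⟨F, hF⟩ := hG
  let a : V → V → ℤ := fun u v => (d' v u : ℤ)
  have ha : ∀ u v, u ≠ v → a u v + a v u = k := fun u v huv => by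
    have := e3 v u huv.symm
    simp only [a]; exact_mod_cast this
  have ha0 : ∀ u v, 0 ≤ a u v := fun u v => by simp only [a]; positivity
  have ha3 : ∀ u v w, u ≠ v → v ≠ w → w ≠ u → (k : ℤ) ≤ a u v + a v w + a w u := by
    intro u v w _ _ hwu
    have h1 := e2 w v u
    have h2 := e3 w u hwu
    simp only [a]
    have : k ≤ d' v u + d' w v + d' u w := by omega
    exact_mod_cast this
  have hs : ∀ x y z, (x, y, z) ∈ F → ∃ s : ℤ, Face k (a x y) (a y z) (a z x) s 0 0 := by
    intro x y z hxyz
    obtain ⟨-, ⟨hxy, hyz, hzx⟩, -⟩ := stacked_face hF x y z hxyz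
    have c1 := ha3 x y z hxy hyz hzx
    have c2 := ha3 x z y hzx.symm hyz.symm hxy.symm
    have d1 := ha0 x y
    have d2 := ha0 y z
    have d3 := ha0 z x
    have d4 := ha0 y x
    have d5 := ha0 z y
    have d6 := ha0 x z
    have i1 := ha x y hxy
    have i2 := ha y z hyz
    have i3 := ha z x hzx
    exact exists_face d1 d2 d3 (by linarith) (by linarith) (by linarith) c1 (by linarith)
  choose s hs using hs
  obtain ⟨f, hf, -⟩ := inv k a ha ha0 ha3 hF
    (fun t => if h : (t.1, t.2.1, t.2.2) ∈ F then (s t.1 t.2.1 t.2.2 h, 0, 0) else (0, 0, 0)) (by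
      intro x y z hxyz
      simp only [hxyz, dif_pos]
      exact hs x y z hxyz)
  refine ⟨fun i => univ.filter (fun b => f (hd b) i ≤ f (tl b) i), ?_, ?_⟩
  · intro b
    by_cases hb : tl b = hd b
    · have h1 : k ≤ l b := by
        have := hk 0 (fun _ => b) (fun i => by simp [hb]) (fun i j _ => by omega)
        simpa using this
      calc _ ≤ (univ : Finset (Fin k)).card := card_filter_le _ _
        _ = k := by simp
        _ ≤ l b := h1
    · obtain ⟨hne, hl⟩ := hf _ _ (hA b hb)
      have h2 := ltc_compl (f (tl b)) (f (hd b)) hne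
      have h3 : ltc (f (hd b)) (f (tl b)) =
          ((univ.filter (fun i => f (hd b) i ≤ f (tl b) i)).card : ℤ) := by
        rw [ltc, card_filter]
        push_cast
        refine sum_congr rfl fun i _ => ?_
        have := hne i
        by_cases h : f (hd b) i < f (tl b) i
        · simp [h, h.le]
        · have : ¬ f (hd b) i ≤ f (tl b) i := fun h' => h (lt_of_le_of_ne h' this.symm)
          simp [h, this]
      have h4 : ltc (f (hd b)) (f (tl b)) = (d' (tl b) (hd b) : ℤ) := by
        have := ha (tl b) (hd b) hb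
        have h5 : a (hd b) (tl b) = (d' (tl b) (hd b) : ℤ) := rfl
        linarith
      have h5 : (univ.filter (fun i => f (hd b) i ≤ f (tl b) i)).card = d' (tl b) (hd b) := by
        exact_mod_cast h3.symm.trans h4
      calc (univ.filter (fun i => b ∈ univ.filter (fun b => f (hd b) i ≤ f (tl b) i))).card
          = (univ.filter (fun i => f (hd b) i ≤ f (tl b) i)).card := by simp
        _ = d' (tl b) (hd b) := h5
        _ ≤ d (tl b) (hd b) := e1 _ _
        _ ≤ l b := dA b hb
  · intro i n c hc _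
    obtain ⟨j, hj⟩ := fas_of_potential tl hd (fun v => f v i) n c hc
    exact ⟨j, by simpa using hj⟩

end Pool.Agent.H29.W3
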