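import Pool.Agent.H29.W3.PTree

/-!
Planar 3-trees: corners and edges.
-/

set_option autoImplicit false

namespace Pool.Agent.H29.W3

theorem stacked_face {V : Type} {S : Set V} {E : V → V → Prop} {F : Set (V × V × V)}
    (h : Stacked S E F) : ∀ x y z, (x, y, z) ∈ F →
      (x ∈ S ∧ y ∈ S ∧ z ∈ S) ∧ (x ≠ y ∧ y ≠ z ∧ z ≠ x) ∧ (E x y ∧ E y z ∧ E z x) := by
  induction h with
  | tri x y z hxy hyz hzx =>
    intro a b c habc
    simp only [Set.mem_insert_iff, Set.mem_singleton_iff, Prod.mk.injEq] at habc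
    rcases habc with ⟨rfl, rfl, rfl⟩ | ⟨rfl, rfl, rfl⟩
    · simp [hxy, hyz, hzx]
    · simp [hxy.symm, hyz.symm, hzx.symm]
  | stack S E F x y z w h hf hw ih =>
    intro a b c habc
    obtain ⟨⟨h1, h2, h3⟩, ⟨h4, h5, h6⟩, h7, h8, h9⟩ := ih x y z hf
    have hx : w ≠ x := fun e => hw (e ▸ h1)
    have hy : w ≠ y := fun e => hw (e ▸ h2)
    have hz : w ≠ z := fun e => hw (e ▸ h3)
    simp only [Set.mem_union, Set.mem_sdiff, Set.mem_insert_iff, Set.mem_singleton_iff,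
      Prod.mk.injEq] at habc
    rcases habc with ⟨hF, -⟩ | ⟨rfl, rfl, rfl⟩ | ⟨rfl, rfl, rfl⟩ | ⟨rfl, rfl, rfl⟩
    · obtain ⟨⟨g1, g2, g3⟩, g4, g5, g6, g7⟩ := ih a b c hF
      exact ⟨⟨Or.inr g1, Or.inr g2, Or.inr g3⟩, g4, Or.inl g5, Or.inl g6, Or.inl g7⟩
    · exact ⟨⟨Or.inr h1, Or.inr h2, Or.inl rfl⟩, ⟨h4, hy.symm, hx⟩, Or.inl h7, by tauto, by tauto⟩
    · exact ⟨⟨Or.inr h2, Or.inr h3, Or.inl rfl⟩, ⟨h5, hz.symm, hy⟩, Or.inl h8, by tauto, by tauto⟩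
    · exact ⟨⟨Or.inr h3, Or.inr h1, Or.inl rfl⟩, ⟨h6, hx.symm, hz⟩, Or.inl h9, by tauto, by tauto⟩

theorem stacked_edge {V : Type} {S : Set V} {E : V → V → Prop} {F : Set (V × V × V)}
    (h : Stacked S E F) : ∀ u v, E u v → u ∈ S ∧ v ∈ S ∧ u ≠ v ∧ E v u := by
  induction h with
  | tri x y z hxy hyz hzx =>
    intro u v ⟨h1, h2, h3⟩
    exact ⟨by simpa using h2, by simpa using h3, h1, h1.symm, h3, h2⟩
  | stack S E F x y z w h hf hw ih =>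
    intro u v huv
    obtain ⟨⟨h1, h2, h3⟩, -⟩ := stacked_face h x y z hf
    have hx : w ≠ x := fun e => hw (e ▸ h1)
    have hy : w ≠ y := fun e => hw (e ▸ h2)
    have hz : w ≠ z := fun e => hw (e ▸ h3)
    rcases huv with huv | ⟨rfl, huv⟩ | ⟨rfl, huv⟩
    · obtain ⟨g1, g2, g3, g4⟩ := ih u v huv
      exact ⟨Or.inr g1, Or.inr g2, g3, Or.inl g4⟩
    · rcases huv with rfl | rfl | rfl
      · exact ⟨Or.inl rfl, Or.inr h1, hx, by tauto⟩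
      · exact ⟨Or.inl rfl, Or.inr h2, hy, by tauto⟩
      · exact ⟨Or.inl rfl, Or.inr h3, hz, by tauto⟩
    · rcases huv with rfl | rfl | rfl
      · exact ⟨Or.inr h1, Or.inl rfl, hx.symm, by tauto⟩
      · exact ⟨Or.inr h2, Or.inl rfl, hy.symm, by tauto⟩
      · exact ⟨Or.inr h3, Or.inl rfl, hz.symm, by tauto⟩

end Pool.Agent.H29.W3
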