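import Pool.Agent.H29.W3.Closure
import Pool.Agent.H29.W3.Stack
import Pool.Agent.H29.W3.Base

/-!
Induction over the construction of a planar 3-tree.
-/

set_option autoImplicit false
set_option maxHeartbeats 4000000

namespace Pool.Agent.H29.W3

/-- bounds of a face for potentials -/
def BF {n : ℕ} (a b c t1 t2 t3 : ℤ) (u v w : Fin n → ℚ) : Prop :=
  mdc w u v ≤ |c + a - n| + 2 * (t2 + t3) ∧ mdc u v w ≤ |a + b - n| + 2 * (t3 + t1) ∧
    mdc v w u ≤ |b + c - n| + 2 * (t1 + t2)

theorem exists_face {g a b c : ℤ} (h1 : 0 ≤ a) (h2 : 0 ≤ b) (h3 : 0 ≤ c) (h4 : a ≤ g)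
    (h5 : b ≤ g) (h6 : c ≤ g) (h7 : g ≤ a + b + c) (h8 : a + b + c ≤ 2 * g) :
    ∃ s : ℤ, Face g a b c s 0 0 := by
  rcases abs_cases (c + a - g) with ⟨e1, f1⟩ | ⟨e1, f1⟩ <;>
  rcases abs_cases (a + b - g) with ⟨e2, f2⟩ | ⟨e2, f2⟩ <;>
  rcases abs_cases (b + c - g) with ⟨e3, f3⟩ | ⟨e3, f3⟩ <;>
  unfold Face <;> rw [e1, e2, e3]
  · exact ⟨2 * g - a - b - c, by omega⟩
  · exact ⟨g - a, by omega⟩
  · exact ⟨g - c, by omega⟩
  · exact ⟨b, by omega⟩
  · exact ⟨g - b, by omega⟩
  · exact ⟨c, by omega⟩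
  · exact ⟨a, by omega⟩
  · exact ⟨a + b + c - g, by omega⟩

theorem inv {V : Type} (k : ℕ) (a : V → V → ℤ) (ha : ∀ u v, u ≠ v → a u v + a v u = k)
    (ha0 : ∀ u v, 0 ≤ a u v)
    (ha3 : ∀ u v w, u ≠ v → v ≠ w → w ≠ u → (k : ℤ) ≤ a u v + a v w + a w u)
    {S : Set V} {E : V → V → Prop} {F : Set (V × V × V)} (h : Stacked S E F) :
    ∀ τ : V × V × V → ℤ × ℤ × ℤ,
      (∀ x y z, (x, y, z) ∈ F → Face k (a x y) (a y z) (a z x) (τ (x, y, z)).1
        (τ (x, y, z)).2.1 (τ (x, y, z)).2.2) →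
      ∃ f : V → Fin k → ℚ, (∀ u v, E u v → (∀ c, f u c ≠ f v c) ∧ ltc (f u) (f v) = a u v) ∧
        ∀ x y z, (x, y, z) ∈ F → BF (a x y) (a y z) (a z x) (τ (x, y, z)).1
          (τ (x, y, z)).2.1 (τ (x, y, z)).2.2 (f x) (f y) (f z) := by
  classical
  induction h with
  | tri x y z hxy hyz hzx =>
    intro τ hτ
    have h1 := hτ x y z (by simp)
    have h2 := hτ x z y (by simp)
    have e1 : a x z = k - a z x := by have := ha x z hzx.symm; linarith
    have e2 : a z y = k - a y z := by have := ha z y hyz.symm; linarith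
    have e3 : a y x = k - a x y := by have := ha y x hxy.symm; linarith
    have h2' : Face k (a x y) (a y z) (a z x) (τ (x, z, y)).1 (τ (x, z, y)).2.2
        (τ (x, z, y)).2.1 := by
      obtain ⟨f1, f2, f3, f4⟩ := h2
      refine ⟨f1, f3, f2, ?_⟩
      rw [e1, e2, e3] at f4
      have g1 : |(k : ℤ) - a x y + (k - a z x) - k| = |a z x + a x y - k| := by
        rw [← abs_neg]; congr 1; ring
      have g2 : |(k : ℤ) - a z x + (k - a y z) - k| = |a y z + a z x - k| := by
        rw [← abs_neg]; congr 1; ring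
      have g3 : |(k : ℤ) - a y z + (k - a x y) - k| = |a x y + a y z - k| := by
        rw [← abs_neg]; congr 1; ring
      rw [g1, g2, g3] at f4
      linarith
    obtain ⟨fx, fy, fz, hne, l1, l2, l3, ⟨m1, m2, m3⟩, n1, n2, n3⟩ := base h1 h2'
    let f : V → Fin k → ℚ := fun u => if u = x then fx else if u = y then fy else fz
    have hfx : f x = fx := by simp [f]
    have hfy : f y = fy := by simp [f, hxy.symm]
    have hfz : f z = fz := by simp [f, hzx, hyz.symm]
    refine ⟨f, ?_, ?_⟩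
    · rintro u v ⟨huv, hu, hv⟩
      rcases hu with rfl | rfl | rfl <;> rcases hv with rfl | rfl | rfl
      · exact absurd rfl huv
      · rw [hfx, hfy]; exact ⟨fun c => (hne c).1, l1⟩
      · rw [hfx, hfz]
        refine ⟨fun c => (hne c).2.2.symm, ?_⟩
        have := ltc_compl fx fz (fun i => (hne i).2.2.symm); rw [e1]; linarith
      · rw [hfx, hfy]
        refine ⟨fun c => (hne c).1.symm, ?_⟩
        have := ltc_compl fx fy (fun i => (hne i).1); rw [e3]; linarith
      · exact absurd rfl huv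
      · rw [hfy, hfz]; exact ⟨fun c => (hne c).2.1, l2⟩
      · rw [hfx, hfz]; exact ⟨fun c => (hne c).2.2, l3⟩
      · rw [hfy, hfz]
        refine ⟨fun c => (hne c).2.1.symm, ?_⟩
        have := ltc_compl fy fz (fun i => (hne i).2.1); rw [e2]; linarith
      · exact absurd rfl huv
    · intro p q r hpqr
      simp only [Set.mem_insert_iff, Set.mem_singleton_iff, Prod.mk.injEq] at hpqr
      rcases hpqr with ⟨rfl, rfl, rfl⟩ | ⟨rfl, rfl, rfl⟩
      · rw [hfx, hfy, hfz]; exact ⟨m1, m2, m3⟩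
      · rw [hfx, hfy, hfz, e1, e2, e3]
        have g1 : |(k : ℤ) - a p r + (k - a q p) - k| = |a q p + a p r - k| := by
          rw [← abs_neg]; congr 1; ring
        have g2 : |(k : ℤ) - a q p + (k - a r q) - k| = |a r q + a q p - k| := by
          rw [← abs_neg]; congr 1; ring
        have g3 : |(k : ℤ) - a r q + (k - a p r) - k| = |a p r + a r q - k| := by
          rw [← abs_neg]; congr 1; ring
        refine ⟨?_, ?_, ?_⟩
        · rw [mdc_comm, g1]; linarith
        · rw [mdc_comm, g2]; linarith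
        · rw [mdc_comm, g3]; linarith
  | stack S E F x y z w h hf hw ih =>
    intro τ hτ
    obtain ⟨⟨hx, hy, hz⟩, ⟨hxy, hyz, hzx⟩, exy, eyz, ezx⟩ := stacked_face h x y z hf
    have wx : w ≠ x := fun e => hw (e ▸ hx)
    have wy : w ≠ y := fun e => hw (e ▸ hy)
    have wz : w ≠ z := fun e => hw (e ▸ hz)
    have t1 := hτ x y w (by simp)
    have t2 := hτ y z w (by simp)
    have t3 := hτ z x w (by simp)
    have ayw : a y w = k - a w y := by have := ha y w wy.symm; linarith
    have azw : a z w = k - a w z := by have := ha z w wz.symm; linarith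
    have axw : a x w = k - a w x := by have := ha x w wx.symm; linarith
    have ayx : a y x = k - a x y := by have := ha y x hxy.symm; linarith
    have azy : a z y = k - a y z := by have := ha z y hyz.symm; linarith
    have axz : a x z = k - a z x := by have := ha x z hzx.symm; linarith
    rw [ayw] at t1
    rw [azw] at t2
    rw [axw] at t3
    obtain ⟨s, hs⟩ : ∃ s : ℤ, Face k (a x y) (a y z) (a z x) s 0 0 := by
      have c1 := ha3 x y z hxy hyz hzx
      have c2 := ha3 x z y hzx.symm hyz.symm hxy.symm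
      have d1 := ha0 x y
      have d2 := ha0 y z
      have d3 := ha0 z x
      have d4 := ha0 y x
      have d5 := ha0 z y
      have d6 := ha0 x z
      rw [axz, azy, ayx] at c2
      rw [ayx] at d4
      rw [azy] at d5
      rw [axz] at d6
      exact exists_face d1 d2 d3 (by linarith) (by linarith) (by linarith) c1 (by linarith)
    obtain ⟨sx, sy, sz, hF, hQ⟩ := closure k _ _ _ _ _ _ _ _ _ _ _ _ _ _ _
      ⟨t1, t2, t3, s, 0, 0, hs⟩
    obtain ⟨f, hfE, hfF⟩ := ih (fun t => if t = (x, y, z) then (sx, sy, sz) else τ t) (by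
      intro p q r hpqr
      by_cases he : (p, q, r) = (x, y, z)
      · simp only [he, if_true]
        obtain ⟨rfl, rfl, rfl⟩ : p = x ∧ q = y ∧ r = z := by simpa using he
        exact hF
      · simp only [he, if_false]
        exact hτ p q r (Or.inl ⟨hpqr, he⟩))
    have hb := hfF x y z hf
    simp only [if_true] at hb
    obtain ⟨nxy, lxy⟩ := hfE x y exy
    obtain ⟨nyz, lyz⟩ := hfE y z eyz
    obtain ⟨nzx, lzx⟩ := hfE z x ezx
    obtain ⟨q1, q, hq0, hq⟩ := mdc_eq (f x) (f y) (f z) (fun i => ⟨nxy i, nyz i, nzx i⟩)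
    obtain ⟨-, r, hr0, hr⟩ := mdc_eq (f y) (f z) (f x) (fun i => ⟨nyz i, nzx i, nxy i⟩)
    obtain ⟨-, p, hp0, hp⟩ := mdc_eq (f z) (f x) (f y) (fun i => ⟨nzx i, nxy i, nyz i⟩)
    rw [lxy, lyz] at hq
    rw [lyz, lzx] at hr
    rw [lzx, lxy] at hp
    obtain ⟨b1, b2, b3⟩ := hb
    obtain ⟨g1, g2, g3, g4⟩ := hF
    obtain ⟨Q, ⟨m0, m1, m2, m3, m4, m5, m6, m7, m8, m9⟩, d1, d2, d3⟩ := hQ p q r hp0 hq0 hr0
      (by linarith) (by linarith) (by linarith) (by linarith)
    obtain ⟨fw, hne, l1, l2, l3, ⟨u1, u2, u3⟩, ⟨v1, v2, v3⟩, w1, w2, w3⟩ :=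
      extend (f x) (f y) (f z) (fun i => ⟨nxy i, nyz i, nzx i⟩) Q (by exact_mod_cast m0)
        (by rw [lxy, m1]) (by rw [lyz, m2]) (by rw [lzx, m3]) (by rw [hp, m7]) (by rw [hq, m8])
        (by rw [hr, m9])
    have cwx := ltc_compl fw (f x) (fun i => (hne i).1)
    have cwy := ltc_compl fw (f y) (fun i => (hne i).2.1)
    have cwz := ltc_compl fw (f z) (fun i => (hne i).2.2)
    let f' : V → Fin k → ℚ := Function.update f w fw
    have fS : ∀ u, u ∈ S → f' u = f u := fun u hu =>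
      Function.update_of_ne (by rintro rfl; exact hw hu) _ _
    have fW : f' w = fw := Function.update_self _ _ _
    refine ⟨f', ?_, ?_⟩
    · rintro u v (huv | ⟨rfl, hv⟩ | ⟨rfl, hu⟩)
      · obtain ⟨hu, hv, -⟩ := stacked_edge h u v huv
        rw [fS u hu, fS v hv]; exact hfE u v huv
      · rcases hv with rfl | rfl | rfl
        · rw [fW, fS _ hx]; exact ⟨fun c => (hne c).1, by rw [l1, m4]⟩
        · rw [fW, fS _ hy]; exact ⟨fun c => (hne c).2.1, by rw [l2, m5]⟩
        · rw [fW, fS _ hz]; exact ⟨fun c => (hne c).2.2, by rw [l3, m6]⟩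
      · rcases hu with rfl | rfl | rfl
        · rw [fW, fS _ hx]
          exact ⟨fun c => (hne c).1.symm, by rw [axw]; rw [l1, m4] at cwx; linarith⟩
        · rw [fW, fS _ hy]
          exact ⟨fun c => (hne c).2.1.symm, by rw [ayw]; rw [l2, m5] at cwy; linarith⟩
        · rw [fW, fS _ hz]
          exact ⟨fun c => (hne c).2.2.symm, by rw [azw]; rw [l3, m6] at cwz; linarith⟩
    · intro p' q' r' hpqr
      rcases hpqr with ⟨hpqr, hne'⟩ | hpqr
      · obtain ⟨⟨i1, i2, i3⟩, -⟩ := stacked_face h p' q' r' hpqr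
        have := hfF p' q' r' hpqr
        have he : (p', q', r') ≠ (x, y, z) := hne'
        simp only [he, if_false] at this
        rw [fS _ i1, fS _ i2, fS _ i3]; exact this
      · simp only [Set.mem_insert_iff, Set.mem_singleton_iff, Prod.mk.injEq] at hpqr
        rcases hpqr with ⟨rfl, rfl, rfl⟩ | ⟨rfl, rfl, rfl⟩ | ⟨rfl, rfl, rfl⟩
        · rw [fW, fS _ hx, fS _ hy]
          obtain ⟨o1, o2, o3⟩ := d1
          unfold BF
          rw [u1, u2, u3, ayw]; exact ⟨o1, o2, o3⟩
        · rw [fW, fS _ hy, fS _ hz]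
          obtain ⟨o1, o2, o3⟩ := d2
          unfold BF
          rw [v1, v2, v3, azw]; exact ⟨o1, o2, o3⟩
        · rw [fW, fS _ hz, fS _ hx]
          obtain ⟨o1, o2, o3⟩ := d3
          unfold BF
          rw [w1, w2, w3, axw]; exact ⟨o1, o2, o3⟩

end Pool.Agent.H29.W3
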