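import Pool.Agent.H29.W3.Sym

/-!
The case `E_y > 0`: remove one order `x y z` with `w` in one of the four slots.
-/

set_option autoImplicit false
set_option maxHeartbeats 4000000

namespace Pool.Agent.H29.W3

/-- valid data -/
def VD (g axy ayz azx awx awy awz tzx tzy tzw txy txz txw tyz tyx tyw : ℤ) : Prop :=
  Face g axy (g - awy) awx tzx tzy tzw ∧ Face g ayz (g - awz) awy txy txz txw ∧
  Face g azx (g - awx) awz tyz tyx tyw ∧ ∃ s1 s2 s3 : ℤ, Face g axy ayz azx s1 s2 s3

theorem clo_pos {g axy ayz azx awx awy awz tzx tzy tzw txy txz txw tyz tyx tyw : ℤ}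
    (IH : ∀ bxy byz bzx bwx bwy bwz uzx uzy uzw uxy uxz uxw uyz uyx uyw : ℤ,
      VD (g - 1) bxy byz bzx bwx bwy bwz uzx uzy uzw uxy uxz uxw uyz uyx uyw →
      Clo (g - 1) bxy byz bzx bwx bwy bwz uzx uzy uzw uxy uxz uxw uyz uyx uyw)
    (hV : VD g axy ayz azx awx awy awz tzx tzy tzw txy txz txw tyz tyx tyw)
    (hE : 0 < axy + ayz - g) :
    Clo g axy ayz azx awx awy awz tzx tzy tzw txy txz txw tyz tyx tyw := by
  obtain ⟨hz, hx, hy, s1, s2, s3, ho⟩ := hV
  have hsd : SD g axy ayz azx awx awy awz tzx tzy tzw txy txz txw tyz tyx tyw := by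
    obtain ⟨k1, k2, k3, k4, k5, k6, k7, k8, k9, k10, k11⟩ := face_le ho
    exact ⟨hz, hx, hy, ⟨by linarith, by linarith, by linarith, by linarith, by linarith,
      by linarith, by linarith, by linarith⟩, hE⟩
  obtain ⟨v1, v2, v3, hvo, -⟩ := peel_pqr ho (Or.inl hE)
  have o1 : |azx + axy - g| = 0 + |azx + (axy - 1) - (g - 1)| := by
    rw [zero_add]; congr 1; ring
  have o2 : |axy + ayz - g| = 1 + |(axy - 1) + (ayz - 1) - (g - 1)| := by
    rw [abs_of_pos hE, abs_of_nonneg (by omega)]; ring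
  have o3 : |ayz + azx - g| = 0 + |(ayz - 1) + azx - (g - 1)| := by
    rw [zero_add]; congr 1; ring
  rcases slot hsd with ⟨c1, c2, c3⟩ | ⟨c1, c2, c3⟩ | ⟨c1, c2, c3⟩ | ⟨c1, c2, c3⟩
  · obtain ⟨u1, u2, u3, hu, du⟩ := peel_rpq hz (by omega)
    obtain ⟨r1, r2, r3, hr, dr⟩ := peel_rpq hx (by omega)
    obtain ⟨q1, q2, q3, hq, dq⟩ := peel_rqp hy (by omega)
    rw [show g - awy = g - 1 - (awy - 1) by ring] at hu
    rw [show g - awz = g - 1 - (awz - 1) by ring] at hr
    rw [show g - awx = g - 1 - (awx - 1) by ring] at hq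
    refine step1 (g' := g - 1) (O.xyz, 0) (by ring) ?_ ?_ ?_ ?_ ?_ ?_ ?_ ?_ ?_ ?_ ?_ ?_
      (IH (axy - 1) (ayz - 1) azx (awx - 1) (awy - 1) (awz - 1) u1 u2 u3 r1 r2 r3 q1 q2 q3
        ⟨hu, hr, hq, v1, v2, v3, hvo⟩)
    · rw [show lt X Y (O.xyz, 0) = 1 by decide]; ring
    · rw [show lt Y Z (O.xyz, 0) = 1 by decide]; ring
    · rw [show lt Z X (O.xyz, 0) = 0 by decide]; ring
    · rw [show lt W X (O.xyz, 0) = 1 by decide]; ring
    · rw [show lt W Y (O.xyz, 0) = 1 by decide]; ring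
    · rw [show lt W Z (O.xyz, 0) = 1 by decide]; ring
    · rw [show md Z X Y (O.xyz, 0) = 0 by decide]; exact o1
    · rw [show md X Y Z (O.xyz, 0) = 1 by decide]; exact o2
    · rw [show md Y Z X (O.xyz, 0) = 0 by decide]; exact o3
    · rw [show md W X Y (O.xyz, 0) = 1 by decide, show md X Y W (O.xyz, 0) = 0 by decide,
        show md Y W X (O.xyz, 0) = 0 by decide]
      rw [show g - 1 - (awy - 1) = g - awy by ring]
      exact du
    · rw [show md W Y Z (O.xyz, 0) = 1 by decide, show md Y Z W (O.xyz, 0) = 0 by decide,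
        show md Z W Y (O.xyz, 0) = 0 by decide]
      rw [show g - 1 - (awz - 1) = g - awz by ring]
      exact dr
    · rw [show md W Z X (O.xyz, 0) = 0 by decide, show md Z X W (O.xyz, 0) = 1 by decide,
        show md X W Z (O.xyz, 0) = 0 by decide]
      rw [show g - 1 - (awx - 1) = g - awx by ring]
      exact dq
  · obtain ⟨u1, u2, u3, hu, du⟩ := peel_prq hz (by omega)
    obtain ⟨r1, r2, r3, hr, dr⟩ := peel_rpq hx (by omega)
    obtain ⟨q1, q2, q3, hq, dq⟩ := peel_qrp hy (by omega)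
    rw [show g - awy = g - 1 - (awy - 1) by ring] at hu
    rw [show g - awz = g - 1 - (awz - 1) by ring] at hr
    rw [show g - awx - 1 = g - 1 - (awx) by ring] at hq
    refine step1 (g' := g - 1) (O.xyz, 1) (by ring) ?_ ?_ ?_ ?_ ?_ ?_ ?_ ?_ ?_ ?_ ?_ ?_
      (IH (axy - 1) (ayz - 1) azx (awx) (awy - 1) (awz - 1) u1 u2 u3 r1 r2 r3 q1 q2 q3
        ⟨hu, hr, hq, v1, v2, v3, hvo⟩)
    · rw [show lt X Y (O.xyz, 1) = 1 by decide]; ring
    · rw [show lt Y Z (O.xyz, 1) = 1 by decide]; ring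
    · rw [show lt Z X (O.xyz, 1) = 0 by decide]; ring
    · rw [show lt W X (O.xyz, 1) = 0 by decide]; ring
    · rw [show lt W Y (O.xyz, 1) = 1 by decide]; ring
    · rw [show lt W Z (O.xyz, 1) = 1 by decide]; ring
    · rw [show md Z X Y (O.xyz, 1) = 0 by decide]; exact o1
    · rw [show md X Y Z (O.xyz, 1) = 1 by decide]; exact o2
    · rw [show md Y Z X (O.xyz, 1) = 0 by decide]; exact o3
    · rw [show md W X Y (O.xyz, 1) = 0 by decide, show md X Y W (O.xyz, 1) = 0 by decide,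
        show md Y W X (O.xyz, 1) = 1 by decide]
      rw [show g - 1 - (awy - 1) = g - awy by ring]
      exact du
    · rw [show md W Y Z (O.xyz, 1) = 1 by decide, show md Y Z W (O.xyz, 1) = 0 by decide,
        show md Z W Y (O.xyz, 1) = 0 by decide]
      rw [show g - 1 - (awz - 1) = g - awz by ring]
      exact dr
    · rw [show md W Z X (O.xyz, 1) = 0 by decide, show md Z X W (O.xyz, 1) = 0 by decide,
        show md X W Z (O.xyz, 1) = 1 by decide]
      rw [show g - 1 - (awx) = g - awx - 1 by ring]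
      exact dq
  · obtain ⟨u1, u2, u3, hu, du⟩ := peel_pqr hz (by omega)
    obtain ⟨r1, r2, r3, hr, dr⟩ := peel_prq hx (by omega)
    obtain ⟨q1, q2, q3, hq, dq⟩ := peel_qrp hy (by omega)
    rw [show g - awy - 1 = g - 1 - (awy) by ring] at hu
    rw [show g - awz = g - 1 - (awz - 1) by ring] at hr
    rw [show g - awx - 1 = g - 1 - (awx) by ring] at hq
    refine step1 (g' := g - 1) (O.xyz, 2) (by ring) ?_ ?_ ?_ ?_ ?_ ?_ ?_ ?_ ?_ ?_ ?_ ?_
      (IH (axy - 1) (ayz - 1) azx (awx) (awy) (awz - 1) u1 u2 u3 r1 r2 r3 q1 q2 q3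
        ⟨hu, hr, hq, v1, v2, v3, hvo⟩)
    · rw [show lt X Y (O.xyz, 2) = 1 by decide]; ring
    · rw [show lt Y Z (O.xyz, 2) = 1 by decide]; ring
    · rw [show lt Z X (O.xyz, 2) = 0 by decide]; ring
    · rw [show lt W X (O.xyz, 2) = 0 by decide]; ring
    · rw [show lt W Y (O.xyz, 2) = 0 by decide]; ring
    · rw [show lt W Z (O.xyz, 2) = 1 by decide]; ring
    · rw [show md Z X Y (O.xyz, 2) = 0 by decide]; exact o1
    · rw [show md X Y Z (O.xyz, 2) = 1 by decide]; exact o2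
    · rw [show md Y Z X (O.xyz, 2) = 0 by decide]; exact o3
    · rw [show md W X Y (O.xyz, 2) = 0 by decide, show md X Y W (O.xyz, 2) = 1 by decide,
        show md Y W X (O.xyz, 2) = 0 by decide]
      rw [show g - 1 - (awy) = g - awy - 1 by ring]
      exact du
    · rw [show md W Y Z (O.xyz, 2) = 0 by decide, show md Y Z W (O.xyz, 2) = 0 by decide,
        show md Z W Y (O.xyz, 2) = 1 by decide]
      rw [show g - 1 - (awz - 1) = g - awz by ring]
      exact dr
    · rw [show md W Z X (O.xyz, 2) = 0 by decide, show md Z X W (O.xyz, 2) = 0 by decide,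
        show md X W Z (O.xyz, 2) = 1 by decide]
      rw [show g - 1 - (awx) = g - awx - 1 by ring]
      exact dq
  · obtain ⟨u1, u2, u3, hu, du⟩ := peel_pqr hz (by omega)
    obtain ⟨r1, r2, r3, hr, dr⟩ := peel_pqr hx (by omega)
    obtain ⟨q1, q2, q3, hq, dq⟩ := peel_qpr hy (by omega)
    rw [show g - awy - 1 = g - 1 - (awy) by ring] at hu
    rw [show g - awz - 1 = g - 1 - (awz) by ring] at hr
    rw [show g - awx - 1 = g - 1 - (awx) by ring] at hq
    refine step1 (g' := g - 1) (O.xyz, 3) (by ring) ?_ ?_ ?_ ?_ ?_ ?_ ?_ ?_ ?_ ?_ ?_ ?_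
      (IH (axy - 1) (ayz - 1) azx (awx) (awy) (awz) u1 u2 u3 r1 r2 r3 q1 q2 q3
        ⟨hu, hr, hq, v1, v2, v3, hvo⟩)
    · rw [show lt X Y (O.xyz, 3) = 1 by decide]; ring
    · rw [show lt Y Z (O.xyz, 3) = 1 by decide]; ring
    · rw [show lt Z X (O.xyz, 3) = 0 by decide]; ring
    · rw [show lt W X (O.xyz, 3) = 0 by decide]; ring
    · rw [show lt W Y (O.xyz, 3) = 0 by decide]; ring
    · rw [show lt W Z (O.xyz, 3) = 0 by decide]; ring
    · rw [show md Z X Y (O.xyz, 3) = 0 by decide]; exact o1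
    · rw [show md X Y Z (O.xyz, 3) = 1 by decide]; exact o2
    · rw [show md Y Z X (O.xyz, 3) = 0 by decide]; exact o3
    · rw [show md W X Y (O.xyz, 3) = 0 by decide, show md X Y W (O.xyz, 3) = 1 by decide,
        show md Y W X (O.xyz, 3) = 0 by decide]
      rw [show g - 1 - (awy) = g - awy - 1 by ring]
      exact du
    · rw [show md W Y Z (O.xyz, 3) = 0 by decide, show md Y Z W (O.xyz, 3) = 1 by decide,
        show md Z W Y (O.xyz, 3) = 0 by decide]
      rw [show g - 1 - (awz) = g - awz - 1 by ring]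
      exact dr
    · rw [show md W Z X (O.xyz, 3) = 1 by decide, show md Z X W (O.xyz, 3) = 0 by decide,
        show md X W Z (O.xyz, 3) = 0 by decide]
      rw [show g - 1 - (awx) = g - awx - 1 by ring]
      exact dq

end Pool.Agent.H29.W3
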