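import Mathlib

/-!
Planar 3-trees (stacked triangulations, Apollonian networks): definitions.
-/

set_option autoImplicit false

namespace Pool.Agent.H29.W3

/-- `Stacked S E F`: the graph with vertex set `S` and adjacency `E` is drawn on the sphere such
that all its faces are triangles, and `F` is the set of its faces, each one given by its three
corners. It is obtained from a triangle (with its two sides as faces) by repeatedly putting a new
vertex `w` into a face `x y z` and joining it to the three corners; the face is replaced by the
three new ones. -/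
inductive Stacked {V : Type} : Set V → (V → V → Prop) → Set (V × V × V) → Prop
  | tri (x y z : V) (hxy : x ≠ y) (hyz : y ≠ z) (hzx : z ≠ x) :
      Stacked {x, y, z}
        (fun u v => u ≠ v ∧ (u = x ∨ u = y ∨ u = z) ∧ (v = x ∨ v = y ∨ v = z))
        {(x, y, z), (x, z, y)}
  | stack (S : Set V) (E : V → V → Prop) (F : Set (V × V × V)) (x y z w : V)
      (h : Stacked S E F) (hf : (x, y, z) ∈ F) (hw : w ∉ S) :
      Stacked (insert w S)
        (fun u v => E u v ∨ (u = w ∧ (v = x ∨ v = y ∨ v = z)) ∨
          (v = w ∧ (u = x ∨ u = y ∨ u = z)))
        ((F \ {(x, y, z)}) ∪ {(x, y, w), (y, z, w), (z, x, w)})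

/-- `G` is a planar 3-tree with vertex set `V`. -/
def IsPlanarThreeTree {V : Type} (G : SimpleGraph V) : Prop :=
  ∃ F : Set (V × V × V), Stacked Set.univ G.Adj F

end Pool.Agent.H29.W3
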