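import Pool.Agent.H29.W3.Clo

/-!
Removing one order from a face: the six types of orders on `p q r`.
-/

set_option autoImplicit false
set_option maxHeartbeats 4000000

namespace Pool.Agent.H29.W3

/-- rotation of a face -/
theorem Face.rot {g a b c t1 t2 t3 : ℤ} (h : Face g a b c t1 t2 t3) : Face g b c a t2 t3 t1 := by
  obtain ⟨h1, h2, h3, h4⟩ := h
  refine ⟨h2, h3, h1, ?_⟩
  linarith

/-- reversing all orders -/
theorem Face.rev {g a b c t1 t2 t3 : ℤ} (h : Face g a b c t1 t2 t3) :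
    Face g (g - a) (g - b) (g - c) t1 t2 t3 := by
  obtain ⟨h1, h2, h3, h4⟩ := h
  refine ⟨h1, h2, h3, ?_⟩
  have e1 : |g - c + (g - a) - g| = |c + a - g| := by
    rw [← abs_neg]; congr 1; ring
  have e2 : |g - a + (g - b) - g| = |a + b - g| := by
    rw [← abs_neg]; congr 1; ring
  have e3 : |g - b + (g - c) - g| = |b + c - g| := by
    rw [← abs_neg]; congr 1; ring
  rw [e1, e2, e3]; exact h4

/-- remove an order `p q r` -/
theorem peel_pqr {g a b c t1 t2 t3 : ℤ} (h : Face g a b c t1 t2 t3)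
    (hd : 0 < a + b - g ∨ 1 ≤ t1 + t3) : ∃ u1 u2 u3 : ℤ,
      Face (g - 1) (a - 1) (b - 1) c u1 u2 u3 ∧
      Dr g a b c t1 t2 t3 (g - 1) (a - 1) (b - 1) c u1 u2 u3 0 1 0 := by
  obtain ⟨h1, h2, h3, h4⟩ := h
  have e1 : |c + (a - 1) - (g - 1)| = |c + a - g| := by congr 1; ring
  have e3 : |(b - 1) + c - (g - 1)| = |b + c - g| := by congr 1; ring
  by_cases hp : 0 < a + b - g
  · have e2 : |(a - 1) + (b - 1) - (g - 1)| = |a + b - g| - 1 := by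
      rw [abs_of_pos hp, abs_of_nonneg (by omega)]; ring
    refine ⟨t1, t2, t3, ⟨h1, h2, h3, ?_⟩, ?_, ?_, ?_⟩
    · rw [e1, e2, e3]; linarith
    · rw [e1]; linarith
    · rw [e2]; linarith
    · rw [e3]; linarith
  · have hs : 1 ≤ t1 + t3 := by tauto
    have e2 : |(a - 1) + (b - 1) - (g - 1)| = |a + b - g| + 1 := by
      rw [abs_of_nonpos (by omega), abs_of_nonpos (by omega)]; ring
    by_cases h1' : 1 ≤ t1
    · refine ⟨t1 - 1, t2, t3, ⟨by omega, h2, h3, ?_⟩, ?_, ?_, ?_⟩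
      · rw [e1, e2, e3]; linarith
      · rw [e1]; linarith
      · rw [e2]; linarith
      · rw [e3]; linarith
    · refine ⟨t1, t2, t3 - 1, ⟨h1, h2, by omega, ?_⟩, ?_, ?_, ?_⟩
      · rw [e1, e2, e3]; linarith
      · rw [e1]; linarith
      · rw [e2]; linarith
      · rw [e3]; linarith

theorem peel_qrp {g a b c t1 t2 t3 : ℤ} (h : Face g a b c t1 t2 t3)
    (hd : 0 < b + c - g ∨ 1 ≤ t2 + t1) : ∃ u1 u2 u3 : ℤ,
      Face (g - 1) a (b - 1) (c - 1) u1 u2 u3 ∧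
      Dr g a b c t1 t2 t3 (g - 1) a (b - 1) (c - 1) u1 u2 u3 0 0 1 := by
  obtain ⟨u2, u3, u1, hu, d1, d2, d3⟩ := peel_pqr h.rot hd
  exact ⟨u1, u2, u3, hu.rot.rot, d3, d1, d2⟩

theorem peel_rpq {g a b c t1 t2 t3 : ℤ} (h : Face g a b c t1 t2 t3)
    (hd : 0 < c + a - g ∨ 1 ≤ t3 + t2) : ∃ u1 u2 u3 : ℤ,
      Face (g - 1) (a - 1) b (c - 1) u1 u2 u3 ∧
      Dr g a b c t1 t2 t3 (g - 1) (a - 1) b (c - 1) u1 u2 u3 1 0 0 := by
  obtain ⟨u3, u1, u2, hu, d1, d2, d3⟩ := peel_pqr h.rot.rot hd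
  exact ⟨u1, u2, u3, hu.rot, d2, d3, d1⟩

theorem Dr.rev {g a b c t1 t2 t3 g' a' b' c' t1' t2' t3' m1 m2 m3 : ℤ}
    (h : Dr g (g - a) (g - b) (g - c) t1 t2 t3 g' (g' - a') (g' - b') (g' - c') t1' t2' t3' m1 m2 m3) :
    Dr g a b c t1 t2 t3 g' a' b' c' t1' t2' t3' m1 m2 m3 := by
  obtain ⟨d1, d2, d3⟩ := h
  have e1 : ∀ x y z : ℤ, |x - z + (x - y) - x| = |z + y - x| := by
    intro x y z
    rw [← abs_neg]; congr 1; ring
  rw [e1, e1] at d1 d2 d3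
  exact ⟨d1, d2, d3⟩

/-- remove an order `r q p` -/
theorem peel_rqp {g a b c t1 t2 t3 : ℤ} (h : Face g a b c t1 t2 t3)
    (hd : a + b - g < 0 ∨ 1 ≤ t1 + t3) : ∃ u1 u2 u3 : ℤ,
      Face (g - 1) a b (c - 1) u1 u2 u3 ∧
      Dr g a b c t1 t2 t3 (g - 1) a b (c - 1) u1 u2 u3 0 1 0 := by
  obtain ⟨u1, u2, u3, hu, hdr⟩ := peel_pqr h.rev (by
    rcases hd with hd | hd
    · left; linarith
    · right; exact hd)
  refine ⟨u1, u2, u3, ?_, ?_⟩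
  · have := hu.rev
    have e1 : g - 1 - (g - a - 1) = a := by ring
    have e2 : g - 1 - (g - b - 1) = b := by ring
    have e3 : g - 1 - (g - c) = c - 1 := by ring
    rw [e1, e2, e3] at this
    exact this
  · apply Dr.rev
    have e1 : g - 1 - a = g - a - 1 := by ring
    have e2 : g - 1 - b = g - b - 1 := by ring
    have e3 : g - 1 - (c - 1) = g - c := by ring
    rw [e1, e2, e3]
    exact hdr

theorem peel_prq {g a b c t1 t2 t3 : ℤ} (h : Face g a b c t1 t2 t3)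
    (hd : b + c - g < 0 ∨ 1 ≤ t2 + t1) : ∃ u1 u2 u3 : ℤ,
      Face (g - 1) (a - 1) b c u1 u2 u3 ∧
      Dr g a b c t1 t2 t3 (g - 1) (a - 1) b c u1 u2 u3 0 0 1 := by
  obtain ⟨u2, u3, u1, hu, d1, d2, d3⟩ := peel_rqp h.rot hd
  exact ⟨u1, u2, u3, hu.rot.rot, d3, d1, d2⟩

theorem peel_qpr {g a b c t1 t2 t3 : ℤ} (h : Face g a b c t1 t2 t3)
    (hd : c + a - g < 0 ∨ 1 ≤ t3 + t2) : ∃ u1 u2 u3 : ℤ,
      Face (g - 1) a (b - 1) c u1 u2 u3 ∧
      Dr g a b c t1 t2 t3 (g - 1) a (b - 1) c u1 u2 u3 1 0 0 := by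
  obtain ⟨u3, u1, u2, hu, d1, d2, d3⟩ := peel_rqp h.rot.rot hd
  exact ⟨u1, u2, u3, hu.rot, d2, d3, d1⟩

end Pool.Agent.H29.W3
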