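import Pool.Agent.H29.W3.FaceMin

set_option autoImplicit false
set_option maxHeartbeats 4000000

namespace Pool.Agent.H29.W3

/-- the data of the slot lemma -/
def SD (g axy ayz azx awx awy awz tzx tzy tzw txy txz txw tyz tyx tyw : ℤ) : Prop :=
  Face g axy (g - awy) awx tzx tzy tzw ∧ Face g ayz (g - awz) awy txy txz txw ∧
  Face g azx (g - awx) awz tyz tyx tyw ∧
  (0 ≤ axy ∧ 0 ≤ ayz ∧ 0 ≤ azx ∧ axy ≤ g ∧ ayz ≤ g ∧ azx ≤ g ∧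
    g ≤ axy + ayz + azx ∧ axy + ayz + azx ≤ 2 * g) ∧ 0 < axy + ayz - g

variable {g axy ayz azx awx awy awz tzx tzy tzw txy txz txw tyz tyx tyw : ℤ}

theorem no_X0_Z2 (h : SD g axy ayz azx awx awy awz tzx tzy tzw txy txz txw tyz tyx tyw)
    (h1 : awy + ayz - g ≤ 0 ∧ txz + txw ≤ 0)
    (h2 : axy - awy ≤ 0 ∧ tzx + tzw ≤ 0)
    : False := by
  obtain ⟨hz, hx, hy, ho, hE⟩ := h
  obtain ⟨z1, z2, z3, z4, z5, z6, z7, z8, z9, z10, z11⟩ := face_le hz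
  obtain ⟨x1, x2, x3, x4, x5, x6, x7, x8, x9, x10, x11⟩ := face_le hx
  obtain ⟨y1, y2, y3, y4, y5, y6, y7, y8, y9, y10, y11⟩ := face_le hy
  obtain ⟨o1, o2, o3, o4, o5, o6, o7, o8⟩ := ho
  obtain ⟨h1a, h1b⟩ := h1
  obtain ⟨h2a, h2b⟩ := h2
  clear hz hx hy
  linarith

theorem no_X0_Y1_Y2 (h : SD g axy ayz azx awx awy awz tzx tzy tzw txy txz txw tyz tyx tyw)
    (h1 : awy + ayz - g ≤ 0 ∧ txz + txw ≤ 0)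
    (h2 : awz - awx ≤ 0 ∧ tyx + tyz ≤ 0)
    (h3 : g - azx - awz ≤ 0 ∧ tyx + tyw ≤ 0)
    : False := by
  obtain ⟨hz, hx, hy, ho, hE⟩ := h
  obtain ⟨z1, z2, z3, z4, z5, z6, z7, z8, z9, z10, z11⟩ := face_le hz
  obtain ⟨x1, x2, x3, x4, x5, x6, x7, x8, x9, x10, x11⟩ := face_le hx
  obtain ⟨y1, y2, y3, y4, y5, y6, y7, y8, y9, y10, y11⟩ := face_le hy
  obtain ⟨o1, o2, o3, o4, o5, o6, o7, o8⟩ := ho
  obtain ⟨h1a, h1b⟩ := h1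
  obtain ⟨h2a, h2b⟩ := h2
  obtain ⟨h3a, h3b⟩ := h3
  have qy := face_eq hy
  clear hz hx hy
  rcases qy with qy | qy | qy | qy | qy | qy | qy | qy <;> linarith

theorem no_X0_Y1_X2 (h : SD g axy ayz azx awx awy awz tzx tzy tzw txy txz txw tyz tyx tyw)
    (h1 : awy + ayz - g ≤ 0 ∧ txz + txw ≤ 0)
    (h2 : awz - awx ≤ 0 ∧ tyx + tyz ≤ 0)
    (h3 : ayz - awz ≤ 0 ∧ txy + txw ≤ 0)
    : False := by
  obtain ⟨hz, hx, hy, ho, hE⟩ := h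
  obtain ⟨z1, z2, z3, z4, z5, z6, z7, z8, z9, z10, z11⟩ := face_le hz
  obtain ⟨x1, x2, x3, x4, x5, x6, x7, x8, x9, x10, x11⟩ := face_le hx
  obtain ⟨y1, y2, y3, y4, y5, y6, y7, y8, y9, y10, y11⟩ := face_le hy
  obtain ⟨o1, o2, o3, o4, o5, o6, o7, o8⟩ := ho
  obtain ⟨h1a, h1b⟩ := h1
  obtain ⟨h2a, h2b⟩ := h2
  obtain ⟨h3a, h3b⟩ := h3
  have qx := face_eq hx
  clear hz hx hy
  rcases qx with qx | qx | qx | qx | qx | qx | qx | qx <;> linarith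

theorem no_X0_X1_Y2 (h : SD g axy ayz azx awx awy awz tzx tzy tzw txy txz txw tyz tyx tyw)
    (h1 : awy + ayz - g ≤ 0 ∧ txz + txw ≤ 0)
    (h2 : awz - awy ≤ 0 ∧ txy + txz ≤ 0)
    (h3 : g - azx - awz ≤ 0 ∧ tyx + tyw ≤ 0)
    : False := by
  obtain ⟨hz, hx, hy, ho, hE⟩ := h
  obtain ⟨z1, z2, z3, z4, z5, z6, z7, z8, z9, z10, z11⟩ := face_le hz
  obtain ⟨x1, x2, x3, x4, x5, x6, x7, x8, x9, x10, x11⟩ := face_le hx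
  obtain ⟨y1, y2, y3, y4, y5, y6, y7, y8, y9, y10, y11⟩ := face_le hy
  obtain ⟨o1, o2, o3, o4, o5, o6, o7, o8⟩ := ho
  obtain ⟨h1a, h1b⟩ := h1
  obtain ⟨h2a, h2b⟩ := h2
  obtain ⟨h3a, h3b⟩ := h3
  have qx := face_eq hx
  clear hz hx hy
  rcases qx with qx | qx | qx | qx | qx | qx | qx | qx <;> linarith

theorem no_X0_X1_X2 (h : SD g axy ayz azx awx awy awz tzx tzy tzw txy txz txw tyz tyx tyw)
    (h1 : awy + ayz - g ≤ 0 ∧ txz + txw ≤ 0)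
    (h2 : awz - awy ≤ 0 ∧ txy + txz ≤ 0)
    (h3 : ayz - awz ≤ 0 ∧ txy + txw ≤ 0)
    : False := by
  obtain ⟨hz, hx, hy, ho, hE⟩ := h
  obtain ⟨z1, z2, z3, z4, z5, z6, z7, z8, z9, z10, z11⟩ := face_le hz
  obtain ⟨x1, x2, x3, x4, x5, x6, x7, x8, x9, x10, x11⟩ := face_le hx
  obtain ⟨y1, y2, y3, y4, y5, y6, y7, y8, y9, y10, y11⟩ := face_le hy
  obtain ⟨o1, o2, o3, o4, o5, o6, o7, o8⟩ := ho
  obtain ⟨h1a, h1b⟩ := h1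
  obtain ⟨h2a, h2b⟩ := h2
  obtain ⟨h3a, h3b⟩ := h3
  have qx := face_eq hx
  clear hz hx hy
  rcases qx with qx | qx | qx | qx | qx | qx | qx | qx <;> linarith

theorem no_Z2_Z0_Z1 (h : SD g axy ayz azx awx awy awz tzx tzy tzw txy txz txw tyz tyx tyw)
    (h1 : axy - awy ≤ 0 ∧ tzx + tzw ≤ 0)
    (h2 : awx + axy - g ≤ 0 ∧ tzy + tzw ≤ 0)
    (h3 : awy - awx ≤ 0 ∧ tzx + tzy ≤ 0)
    : False := by
  obtain ⟨hz, hx, hy, ho, hE⟩ := h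
  obtain ⟨z1, z2, z3, z4, z5, z6, z7, z8, z9, z10, z11⟩ := face_le hz
  obtain ⟨x1, x2, x3, x4, x5, x6, x7, x8, x9, x10, x11⟩ := face_le hx
  obtain ⟨y1, y2, y3, y4, y5, y6, y7, y8, y9, y10, y11⟩ := face_le hy
  obtain ⟨o1, o2, o3, o4, o5, o6, o7, o8⟩ := ho
  obtain ⟨h1a, h1b⟩ := h1
  obtain ⟨h2a, h2b⟩ := h2
  obtain ⟨h3a, h3b⟩ := h3
  have qz := face_eq hz
  clear hz hx hy
  rcases qz with qz | qz | qz | qz | qz | qz | qz | qz <;> linarith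

theorem no_Z2_Z0_Y1 (h : SD g axy ayz azx awx awy awz tzx tzy tzw txy txz txw tyz tyx tyw)
    (h1 : axy - awy ≤ 0 ∧ tzx + tzw ≤ 0)
    (h2 : awx + axy - g ≤ 0 ∧ tzy + tzw ≤ 0)
    (h3 : awz - awx ≤ 0 ∧ tyx + tyz ≤ 0)
    : False := by
  obtain ⟨hz, hx, hy, ho, hE⟩ := h
  obtain ⟨z1, z2, z3, z4, z5, z6, z7, z8, z9, z10, z11⟩ := face_le hz
  obtain ⟨x1, x2, x3, x4, x5, x6, x7, x8, x9, x10, x11⟩ := face_le hx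
  obtain ⟨y1, y2, y3, y4, y5, y6, y7, y8, y9, y10, y11⟩ := face_le hy
  obtain ⟨o1, o2, o3, o4, o5, o6, o7, o8⟩ := ho
  obtain ⟨h1a, h1b⟩ := h1
  obtain ⟨h2a, h2b⟩ := h2
  obtain ⟨h3a, h3b⟩ := h3
  have qz := face_eq hz
  clear hz hx hy
  rcases qz with qz | qz | qz | qz | qz | qz | qz | qz <;> linarith

theorem no_Z2_Y0_Z1 (h : SD g axy ayz azx awx awy awz tzx tzy tzw txy txz txw tyz tyx tyw)
    (h1 : axy - awy ≤ 0 ∧ tzx + tzw ≤ 0)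
    (h2 : awx - azx ≤ 0 ∧ tyz + tyw ≤ 0)
    (h3 : awy - awx ≤ 0 ∧ tzx + tzy ≤ 0)
    : False := by
  obtain ⟨hz, hx, hy, ho, hE⟩ := h
  obtain ⟨z1, z2, z3, z4, z5, z6, z7, z8, z9, z10, z11⟩ := face_le hz
  obtain ⟨x1, x2, x3, x4, x5, x6, x7, x8, x9, x10, x11⟩ := face_le hx
  obtain ⟨y1, y2, y3, y4, y5, y6, y7, y8, y9, y10, y11⟩ := face_le hy
  obtain ⟨o1, o2, o3, o4, o5, o6, o7, o8⟩ := ho
  obtain ⟨h1a, h1b⟩ := h1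
  obtain ⟨h2a, h2b⟩ := h2
  obtain ⟨h3a, h3b⟩ := h3
  have qz := face_eq hz
  clear hz hx hy
  rcases qz with qz | qz | qz | qz | qz | qz | qz | qz <;> linarith

theorem no_Z2_Y0_Y1 (h : SD g axy ayz azx awx awy awz tzx tzy tzw txy txz txw tyz tyx tyw)
    (h1 : axy - awy ≤ 0 ∧ tzx + tzw ≤ 0)
    (h2 : awx - azx ≤ 0 ∧ tyz + tyw ≤ 0)
    (h3 : awz - awx ≤ 0 ∧ tyx + tyz ≤ 0)
    : False := by
  obtain ⟨hz, hx, hy, ho, hE⟩ := h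
  obtain ⟨z1, z2, z3, z4, z5, z6, z7, z8, z9, z10, z11⟩ := face_le hz
  obtain ⟨x1, x2, x3, x4, x5, x6, x7, x8, x9, x10, x11⟩ := face_le hx
  obtain ⟨y1, y2, y3, y4, y5, y6, y7, y8, y9, y10, y11⟩ := face_le hy
  obtain ⟨o1, o2, o3, o4, o5, o6, o7, o8⟩ := ho
  obtain ⟨h1a, h1b⟩ := h1
  obtain ⟨h2a, h2b⟩ := h2
  obtain ⟨h3a, h3b⟩ := h3
  have qy := face_eq hy
  clear hz hx hy
  rcases qy with qy | qy | qy | qy | qy | qy | qy | qy <;> linarith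

theorem no_Y1_Z0_Y2 (h : SD g axy ayz azx awx awy awz tzx tzy tzw txy txz txw tyz tyx tyw)
    (h1 : awz - awx ≤ 0 ∧ tyx + tyz ≤ 0)
    (h2 : awx + axy - g ≤ 0 ∧ tzy + tzw ≤ 0)
    (h3 : g - azx - awz ≤ 0 ∧ tyx + tyw ≤ 0)
    : False := by
  obtain ⟨hz, hx, hy, ho, hE⟩ := h
  obtain ⟨z1, z2, z3, z4, z5, z6, z7, z8, z9, z10, z11⟩ := face_le hz
  obtain ⟨x1, x2, x3, x4, x5, x6, x7, x8, x9, x10, x11⟩ := face_le hx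
  obtain ⟨y1, y2, y3, y4, y5, y6, y7, y8, y9, y10, y11⟩ := face_le hy
  obtain ⟨o1, o2, o3, o4, o5, o6, o7, o8⟩ := ho
  obtain ⟨h1a, h1b⟩ := h1
  obtain ⟨h2a, h2b⟩ := h2
  obtain ⟨h3a, h3b⟩ := h3
  have qy := face_eq hy
  clear hz hx hy
  rcases qy with qy | qy | qy | qy | qy | qy | qy | qy <;> linarith

theorem no_Y1_Z0_X2 (h : SD g axy ayz azx awx awy awz tzx tzy tzw txy txz txw tyz tyx tyw)
    (h1 : awz - awx ≤ 0 ∧ tyx + tyz ≤ 0)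
    (h2 : awx + axy - g ≤ 0 ∧ tzy + tzw ≤ 0)
    (h3 : ayz - awz ≤ 0 ∧ txy + txw ≤ 0)
    : False := by
  obtain ⟨hz, hx, hy, ho, hE⟩ := h
  obtain ⟨z1, z2, z3, z4, z5, z6, z7, z8, z9, z10, z11⟩ := face_le hz
  obtain ⟨x1, x2, x3, x4, x5, x6, x7, x8, x9, x10, x11⟩ := face_le hx
  obtain ⟨y1, y2, y3, y4, y5, y6, y7, y8, y9, y10, y11⟩ := face_le hy
  obtain ⟨o1, o2, o3, o4, o5, o6, o7, o8⟩ := ho
  obtain ⟨h1a, h1b⟩ := h1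
  obtain ⟨h2a, h2b⟩ := h2
  obtain ⟨h3a, h3b⟩ := h3
  clear hz hx hy
  linarith

theorem no_Y1_Y0_Y2 (h : SD g axy ayz azx awx awy awz tzx tzy tzw txy txz txw tyz tyx tyw)
    (h1 : awz - awx ≤ 0 ∧ tyx + tyz ≤ 0)
    (h2 : awx - azx ≤ 0 ∧ tyz + tyw ≤ 0)
    (h3 : g - azx - awz ≤ 0 ∧ tyx + tyw ≤ 0)
    : False := by
  obtain ⟨hz, hx, hy, ho, hE⟩ := h
  obtain ⟨z1, z2, z3, z4, z5, z6, z7, z8, z9, z10, z11⟩ := face_le hz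
  obtain ⟨x1, x2, x3, x4, x5, x6, x7, x8, x9, x10, x11⟩ := face_le hx
  obtain ⟨y1, y2, y3, y4, y5, y6, y7, y8, y9, y10, y11⟩ := face_le hy
  obtain ⟨o1, o2, o3, o4, o5, o6, o7, o8⟩ := ho
  obtain ⟨h1a, h1b⟩ := h1
  obtain ⟨h2a, h2b⟩ := h2
  obtain ⟨h3a, h3b⟩ := h3
  have qy := face_eq hy
  clear hz hx hy
  rcases qy with qy | qy | qy | qy | qy | qy | qy | qy <;> linarith

theorem no_Y1_Y0_X2 (h : SD g axy ayz azx awx awy awz tzx tzy tzw txy txz txw tyz tyx tyw)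
    (h1 : awz - awx ≤ 0 ∧ tyx + tyz ≤ 0)
    (h2 : awx - azx ≤ 0 ∧ tyz + tyw ≤ 0)
    (h3 : ayz - awz ≤ 0 ∧ txy + txw ≤ 0)
    : False := by
  obtain ⟨hz, hx, hy, ho, hE⟩ := h
  obtain ⟨z1, z2, z3, z4, z5, z6, z7, z8, z9, z10, z11⟩ := face_le hz
  obtain ⟨x1, x2, x3, x4, x5, x6, x7, x8, x9, x10, x11⟩ := face_le hx
  obtain ⟨y1, y2, y3, y4, y5, y6, y7, y8, y9, y10, y11⟩ := face_le hy
  obtain ⟨o1, o2, o3, o4, o5, o6, o7, o8⟩ := ho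
  obtain ⟨h1a, h1b⟩ := h1
  obtain ⟨h2a, h2b⟩ := h2
  obtain ⟨h3a, h3b⟩ := h3
  have qy := face_eq hy
  clear hz hx hy
  rcases qy with qy | qy | qy | qy | qy | qy | qy | qy <;> linarith

theorem no_Z1_X1_Z0_Y2 (h : SD g axy ayz azx awx awy awz tzx tzy tzw txy txz txw tyz tyx tyw)
    (h1 : awy - awx ≤ 0 ∧ tzx + tzy ≤ 0)
    (h2 : awz - awy ≤ 0 ∧ txy + txz ≤ 0)
    (h3 : awx + axy - g ≤ 0 ∧ tzy + tzw ≤ 0)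
    (h4 : g - azx - awz ≤ 0 ∧ tyx + tyw ≤ 0)
    : False := by
  obtain ⟨hz, hx, hy, ho, hE⟩ := h
  obtain ⟨z1, z2, z3, z4, z5, z6, z7, z8, z9, z10, z11⟩ := face_le hz
  obtain ⟨x1, x2, x3, x4, x5, x6, x7, x8, x9, x10, x11⟩ := face_le hx
  obtain ⟨y1, y2, y3, y4, y5, y6, y7, y8, y9, y10, y11⟩ := face_le hy
  obtain ⟨o1, o2, o3, o4, o5, o6, o7, o8⟩ := ho
  obtain ⟨h1a, h1b⟩ := h1
  obtain ⟨h2a, h2b⟩ := h2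
  obtain ⟨h3a, h3b⟩ := h3
  obtain ⟨h4a, h4b⟩ := h4
  have qz := face_eq hz
  clear hz hx hy
  rcases qz with qz | qz | qz | qz | qz | qz | qz | qz <;> linarith

theorem no_Z1_X1_Z0_X2 (h : SD g axy ayz azx awx awy awz tzx tzy tzw txy txz txw tyz tyx tyw)
    (h1 : awy - awx ≤ 0 ∧ tzx + tzy ≤ 0)
    (h2 : awz - awy ≤ 0 ∧ txy + txz ≤ 0)
    (h3 : awx + axy - g ≤ 0 ∧ tzy + tzw ≤ 0)
    (h4 : ayz - awz ≤ 0 ∧ txy + txw ≤ 0)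
    : False := by
  obtain ⟨hz, hx, hy, ho, hE⟩ := h
  obtain ⟨z1, z2, z3, z4, z5, z6, z7, z8, z9, z10, z11⟩ := face_le hz
  obtain ⟨x1, x2, x3, x4, x5, x6, x7, x8, x9, x10, x11⟩ := face_le hx
  obtain ⟨y1, y2, y3, y4, y5, y6, y7, y8, y9, y10, y11⟩ := face_le hy
  obtain ⟨o1, o2, o3, o4, o5, o6, o7, o8⟩ := ho
  obtain ⟨h1a, h1b⟩ := h1
  obtain ⟨h2a, h2b⟩ := h2
  obtain ⟨h3a, h3b⟩ := h3
  obtain ⟨h4a, h4b⟩ := h4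
  clear hz hx hy
  linarith

theorem no_Z1_X1_Y0_Y2 (h : SD g axy ayz azx awx awy awz tzx tzy tzw txy txz txw tyz tyx tyw)
    (h1 : awy - awx ≤ 0 ∧ tzx + tzy ≤ 0)
    (h2 : awz - awy ≤ 0 ∧ txy + txz ≤ 0)
    (h3 : awx - azx ≤ 0 ∧ tyz + tyw ≤ 0)
    (h4 : g - azx - awz ≤ 0 ∧ tyx + tyw ≤ 0)
    : False := by
  obtain ⟨hz, hx, hy, ho, hE⟩ := h
  obtain ⟨z1, z2, z3, z4, z5, z6, z7, z8, z9, z10, z11⟩ := face_le hz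
  obtain ⟨x1, x2, x3, x4, x5, x6, x7, x8, x9, x10, x11⟩ := face_le hx
  obtain ⟨y1, y2, y3, y4, y5, y6, y7, y8, y9, y10, y11⟩ := face_le hy
  obtain ⟨o1, o2, o3, o4, o5, o6, o7, o8⟩ := ho
  obtain ⟨h1a, h1b⟩ := h1
  obtain ⟨h2a, h2b⟩ := h2
  obtain ⟨h3a, h3b⟩ := h3
  obtain ⟨h4a, h4b⟩ := h4
  have qy := face_eq hy
  clear hz hx hy
  rcases qy with qy | qy | qy | qy | qy | qy | qy | qy <;> linarith

theorem no_Z1_X1_Y0_X2 (h : SD g axy ayz azx awx awy awz tzx tzy tzw txy txz txw tyz tyx tyw)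
    (h1 : awy - awx ≤ 0 ∧ tzx + tzy ≤ 0)
    (h2 : awz - awy ≤ 0 ∧ txy + txz ≤ 0)
    (h3 : awx - azx ≤ 0 ∧ tyz + tyw ≤ 0)
    (h4 : ayz - awz ≤ 0 ∧ txy + txw ≤ 0)
    : False := by
  obtain ⟨hz, hx, hy, ho, hE⟩ := h
  obtain ⟨z1, z2, z3, z4, z5, z6, z7, z8, z9, z10, z11⟩ := face_le hz
  obtain ⟨x1, x2, x3, x4, x5, x6, x7, x8, x9, x10, x11⟩ := face_le hx
  obtain ⟨y1, y2, y3, y4, y5, y6, y7, y8, y9, y10, y11⟩ := face_le hy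
  obtain ⟨o1, o2, o3, o4, o5, o6, o7, o8⟩ := ho
  obtain ⟨h1a, h1b⟩ := h1
  obtain ⟨h2a, h2b⟩ := h2
  obtain ⟨h3a, h3b⟩ := h3
  obtain ⟨h4a, h4b⟩ := h4
  have qx := face_eq hx
  clear hz hx hy
  rcases qx with qx | qx | qx | qx | qx | qx | qx | qx <;> linarith

theorem slot (h : SD g axy ayz azx awx awy awz tzx tzy tzw txy txz txw tyz tyx tyw) :
    ((0 < awx + axy - g ∨ 1 ≤ tzy + tzw) ∧ (0 < awx - azx ∨ 1 ≤ tyz + tyw) ∧ (0 < awy + ayz - g ∨ 1 ≤ txz + txw)) ∨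
    ((0 < awy - awx ∨ 1 ≤ tzx + tzy) ∧ (0 < awz - awx ∨ 1 ≤ tyx + tyz) ∧ (0 < awy + ayz - g ∨ 1 ≤ txz + txw)) ∨
    ((0 < axy - awy ∨ 1 ≤ tzx + tzw) ∧ (0 < awz - awx ∨ 1 ≤ tyx + tyz) ∧ (0 < awz - awy ∨ 1 ≤ txy + txz)) ∨
    ((0 < axy - awy ∨ 1 ≤ tzx + tzw) ∧ (0 < g - azx - awz ∨ 1 ≤ tyx + tyw) ∧ (0 < ayz - awz ∨ 1 ≤ txy + txw)) := by
  by_contra hcon
  rw [not_or, not_or, not_or] at hcon
  obtain ⟨k0, k1, k2, k3⟩ := hcon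
  simp only [not_and_or, not_or, not_lt, not_le] at k0
  simp only [not_and_or, not_or, not_lt, not_le] at k1
  simp only [not_and_or, not_or, not_lt, not_le] at k2
  simp only [not_and_or, not_or, not_lt, not_le] at k3
  have e : ∀ {a b : ℤ}, a ≤ 0 ∧ b < 1 → a ≤ 0 ∧ b ≤ 0 := fun h => ⟨h.1, by omega⟩
  rcases k0 with k0 | k0 | k0 <;> rcases k1 with k1 | k1 | k1 <;> rcases k2 with k2 | k2 | k2 <;> rcases k3 with k3 | k3 | k3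
  · exact no_Z2_Z0_Z1 h (e k2) (e k0) (e k1)
  · exact no_Z2_Z0_Z1 h (e k2) (e k0) (e k1)
  · exact no_Z2_Z0_Z1 h (e k2) (e k0) (e k1)
  · exact no_Z2_Z0_Z1 h (e k3) (e k0) (e k1)
  · exact no_Y1_Z0_Y2 h (e k2) (e k0) (e k3)
  · exact no_Y1_Z0_X2 h (e k2) (e k0) (e k3)
  · exact no_Z2_Z0_Z1 h (e k3) (e k0) (e k1)
  · exact no_Z1_X1_Z0_Y2 h (e k1) (e k2) (e k0) (e k3)
  · exact no_Z1_X1_Z0_X2 h (e k1) (e k2) (e k0) (e k3)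
  · exact no_Z2_Z0_Y1 h (e k2) (e k0) (e k1)
  · exact no_Z2_Z0_Y1 h (e k2) (e k0) (e k1)
  · exact no_Z2_Z0_Y1 h (e k2) (e k0) (e k1)
  · exact no_Z2_Z0_Y1 h (e k3) (e k0) (e k1)
  · exact no_Y1_Z0_Y2 h (e k1) (e k0) (e k3)
  · exact no_Y1_Z0_X2 h (e k1) (e k0) (e k3)
  · exact no_Z2_Z0_Y1 h (e k3) (e k0) (e k1)
  · exact no_Y1_Z0_Y2 h (e k1) (e k0) (e k3)
  · exact no_Y1_Z0_X2 h (e k1) (e k0) (e k3)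
  · exact no_X0_Z2 h (e k1) (e k2)
  · exact no_X0_Z2 h (e k1) (e k2)
  · exact no_X0_Z2 h (e k1) (e k2)
  · exact no_X0_Z2 h (e k1) (e k3)
  · exact no_X0_Y1_Y2 h (e k1) (e k2) (e k3)
  · exact no_X0_Y1_X2 h (e k1) (e k2) (e k3)
  · exact no_X0_Z2 h (e k1) (e k3)
  · exact no_X0_X1_Y2 h (e k1) (e k2) (e k3)
  · exact no_X0_X1_X2 h (e k1) (e k2) (e k3)
  · exact no_Z2_Y0_Z1 h (e k2) (e k0) (e k1)
  · exact no_Z2_Y0_Z1 h (e k2) (e k0) (e k1)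
  · exact no_Z2_Y0_Z1 h (e k2) (e k0) (e k1)
  · exact no_Z2_Y0_Z1 h (e k3) (e k0) (e k1)
  · exact no_Y1_Y0_Y2 h (e k2) (e k0) (e k3)
  · exact no_Y1_Y0_X2 h (e k2) (e k0) (e k3)
  · exact no_Z2_Y0_Z1 h (e k3) (e k0) (e k1)
  · exact no_Z1_X1_Y0_Y2 h (e k1) (e k2) (e k0) (e k3)
  · exact no_Z1_X1_Y0_X2 h (e k1) (e k2) (e k0) (e k3)
  · exact no_Z2_Y0_Y1 h (e k2) (e k0) (e k1)
  · exact no_Z2_Y0_Y1 h (e k2) (e k0) (e k1)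
  · exact no_Z2_Y0_Y1 h (e k2) (e k0) (e k1)
  · exact no_Z2_Y0_Y1 h (e k3) (e k0) (e k1)
  · exact no_Y1_Y0_Y2 h (e k1) (e k0) (e k3)
  · exact no_Y1_Y0_X2 h (e k1) (e k0) (e k3)
  · exact no_Z2_Y0_Y1 h (e k3) (e k0) (e k1)
  · exact no_Y1_Y0_Y2 h (e k1) (e k0) (e k3)
  · exact no_Y1_Y0_X2 h (e k1) (e k0) (e k3)
  · exact no_X0_Z2 h (e k1) (e k2)
  · exact no_X0_Z2 h (e k1) (e k2)
  · exact no_X0_Z2 h (e k1) (e k2)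
  · exact no_X0_Z2 h (e k1) (e k3)
  · exact no_X0_Y1_Y2 h (e k1) (e k2) (e k3)
  · exact no_X0_Y1_X2 h (e k1) (e k2) (e k3)
  · exact no_X0_Z2 h (e k1) (e k3)
  · exact no_X0_X1_Y2 h (e k1) (e k2) (e k3)
  · exact no_X0_X1_X2 h (e k1) (e k2) (e k3)
  · exact no_X0_Z2 h (e k0) (e k2)
  · exact no_X0_Z2 h (e k0) (e k2)
  · exact no_X0_Z2 h (e k0) (e k2)
  · exact no_X0_Z2 h (e k0) (e k3)
  · exact no_X0_Y1_Y2 h (e k0) (e k2) (e k3)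
  · exact no_X0_Y1_X2 h (e k0) (e k2) (e k3)
  · exact no_X0_Z2 h (e k0) (e k3)
  · exact no_X0_X1_Y2 h (e k0) (e k2) (e k3)
  · exact no_X0_X1_X2 h (e k0) (e k2) (e k3)
  · exact no_X0_Z2 h (e k0) (e k2)
  · exact no_X0_Z2 h (e k0) (e k2)
  · exact no_X0_Z2 h (e k0) (e k2)
  · exact no_X0_Z2 h (e k0) (e k3)
  · exact no_X0_Y1_Y2 h (e k0) (e k1) (e k3)
  · exact no_X0_Y1_X2 h (e k0) (e k1) (e k3)
  · exact no_X0_Z2 h (e k0) (e k3)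
  · exact no_X0_Y1_Y2 h (e k0) (e k1) (e k3)
  · exact no_X0_Y1_X2 h (e k0) (e k1) (e k3)
  · exact no_X0_Z2 h (e k0) (e k2)
  · exact no_X0_Z2 h (e k0) (e k2)
  · exact no_X0_Z2 h (e k0) (e k2)
  · exact no_X0_Z2 h (e k0) (e k3)
  · exact no_X0_Y1_Y2 h (e k0) (e k2) (e k3)
  · exact no_X0_Y1_X2 h (e k0) (e k2) (e k3)
  · exact no_X0_Z2 h (e k0) (e k3)
  · exact no_X0_X1_Y2 h (e k0) (e k2) (e k3)
  · exact no_X0_X1_X2 h (e k0) (e k2) (e k3)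

end Pool.Agent.H29.W3
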