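import Pool.Agent.H29.W3.Peel

/-!
Symmetries of the closure statement: rotation `x → y → z → x`, reversal of all orders, exchange of `x` and `z`.
-/

set_option autoImplicit false
set_option maxHeartbeats 4000000
set_option linter.unusedSimpArgs false

namespace Pool.Agent.H29.W3

theorem sm_map (f : T4 → ℤ) (s : T4 → T4) (Q : Multiset T4) : sm f (Q.map s) = sm (f ∘ s) Q := by
  simp [sm, Multiset.map_map]

theorem sm_add (f h : T4 → ℤ) (Q : Multiset T4) : sm f Q + sm h Q = sm (fun e => f e + h e) Q := by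
  induction Q using Multiset.induction with
  | empty => simp [sm]
  | cons a s ih => rw [sm_cons, sm_cons, sm_cons, ← ih]; ring

theorem sm_one (Q : Multiset T4) : sm (fun _ => 1) Q = Multiset.card Q := by
  simp [sm]

theorem sm_compl (f h : T4 → ℤ) (hfh : ∀ e, f e + h e = 1) (Q : Multiset T4) :
    sm f Q = Multiset.card Q - sm h Q := by
  have := sm_add f h Q
  have h2 : (fun e => f e + h e) = fun _ => (1 : ℤ) := funext hfh
  rw [h2, sm_one] at this
  linarith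

theorem sm_congr (f h : T4 → ℤ) (hfh : ∀ e, f e = h e) (Q : Multiset T4) : sm f Q = sm h Q := by
  rw [funext hfh]

/-- the rotation -/
def rho (e : T4) : T4 :=
  (match e.1 with
    | .xyz => .zxy | .yzx => .xyz | .zxy => .yzx | .zyx => .yxz | .xzy => .zyx | .yxz => .xzy, e.2)

/-- the reversal -/
def rv (e : T4) : T4 :=
  (match e.1 with
    | .xyz => .zyx | .zyx => .xyz | .yzx => .xzy | .xzy => .yzx | .zxy => .yxz | .yxz => .zxy,
    Fin.rev e.2)

/-- the exchange of `x` and `z` -/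
def sw (e : T4) : T4 :=
  (match e.1 with
    | .xyz => .zyx | .zyx => .xyz | .yzx => .yxz | .yxz => .yzx | .xzy => .zxy | .zxy => .xzy, e.2)

theorem Clo.rot {g a1 a2 a3 w1 w2 w3 p1 p2 p3 q1 q2 q3 r1 r2 r3 : ℤ}
    (h : Clo g a1 a2 a3 w1 w2 w3 p1 p2 p3 q1 q2 q3 r1 r2 r3) :
    Clo g a2 a3 a1 w2 w3 w1 q1 q2 q3 r1 r2 r3 p1 p2 p3 := by
  obtain ⟨sx, sy, sz, hF, hQ⟩ := h
  refine ⟨sy, sz, sx, hF.rot, ?_⟩
  intro p q r hp hq hr hpqr h1 h2 h3
  obtain ⟨Q, hM, hz, hx, hy⟩ := hQ r p q hr hp hq (by linarith) h3 h1 h2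
  obtain ⟨m0, m1, m2, m3, m4, m5, m6, m7, m8, m9⟩ := hM
  have hX : ∀ e, X (rho e) = Y e := by
    rintro ⟨o, s⟩; revert o s; decide
  have hY : ∀ e, Y (rho e) = Z e := by
    rintro ⟨o, s⟩; revert o s; decide
  have hZ : ∀ e, Z (rho e) = X e := by
    rintro ⟨o, s⟩; revert o s; decide
  have hW : ∀ e, W (rho e) = W e := by
    rintro ⟨o, s⟩; revert o s; decide
  refine ⟨Q.map rho, ⟨?_, ?_, ?_, ?_, ?_, ?_, ?_, ?_, ?_, ?_⟩, ⟨?_, ?_, ?_⟩, ⟨?_, ?_, ?_⟩,
    ⟨?_, ?_, ?_⟩⟩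
  · rw [Multiset.card_map]; exact m0
  · rw [sm_map, ← m2]; apply sm_congr; intro e; simp only [Function.comp, lt, hX, hY]
  · rw [sm_map, ← m3]; apply sm_congr; intro e; simp only [Function.comp, lt, hY, hZ]
  · rw [sm_map, ← m1]; apply sm_congr; intro e; simp only [Function.comp, lt, hX, hZ]
  · rw [sm_map, ← m5]; apply sm_congr; intro e; simp only [Function.comp, lt, hX, hW]
  · rw [sm_map, ← m6]; apply sm_congr; intro e; simp only [Function.comp, lt, hY, hW]
  · rw [sm_map, ← m4]; apply sm_congr; intro e; simp only [Function.comp, lt, hZ, hW]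
  · rw [sm_map, ← m8]; apply sm_congr; intro e; simp only [Function.comp, md, hX, hY, hZ]
  · rw [sm_map, ← m9]; apply sm_congr; intro e; simp only [Function.comp, md, hX, hY, hZ]
  · rw [sm_map, ← m7]; apply sm_congr; intro e; simp only [Function.comp, md, hX, hY, hZ]
  · rw [sm_map]; refine le_trans (le_of_eq ?_) hx.1; apply sm_congr; intro e
    simp only [Function.comp, md, hX, hY, hZ, hW]
  · rw [sm_map]; refine le_trans (le_of_eq ?_) hx.2.1; apply sm_congr; intro e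
    simp only [Function.comp, md, hX, hY, hZ, hW]
  · rw [sm_map]; refine le_trans (le_of_eq ?_) hx.2.2; apply sm_congr; intro e
    simp only [Function.comp, md, hX, hY, hZ, hW]
  · rw [sm_map]; refine le_trans (le_of_eq ?_) hy.1; apply sm_congr; intro e
    simp only [Function.comp, md, hX, hY, hZ, hW]
  · rw [sm_map]; refine le_trans (le_of_eq ?_) hy.2.1; apply sm_congr; intro e
    simp only [Function.comp, md, hX, hY, hZ, hW]
  · rw [sm_map]; refine le_trans (le_of_eq ?_) hy.2.2; apply sm_congr; intro e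
    simp only [Function.comp, md, hX, hY, hZ, hW]
  · rw [sm_map]; refine le_trans (le_of_eq ?_) hz.1; apply sm_congr; intro e
    simp only [Function.comp, md, hX, hY, hZ, hW]
  · rw [sm_map]; refine le_trans (le_of_eq ?_) hz.2.1; apply sm_congr; intro e
    simp only [Function.comp, md, hX, hY, hZ, hW]
  · rw [sm_map]; refine le_trans (le_of_eq ?_) hz.2.2; apply sm_congr; intro e
    simp only [Function.comp, md, hX, hY, hZ, hW]

theorem lt_rv (A B : T4 → ℤ) (hA : ∀ e, A (rv e) = 8 - A e) (hB : ∀ e, B (rv e) = 8 - B e)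
    (hne : ∀ e, A e ≠ B e) (Q : Multiset T4) :
    sm (lt A B) (Q.map rv) = Multiset.card Q - sm (lt A B) Q := by
  rw [sm_map]
  apply sm_compl
  intro e
  have := hne e
  simp only [Function.comp, lt, hA, hB]
  split_ifs <;> omega

theorem md_rv (A B C : T4 → ℤ) (hA : ∀ e, A (rv e) = 8 - A e) (hB : ∀ e, B (rv e) = 8 - B e)
    (hC : ∀ e, C (rv e) = 8 - C e) (Q : Multiset T4) :
    sm (md A B C) (Q.map rv) = sm (md A B C) Q := by
  rw [sm_map]
  apply sm_congr
  intro e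
  simp only [Function.comp, md, hA, hB, hC]
  split_ifs <;> omega

theorem abs_rv (g x y : ℤ) : |g - x + (g - y) - g| = |x + y - g| := by
  rw [← abs_neg]; congr 1; ring

theorem neXY : ∀ e, X e ≠ Y e := by rintro ⟨o, s⟩; revert o s; decide
theorem neYZ : ∀ e, Y e ≠ Z e := by rintro ⟨o, s⟩; revert o s; decide
theorem neZX : ∀ e, Z e ≠ X e := by rintro ⟨o, s⟩; revert o s; decide
theorem neWX : ∀ e, W e ≠ X e := by rintro ⟨o, s⟩; revert o s; decide
theorem neWY : ∀ e, W e ≠ Y e := by rintro ⟨o, s⟩; revert o s; decide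
theorem neWZ : ∀ e, W e ≠ Z e := by rintro ⟨o, s⟩; revert o s; decide

theorem Bd.rev {g a b c t1 t2 t3 : ℤ} {A B C : T4 → ℤ} (hA : ∀ e, A (rv e) = 8 - A e)
    (hB : ∀ e, B (rv e) = 8 - B e) (hC : ∀ e, C (rv e) = 8 - C e) {Q : Multiset T4}
    (h : Bd g a b c t1 t2 t3 A B C Q) :
    Bd g (g - a) (g - b) (g - c) t1 t2 t3 A B C (Q.map rv) := by
  obtain ⟨h1, h2, h3⟩ := h
  refine ⟨?_, ?_, ?_⟩
  · rw [md_rv C A B hC hA hB, abs_rv]; exact h1
  · rw [md_rv A B C hA hB hC, abs_rv]; exact h2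
  · rw [md_rv B C A hB hC hA, abs_rv]; exact h3

theorem Clo.rev {g a1 a2 a3 w1 w2 w3 p1 p2 p3 q1 q2 q3 r1 r2 r3 : ℤ}
    (h : Clo g a1 a2 a3 w1 w2 w3 p1 p2 p3 q1 q2 q3 r1 r2 r3) :
    Clo g (g - a1) (g - a2) (g - a3) (g - w1) (g - w2) (g - w3) p1 p2 p3 q1 q2 q3 r1 r2 r3 := by
  obtain ⟨sx, sy, sz, hF, hQ⟩ := h
  refine ⟨sx, sy, sz, hF.rev, ?_⟩
  intro p q r hp hq hr hpqr h1 h2 h3
  obtain ⟨Q, hM, hz, hx, hy⟩ := hQ p q r hp hq hr hpqr h1 h2 h3
  obtain ⟨m0, m1, m2, m3, m4, m5, m6, m7, m8, m9⟩ := hM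
  have hX : ∀ e, X (rv e) = 8 - X e := by rintro ⟨o, s⟩; revert o s; decide
  have hY : ∀ e, Y (rv e) = 8 - Y e := by rintro ⟨o, s⟩; revert o s; decide
  have hZ : ∀ e, Z (rv e) = 8 - Z e := by rintro ⟨o, s⟩; revert o s; decide
  have hW : ∀ e, W (rv e) = 8 - W e := by rintro ⟨o, s⟩; revert o s; decide
  refine ⟨Q.map rv, ⟨?_, ?_, ?_, ?_, ?_, ?_, ?_, ?_, ?_, ?_⟩, ?_, ?_, ?_⟩
  · rw [Multiset.card_map]; exact m0
  · rw [lt_rv X Y hX hY neXY, m0, m1]
  · rw [lt_rv Y Z hY hZ neYZ, m0, m2]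
  · rw [lt_rv Z X hZ hX neZX, m0, m3]
  · rw [lt_rv W X hW hX neWX, m0, m4]
  · rw [lt_rv W Y hW hY neWY, m0, m5]
  · rw [lt_rv W Z hW hZ neWZ, m0, m6]
  · rw [md_rv Z X Y hZ hX hY, m7, abs_rv]
  · rw [md_rv X Y Z hX hY hZ, m8, abs_rv]
  · rw [md_rv Y Z X hY hZ hX, m9, abs_rv]
  · exact Bd.rev hX hY hW hz
  · exact Bd.rev hY hZ hW hx
  · exact Bd.rev hZ hX hW hy

theorem Bd.sw {g a b c t1 t2 t3 : ℤ} {A B C A1 B1 C1 : T4 → ℤ} (hA : ∀ e, A1 (W3.sw e) = B e)
    (hB : ∀ e, B1 (W3.sw e) = A e) (hC : ∀ e, C1 (W3.sw e) = C e) {Q : Multiset T4}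
    (h : Bd g a b c t1 t2 t3 A B C Q) :
    Bd g (g - a) (g - c) (g - b) t2 t1 t3 A1 B1 C1 (Q.map W3.sw) := by
  obtain ⟨h1, h2, h3⟩ := h
  refine ⟨?_, ?_, ?_⟩
  · have e1 : |g - b + (g - a) - g| = |a + b - g| := by rw [← abs_neg]; congr 1; ring
    have e2 : sm (md C1 A1 B1) (Q.map W3.sw) = sm (md A B C) Q := by
      rw [sm_map]; apply sm_congr; intro e
      simp only [Function.comp, md, hA, hB, hC]; split_ifs <;> omega
    rw [e1, e2]; linarith
  · have e1 : |g - a + (g - c) - g| = |c + a - g| := by rw [← abs_neg]; congr 1; ring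
    have e2 : sm (md A1 B1 C1) (Q.map W3.sw) = sm (md C A B) Q := by
      rw [sm_map]; apply sm_congr; intro e
      simp only [Function.comp, md, hA, hB, hC]; split_ifs <;> omega
    rw [e1, e2]; linarith
  · have e1 : |g - c + (g - b) - g| = |b + c - g| := by rw [← abs_neg]; congr 1; ring
    have e2 : sm (md B1 C1 A1) (Q.map W3.sw) = sm (md B C A) Q := by
      rw [sm_map]; apply sm_congr; intro e
      simp only [Function.comp, md, hA, hB, hC]; split_ifs <;> omega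
    rw [e1, e2]; linarith

theorem Clo.sw {g a1 a2 a3 w1 w2 w3 p1 p2 p3 q1 q2 q3 r1 r2 r3 : ℤ}
    (h : Clo g a1 a2 a3 w1 w2 w3 p1 p2 p3 q1 q2 q3 r1 r2 r3) :
    Clo g (g - a2) (g - a1) (g - a3) w3 w2 w1 q2 q1 q3 p2 p1 p3 r2 r1 r3 := by
  obtain ⟨sx, sy, sz, hF, hQ⟩ := h
  refine ⟨sz, sy, sx, ?_, ?_⟩
  · have := hF.rev
    obtain ⟨f1, f2, f3, f4⟩ := this
    refine ⟨f3, f2, f1, ?_⟩
    have e1 : |g - a3 + (g - a2) - g| = |g - a2 + (g - a3) - g| := by congr 1; ring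
    have e2 : |g - a2 + (g - a1) - g| = |g - a1 + (g - a2) - g| := by congr 1; ring
    have e3 : |g - a1 + (g - a3) - g| = |g - a3 + (g - a1) - g| := by congr 1; ring
    rw [e1, e2, e3]; linarith
  intro p q r hp hq hr hpqr h1 h2 h3
  obtain ⟨Q, hM, hz, hx, hy⟩ := hQ r q p hr hq hp (by linarith) (by linarith) (by linarith)
    (by linarith)
  obtain ⟨m0, m1, m2, m3, m4, m5, m6, m7, m8, m9⟩ := hM
  have hX : ∀ e, X (W3.sw e) = Z e := by rintro ⟨o, s⟩; revert o s; decide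
  have hY : ∀ e, Y (W3.sw e) = Y e := by rintro ⟨o, s⟩; revert o s; decide
  have hZ : ∀ e, Z (W3.sw e) = X e := by rintro ⟨o, s⟩; revert o s; decide
  have hW : ∀ e, W (W3.sw e) = W e := by rintro ⟨o, s⟩; revert o s; decide
  refine ⟨Q.map W3.sw, ⟨?_, ?_, ?_, ?_, ?_, ?_, ?_, ?_, ?_, ?_⟩, ?_, ?_, ?_⟩
  · rw [Multiset.card_map]; exact m0
  · rw [sm_map, ← m2, ← m0]; apply sm_compl; intro e
    have := neYZ e
    simp only [Function.comp, lt, hX, hY]; split_ifs <;> omega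
  · rw [sm_map, ← m1, ← m0]; apply sm_compl; intro e
    have := neXY e
    simp only [Function.comp, lt, hZ, hY]; split_ifs <;> omega
  · rw [sm_map, ← m3, ← m0]; apply sm_compl; intro e
    have := neZX e
    simp only [Function.comp, lt, hZ, hX]; split_ifs <;> omega
  · rw [sm_map, ← m6]; apply sm_congr; intro e; simp only [Function.comp, lt, hX, hW]
  · rw [sm_map, ← m5]; apply sm_congr; intro e; simp only [Function.comp, lt, hY, hW]
  · rw [sm_map, ← m4]; apply sm_congr; intro e; simp only [Function.comp, lt, hZ, hW]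
  · have e1 : |g - a3 + (g - a2) - g| = |a2 + a3 - g| := by
      rw [← abs_neg]; congr 1; ring
    rw [sm_map, e1, ← m9]; apply sm_congr; intro e
    simp only [Function.comp, md, hX, hY, hZ]; split_ifs <;> omega
  · have e1 : |g - a2 + (g - a1) - g| = |a1 + a2 - g| := by
      rw [← abs_neg]; congr 1; ring
    rw [sm_map, e1, ← m8]; apply sm_congr; intro e
    simp only [Function.comp, md, hX, hY, hZ]; split_ifs <;> omega
  · have e1 : |g - a1 + (g - a3) - g| = |a3 + a1 - g| := by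
      rw [← abs_neg]; congr 1; ring
    rw [sm_map, e1, ← m7]; apply sm_congr; intro e
    simp only [Function.comp, md, hX, hY, hZ]; split_ifs <;> omega
  · have := Bd.sw (A1 := X) (B1 := Y) (C1 := W) hX hY hW hx
    rw [show g - (g - w3) = w3 by ring] at this
    exact this
  · have := Bd.sw (A1 := Y) (B1 := Z) (C1 := W) hY hZ hW hz
    rw [show g - (g - w2) = w2 by ring] at this
    exact this
  · have := Bd.sw (A1 := Z) (B1 := X) (C1 := W) hZ hX hW hy
    rw [show g - (g - w1) = w1 by ring] at this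
    exact this

end Pool.Agent.H29.W3
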