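import Pool.Agent.H29.W3.Sym

/-!
[H29 W3 TWO] Adding a pair of opposite orders (two choices with different middles), MP_9f68ee_co.

`step2`: from a realization of the data for `g - 2` (all differences `E` of `x y z` are `0`: `2 * axy = g` etc.)
one gets one for `g`, adding either the pair `e1, e2` (in both of which `y` is in the middle) or the pair
`d1, d2` (in both of which `z` is in the middle); both pairs have the same marginals and both keep the bounds.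

PROOF. Let `sx, sy, sz` be the truncation for `g - 2`; take `sx + 1, sy, sz` for `g`. Let `p q r` be given for
`g` (`p + q + r = sx + 1 + sy + sz`, `p ≤ sy + sz`, `q ≤ sz + sx + 1`, `r ≤ sx + 1 + sy`). If `1 ≤ q` and
`r ≤ sx + sy` use the realization for `p, q - 1, r` and add `e1, e2`; otherwise `1 ≤ r` and `q ≤ sz + sx`
(omega) and one uses `p, q, r - 1` and adds `d1, d2`. All `|E| = 0` on `x y z` before and after.
Everything else is additivity (`sm_cons`).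
-/

set_option autoImplicit false
set_option maxHeartbeats 4000000

namespace Pool.Agent.H29.W3

/-- the pair `e1, e2` may be added: bounds of one face -/
def Dr2 (g a b c t1 t2 t3 g' a' b' c' t1' t2' t3' : ℤ) (A B C : T4 → ℤ) (e1 e2 : T4) : Prop :=
  Dr g a b c t1 t2 t3 g' a' b' c' t1' t2' t3' (md C A B e1 + md C A B e2)
    (md A B C e1 + md A B C e2) (md B C A e1 + md B C A e2)

theorem md_nn (A B C : T4 → ℤ) (e : T4) : 0 ≤ md A B C e := by
  unfold md; split_ifs <;> norm_num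

theorem md_mid {e : T4} (h : md X Y Z e = 1) : md Z X Y e = 0 ∧ md Y Z X e = 0 := by
  have h1 := md_sum e
  have h2 := md_nn Z X Y e
  have h3 := md_nn Y Z X e
  constructor <;> linarith

theorem md_mid' {e : T4} (h : md Y Z X e = 1) : md Z X Y e = 0 ∧ md X Y Z e = 0 := by
  have h1 := md_sum e
  have h2 := md_nn Z X Y e
  have h3 := md_nn X Y Z e
  constructor <;> linarith

theorem Bd.add2 {g a b c t1 t2 t3 g' a' b' c' t1' t2' t3' : ℤ} {A B C : T4 → ℤ} {e1 e2 : T4}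
    {Q : Multiset T4} (h : Dr2 g a b c t1 t2 t3 g' a' b' c' t1' t2' t3' A B C e1 e2)
    (hb : Bd g' a' b' c' t1' t2' t3' A B C Q) :
    Bd g a b c t1 t2 t3 A B C (e1 ::ₘ e2 ::ₘ Q) := by
  obtain ⟨h1, h2, h3⟩ := h
  obtain ⟨b1, b2, b3⟩ := hb
  refine ⟨?_, ?_, ?_⟩ <;> rw [sm_cons, sm_cons] <;> linarith

theorem step2 {g axy ayz azx awx awy awz tzx tzy tzw txy txz txw tyz tyx tyw : ℤ}
    {bwx bwy bwz uzx uzy uzw uxy uxz uxw uyz uyx uyw : ℤ} (e1 e2 d1 d2 : T4)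
    (hxy : 2 * axy = g) (hyz : 2 * ayz = g) (hzx : 2 * azx = g)
    (k1 : lt X Y e1 + lt X Y e2 = 1) (k2 : lt Y Z e1 + lt Y Z e2 = 1)
    (k3 : lt Z X e1 + lt Z X e2 = 1) (k4 : awx = lt W X e1 + lt W X e2 + bwx)
    (k5 : awy = lt W Y e1 + lt W Y e2 + bwy) (k6 : awz = lt W Z e1 + lt W Z e2 + bwz)
    (l1 : lt X Y d1 + lt X Y d2 = 1) (l2 : lt Y Z d1 + lt Y Z d2 = 1)
    (l3 : lt Z X d1 + lt Z X d2 = 1) (l4 : awx = lt W X d1 + lt W X d2 + bwx)
    (l5 : awy = lt W Y d1 + lt W Y d2 + bwy) (l6 : awz = lt W Z d1 + lt W Z d2 + bwz)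
    (m1 : md X Y Z e1 = 1) (m2 : md X Y Z e2 = 1) (m3 : md Y Z X d1 = 1) (m4 : md Y Z X d2 = 1)
    (a1 : Dr2 g axy (g - awy) awx tzx tzy tzw (g - 2) (axy - 1) (g - 2 - bwy) bwx uzx uzy uzw
      X Y W e1 e2)
    (a2 : Dr2 g ayz (g - awz) awy txy txz txw (g - 2) (ayz - 1) (g - 2 - bwz) bwy uxy uxz uxw
      Y Z W e1 e2)
    (a3 : Dr2 g azx (g - awx) awz tyz tyx tyw (g - 2) (azx - 1) (g - 2 - bwx) bwz uyz uyx uyw
      Z X W e1 e2)
    (b1 : Dr2 g axy (g - awy) awx tzx tzy tzw (g - 2) (axy - 1) (g - 2 - bwy) bwx uzx uzy uzw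
      X Y W d1 d2)
    (b2 : Dr2 g ayz (g - awz) awy txy txz txw (g - 2) (ayz - 1) (g - 2 - bwz) bwy uxy uxz uxw
      Y Z W d1 d2)
    (b3 : Dr2 g azx (g - awx) awz tyz tyx tyw (g - 2) (azx - 1) (g - 2 - bwx) bwz uyz uyx uyw
      Z X W d1 d2)
    (hc : Clo (g - 2) (axy - 1) (ayz - 1) (azx - 1) bwx bwy bwz uzx uzy uzw uxy uxz uxw
      uyz uyx uyw) :
    Clo g axy ayz azx awx awy awz tzx tzy tzw txy txz txw tyz tyx tyw := by
  obtain ⟨sx, sy, sz, hF, hQ⟩ := hc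
  obtain ⟨f1, f2, f3, f4⟩ := hF
  have z1 : azx - 1 + (axy - 1) - (g - 2) = 0 := by linarith
  have z2 : axy - 1 + (ayz - 1) - (g - 2) = 0 := by linarith
  have z3 : ayz - 1 + (azx - 1) - (g - 2) = 0 := by linarith
  have y1 : azx + axy - g = 0 := by linarith
  have y2 : axy + ayz - g = 0 := by linarith
  have y3 : ayz + azx - g = 0 := by linarith
  rw [z1, z2, z3, abs_zero] at f4
  refine ⟨sx + 1, sy, sz, ⟨by linarith, f2, f3, by rw [y1, y2, y3, abs_zero]; linarith⟩, ?_⟩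
  intro p q r hp hq hr hpqr h1 h2 h3
  by_cases hc1 : 1 ≤ q ∧ r ≤ sx + sy
  · obtain ⟨Q, hM, hz, hx, hy⟩ := hQ p (q - 1) r hp (by linarith [hc1.1]) hr (by linarith) h1
      (by linarith) hc1.2
    obtain ⟨n0, n1, n2, n3, n4, n5, n6, n7, n8, n9⟩ := hM
    rw [z1, abs_zero] at n7
    rw [z2, abs_zero] at n8
    rw [z3, abs_zero] at n9
    obtain ⟨u1, u2⟩ := md_mid m1
    obtain ⟨v1, v2⟩ := md_mid m2
    refine ⟨e1 ::ₘ e2 ::ₘ Q, ⟨?_, ?_, ?_, ?_, ?_, ?_, ?_, ?_, ?_, ?_⟩, Bd.add2 a1 hz,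
      Bd.add2 a2 hx, Bd.add2 a3 hy⟩
    · rw [Multiset.card_cons, Multiset.card_cons]; push_cast; linarith
    · rw [sm_cons, sm_cons]; linarith
    · rw [sm_cons, sm_cons]; linarith
    · rw [sm_cons, sm_cons]; linarith
    · rw [sm_cons, sm_cons]; linarith
    · rw [sm_cons, sm_cons]; linarith
    · rw [sm_cons, sm_cons]; linarith
    · rw [sm_cons, sm_cons, y1, abs_zero]; linarith
    · rw [sm_cons, sm_cons, y2, abs_zero]; linarith
    · rw [sm_cons, sm_cons, y3, abs_zero]; linarith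
  · have hc2 : 1 ≤ r ∧ q ≤ sz + sx := by omega
    obtain ⟨Q, hM, hz, hx, hy⟩ := hQ p q (r - 1) hp hq (by linarith [hc2.1]) (by linarith) h1
      hc2.2 (by linarith)
    obtain ⟨n0, n1, n2, n3, n4, n5, n6, n7, n8, n9⟩ := hM
    rw [z1, abs_zero] at n7
    rw [z2, abs_zero] at n8
    rw [z3, abs_zero] at n9
    obtain ⟨u1, u2⟩ := md_mid' m3
    obtain ⟨v1, v2⟩ := md_mid' m4
    refine ⟨d1 ::ₘ d2 ::ₘ Q, ⟨?_, ?_, ?_, ?_, ?_, ?_, ?_, ?_, ?_, ?_⟩, Bd.add2 b1 hz,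
      Bd.add2 b2 hx, Bd.add2 b3 hy⟩
    · rw [Multiset.card_cons, Multiset.card_cons]; push_cast; linarith
    · rw [sm_cons, sm_cons]; linarith
    · rw [sm_cons, sm_cons]; linarith
    · rw [sm_cons, sm_cons]; linarith
    · rw [sm_cons, sm_cons]; linarith
    · rw [sm_cons, sm_cons]; linarith
    · rw [sm_cons, sm_cons]; linarith
    · rw [sm_cons, sm_cons, y1, abs_zero]; linarith
    · rw [sm_cons, sm_cons, y2, abs_zero]; linarith
    · rw [sm_cons, sm_cons, y3, abs_zero]; linarith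

end Pool.Agent.H29.W3
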