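import Pool.Agent.H29.W3.Zero
import Pool.Agent.H29.W3.One

/-!
The cases of `E = 0`.
-/

set_option autoImplicit false
set_option maxHeartbeats 4000000

namespace Pool.Agent.H29.W3

theorem outer0 {g a b c : ℤ} (hg : 2 ≤ g) (ha : 2 * a = g) (hb : 2 * b = g) (hc : 2 * c = g) :
    ∃ s1 s2 s3 : ℤ, Face (g - 2) (a - 1) (b - 1) (c - 1) s1 s2 s3 := by
  refine ⟨a - 1, 0, 0, by linarith, le_refl 0, le_refl 0, ?_⟩
  rw [show c - 1 + (a - 1) - (g - 2) = 0 by linarith, show a - 1 + (b - 1) - (g - 2) = 0 by linarith,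
    show b - 1 + (c - 1) - (g - 2) = 0 by linarith, abs_zero]
  linarith

variable {g axy ayz azx awx awy awz tzx tzy tzw txy txz txw tyz tyx tyw : ℤ}

theorem zA
    (IH : ∀ bxy byz bzx bwx bwy bwz uzx uzy uzw uxy uxz uxw uyz uyx uyw : ℤ,
      VD (g - 2) bxy byz bzx bwx bwy bwz uzx uzy uzw uxy uxz uxw uyz uyx uyw →
      Clo (g - 2) bxy byz bzx bwx bwy bwz uzx uzy uzw uxy uxz uxw uyz uyx uyw)
    (hV : VD g axy ayz azx awx awy awz tzx tzy tzw txy txz txw tyz tyx tyw)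
    (hg : 2 ≤ g) (hxy : 2 * axy = g) (hyz : 2 * ayz = g) (hzx : 2 * azx = g)
    (b1 : axy < awx) (b2 : axy < awy) (b3 : axy < awz) :
    Clo g axy ayz azx awx awy awz tzx tzy tzw txy txz txw tyz tyx tyw := by
  obtain ⟨hz, hx, hy, -⟩ := hV
  obtain ⟨s1, s2, s3, hs⟩ := outer0 hg hxy hyz hzx
  obtain ⟨u1, u2, u3, kz, dz⟩ := peel2_A hz (by linarith) (by linarith)
  obtain ⟨v1, v2, v3, kx, dx⟩ := peel2_A hx (by linarith) (by linarith)
  obtain ⟨q1, q2, q3, ky, dy⟩ := peel2_A hy (by linarith) (by linarith)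
  rw [show g - awy = g - 2 - (awy - 2) by ring] at kz
  rw [show g - awz = g - 2 - (awz - 2) by ring] at kx
  rw [show g - awx = g - 2 - (awx - 2) by ring] at ky
  refine step2 (bwx := awx - 2) (bwy := awy - 2) (bwz := awz - 2) (O.xyz, 0) (O.zyx, 0) (O.xzy, 0) (O.yzx, 0) hxy hyz hzx
    (by decide) (by decide) (by decide) ?_ ?_ ?_ (by decide) (by decide) (by decide) ?_ ?_ ?_
    (by decide) (by decide) (by decide) (by decide) ?_ ?_ ?_ ?_ ?_ ?_
    (IH (axy - 1) (ayz - 1) (azx - 1) (awx - 2) (awy - 2) (awz - 2) u1 u2 u3 v1 v2 v3 q1 q2 q3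
      ⟨kz, kx, ky, s1, s2, s3, hs⟩)
  · rw [show lt W X (O.xyz, 0) = 1 by decide, show lt W X (O.zyx, 0) = 1 by decide]; ring
  · rw [show lt W Y (O.xyz, 0) = 1 by decide, show lt W Y (O.zyx, 0) = 1 by decide]; ring
  · rw [show lt W Z (O.xyz, 0) = 1 by decide, show lt W Z (O.zyx, 0) = 1 by decide]; ring
  · rw [show lt W X (O.xzy, 0) = 1 by decide, show lt W X (O.yzx, 0) = 1 by decide]; ring
  · rw [show lt W Y (O.xzy, 0) = 1 by decide, show lt W Y (O.yzx, 0) = 1 by decide]; ring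
  · rw [show lt W Z (O.xzy, 0) = 1 by decide, show lt W Z (O.yzx, 0) = 1 by decide]; ring
  · unfold Dr2
    rw [show md W X Y (O.xyz, 0) + md W X Y (O.zyx, 0) = 1 by decide,
      show md X Y W (O.xyz, 0) + md X Y W (O.zyx, 0) = 1 by decide,
      show md Y W X (O.xyz, 0) + md Y W X (O.zyx, 0) = 0 by decide,
      show g - 2 - (awy - 2) = g - awy by ring]
    exact dz
  · unfold Dr2
    rw [show md W Y Z (O.xyz, 0) + md W Y Z (O.zyx, 0) = 1 by decide,
      show md Y Z W (O.xyz, 0) + md Y Z W (O.zyx, 0) = 1 by decide,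
      show md Z W Y (O.xyz, 0) + md Z W Y (O.zyx, 0) = 0 by decide,
      show g - 2 - (awz - 2) = g - awz by ring]
    exact dx
  · unfold Dr2
    rw [show md W Z X (O.xyz, 0) + md W Z X (O.zyx, 0) = 1 by decide,
      show md Z X W (O.xyz, 0) + md Z X W (O.zyx, 0) = 1 by decide,
      show md X W Z (O.xyz, 0) + md X W Z (O.zyx, 0) = 0 by decide,
      show g - 2 - (awx - 2) = g - awx by ring]
    exact dy
  · unfold Dr2
    rw [show md W X Y (O.xzy, 0) + md W X Y (O.yzx, 0) = 1 by decide,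
      show md X Y W (O.xzy, 0) + md X Y W (O.yzx, 0) = 1 by decide,
      show md Y W X (O.xzy, 0) + md Y W X (O.yzx, 0) = 0 by decide,
      show g - 2 - (awy - 2) = g - awy by ring]
    exact dz
  · unfold Dr2
    rw [show md W Y Z (O.xzy, 0) + md W Y Z (O.yzx, 0) = 1 by decide,
      show md Y Z W (O.xzy, 0) + md Y Z W (O.yzx, 0) = 1 by decide,
      show md Z W Y (O.xzy, 0) + md Z W Y (O.yzx, 0) = 0 by decide,
      show g - 2 - (awz - 2) = g - awz by ring]
    exact dx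
  · unfold Dr2
    rw [show md W Z X (O.xzy, 0) + md W Z X (O.yzx, 0) = 1 by decide,
      show md Z X W (O.xzy, 0) + md Z X W (O.yzx, 0) = 1 by decide,
      show md X W Z (O.xzy, 0) + md X W Z (O.yzx, 0) = 0 by decide,
      show g - 2 - (awx - 2) = g - awx by ring]
    exact dy

theorem zB
    (IH : ∀ bxy byz bzx bwx bwy bwz uzx uzy uzw uxy uxz uxw uyz uyx uyw : ℤ,
      VD (g - 2) bxy byz bzx bwx bwy bwz uzx uzy uzw uxy uxz uxw uyz uyx uyw →
      Clo (g - 2) bxy byz bzx bwx bwy bwz uzx uzy uzw uxy uxz uxw uyz uyx uyw)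
    (hV : VD g axy ayz azx awx awy awz tzx tzy tzw txy txz txw tyz tyx tyw)
    (hg : 2 ≤ g) (hxy : 2 * axy = g) (hyz : 2 * ayz = g) (hzx : 2 * azx = g)
    (b1 : awx < awy) (b2 : axy < awy) (b3 : axy < awz) (b4 : awx < awz) :
    Clo g axy ayz azx awx awy awz tzx tzy tzw txy txz txw tyz tyx tyw := by
  obtain ⟨hz, hx, hy, -⟩ := hV
  obtain ⟨s1, s2, s3, hs⟩ := outer0 hg hxy hyz hzx
  obtain ⟨u1, u2, u3, kz, dz⟩ := peel2_B hz (by linarith) (by linarith)
  obtain ⟨v1, v2, v3, kx, dx⟩ := peel2_A hx (by linarith) (by linarith)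
  obtain ⟨q1, q2, q3, ky, dy⟩ := peel2_C hy (by linarith) (by linarith)
  rw [show g - awy = g - 2 - (awy - 2) by ring] at kz
  rw [show g - awz = g - 2 - (awz - 2) by ring] at kx
  rw [show g - awx - 1 = g - 2 - (awx - 1) by ring] at ky
  refine step2 (bwx := awx - 1) (bwy := awy - 2) (bwz := awz - 2) (O.zyx, 0) (O.xyz, 1) (O.yzx, 0) (O.xzy, 1) hxy hyz hzx
    (by decide) (by decide) (by decide) ?_ ?_ ?_ (by decide) (by decide) (by decide) ?_ ?_ ?_
    (by decide) (by decide) (by decide) (by decide) ?_ ?_ ?_ ?_ ?_ ?_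
    (IH (axy - 1) (ayz - 1) (azx - 1) (awx - 1) (awy - 2) (awz - 2) u1 u2 u3 v1 v2 v3 q1 q2 q3
      ⟨kz, kx, ky, s1, s2, s3, hs⟩)
  · rw [show lt W X (O.zyx, 0) = 1 by decide, show lt W X (O.xyz, 1) = 0 by decide]; ring
  · rw [show lt W Y (O.zyx, 0) = 1 by decide, show lt W Y (O.xyz, 1) = 1 by decide]; ring
  · rw [show lt W Z (O.zyx, 0) = 1 by decide, show lt W Z (O.xyz, 1) = 1 by decide]; ring
  · rw [show lt W X (O.yzx, 0) = 1 by decide, show lt W X (O.xzy, 1) = 0 by decide]; ring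
  · rw [show lt W Y (O.yzx, 0) = 1 by decide, show lt W Y (O.xzy, 1) = 1 by decide]; ring
  · rw [show lt W Z (O.yzx, 0) = 1 by decide, show lt W Z (O.xzy, 1) = 1 by decide]; ring
  · unfold Dr2
    rw [show md W X Y (O.zyx, 0) + md W X Y (O.xyz, 1) = 0 by decide,
      show md X Y W (O.zyx, 0) + md X Y W (O.xyz, 1) = 1 by decide,
      show md Y W X (O.zyx, 0) + md Y W X (O.xyz, 1) = 1 by decide,
      show g - 2 - (awy - 2) = g - awy by ring]
    exact dz
  · unfold Dr2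
    rw [show md W Y Z (O.zyx, 0) + md W Y Z (O.xyz, 1) = 1 by decide,
      show md Y Z W (O.zyx, 0) + md Y Z W (O.xyz, 1) = 1 by decide,
      show md Z W Y (O.zyx, 0) + md Z W Y (O.xyz, 1) = 0 by decide,
      show g - 2 - (awz - 2) = g - awz by ring]
    exact dx
  · unfold Dr2
    rw [show md W Z X (O.zyx, 0) + md W Z X (O.xyz, 1) = 1 by decide,
      show md Z X W (O.zyx, 0) + md Z X W (O.xyz, 1) = 0 by decide,
      show md X W Z (O.zyx, 0) + md X W Z (O.xyz, 1) = 1 by decide,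
      show g - 2 - (awx - 1) = g - awx - 1 by ring]
    exact dy
  · unfold Dr2
    rw [show md W X Y (O.yzx, 0) + md W X Y (O.xzy, 1) = 0 by decide,
      show md X Y W (O.yzx, 0) + md X Y W (O.xzy, 1) = 1 by decide,
      show md Y W X (O.yzx, 0) + md Y W X (O.xzy, 1) = 1 by decide,
      show g - 2 - (awy - 2) = g - awy by ring]
    exact dz
  · unfold Dr2
    rw [show md W Y Z (O.yzx, 0) + md W Y Z (O.xzy, 1) = 1 by decide,
      show md Y Z W (O.yzx, 0) + md Y Z W (O.xzy, 1) = 1 by decide,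
      show md Z W Y (O.yzx, 0) + md Z W Y (O.xzy, 1) = 0 by decide,
      show g - 2 - (awz - 2) = g - awz by ring]
    exact dx
  · unfold Dr2
    rw [show md W Z X (O.yzx, 0) + md W Z X (O.xzy, 1) = 1 by decide,
      show md Z X W (O.yzx, 0) + md Z X W (O.xzy, 1) = 0 by decide,
      show md X W Z (O.yzx, 0) + md X W Z (O.xzy, 1) = 1 by decide,
      show g - 2 - (awx - 1) = g - awx - 1 by ring]
    exact dy

theorem zC1
    (IH : ∀ bxy byz bzx bwx bwy bwz uzx uzy uzw uxy uxz uxw uyz uyx uyw : ℤ,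
      VD (g - 2) bxy byz bzx bwx bwy bwz uzx uzy uzw uxy uxz uxw uyz uyx uyw →
      Clo (g - 2) bxy byz bzx bwx bwy bwz uzx uzy uzw uxy uxz uxw uyz uyx uyw)
    (hV : VD g axy ayz azx awx awy awz tzx tzy tzw txy txz txw tyz tyx tyw)
    (hg : 2 ≤ g) (hxy : 2 * axy = g) (hyz : 2 * ayz = g) (hzx : 2 * azx = g)
    (b1 : axy < awx) (b2 : awy < awx) (b3 : awz < awx) (ht : 1 ≤ txw) :
    Clo g axy ayz azx awx awy awz tzx tzy tzw txy txz txw tyz tyx tyw := by
  obtain ⟨hz, hx, hy, -⟩ := hV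
  obtain ⟨s1, s2, s3, hs⟩ := outer0 hg hxy hyz hzx
  obtain ⟨u1, u2, u3, kz, dz⟩ := peel2_C hz (by linarith) (by linarith)
  obtain ⟨kx, dx, dx2⟩ := peel2_D3 hx (by linarith)
  obtain ⟨q1, q2, q3, ky, dy⟩ := peel2_B hy (by linarith) (by linarith)
  rw [show g - awy - 1 = g - 2 - (awy - 1) by ring] at kz
  rw [show g - awz - 1 = g - 2 - (awz - 1) by ring] at kx
  rw [show g - awx = g - 2 - (awx - 2) by ring] at ky
  refine step2 (bwx := awx - 2) (bwy := awy - 1) (bwz := awz - 1) (O.xyz, 0) (O.zyx, 2) (O.xzy, 0) (O.yzx, 2) hxy hyz hzx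
    (by decide) (by decide) (by decide) ?_ ?_ ?_ (by decide) (by decide) (by decide) ?_ ?_ ?_
    (by decide) (by decide) (by decide) (by decide) ?_ ?_ ?_ ?_ ?_ ?_
    (IH (axy - 1) (ayz - 1) (azx - 1) (awx - 2) (awy - 1) (awz - 1) u1 u2 u3 txy txz (txw - 1) q1 q2 q3
      ⟨kz, kx, ky, s1, s2, s3, hs⟩)
  · rw [show lt W X (O.xyz, 0) = 1 by decide, show lt W X (O.zyx, 2) = 1 by decide]; ring
  · rw [show lt W Y (O.xyz, 0) = 1 by decide, show lt W Y (O.zyx, 2) = 0 by decide]; ring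
  · rw [show lt W Z (O.xyz, 0) = 1 by decide, show lt W Z (O.zyx, 2) = 0 by decide]; ring
  · rw [show lt W X (O.xzy, 0) = 1 by decide, show lt W X (O.yzx, 2) = 1 by decide]; ring
  · rw [show lt W Y (O.xzy, 0) = 1 by decide, show lt W Y (O.yzx, 2) = 0 by decide]; ring
  · rw [show lt W Z (O.xzy, 0) = 1 by decide, show lt W Z (O.yzx, 2) = 0 by decide]; ring
  · unfold Dr2
    rw [show md W X Y (O.xyz, 0) + md W X Y (O.zyx, 2) = 1 by decide,
      show md X Y W (O.xyz, 0) + md X Y W (O.zyx, 2) = 0 by decide,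
      show md Y W X (O.xyz, 0) + md Y W X (O.zyx, 2) = 1 by decide,
      show g - 2 - (awy - 1) = g - awy - 1 by ring]
    exact dz
  · unfold Dr2
    rw [show md W Y Z (O.xyz, 0) + md W Y Z (O.zyx, 2) = 2 by decide,
      show md Y Z W (O.xyz, 0) + md Y Z W (O.zyx, 2) = 0 by decide,
      show md Z W Y (O.xyz, 0) + md Z W Y (O.zyx, 2) = 0 by decide,
      show g - 2 - (awz - 1) = g - awz - 1 by ring]
    exact dx
  · unfold Dr2
    rw [show md W Z X (O.xyz, 0) + md W Z X (O.zyx, 2) = 0 by decide,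
      show md Z X W (O.xyz, 0) + md Z X W (O.zyx, 2) = 1 by decide,
      show md X W Z (O.xyz, 0) + md X W Z (O.zyx, 2) = 1 by decide,
      show g - 2 - (awx - 2) = g - awx by ring]
    exact dy
  · unfold Dr2
    rw [show md W X Y (O.xzy, 0) + md W X Y (O.yzx, 2) = 1 by decide,
      show md X Y W (O.xzy, 0) + md X Y W (O.yzx, 2) = 0 by decide,
      show md Y W X (O.xzy, 0) + md Y W X (O.yzx, 2) = 1 by decide,
      show g - 2 - (awy - 1) = g - awy - 1 by ring]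
    exact dz
  · unfold Dr2
    rw [show md W Y Z (O.xzy, 0) + md W Y Z (O.yzx, 2) = 0 by decide,
      show md Y Z W (O.xzy, 0) + md Y Z W (O.yzx, 2) = 2 by decide,
      show md Z W Y (O.xzy, 0) + md Z W Y (O.yzx, 2) = 0 by decide,
      show g - 2 - (awz - 1) = g - awz - 1 by ring]
    exact dx2
  · unfold Dr2
    rw [show md W Z X (O.xzy, 0) + md W Z X (O.yzx, 2) = 0 by decide,
      show md Z X W (O.xzy, 0) + md Z X W (O.yzx, 2) = 1 by decide,
      show md X W Z (O.xzy, 0) + md X W Z (O.yzx, 2) = 1 by decide,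
      show g - 2 - (awx - 2) = g - awx by ring]
    exact dy

theorem zC2
    (IH : ∀ bxy byz bzx bwx bwy bwz uzx uzy uzw uxy uxz uxw uyz uyx uyw : ℤ,
      VD (g - 2) bxy byz bzx bwx bwy bwz uzx uzy uzw uxy uxz uxw uyz uyx uyw →
      Clo (g - 2) bxy byz bzx bwx bwy bwz uzx uzy uzw uxy uxz uxw uyz uyx uyw)
    (hV : VD g axy ayz azx awx awy awz tzx tzy tzw txy txz txw tyz tyx tyw)
    (hg : 2 ≤ g) (hxy : 2 * axy = g) (hyz : 2 * ayz = g) (hzx : 2 * azx = g)
    (b1 : axy < awy) (b2 : awx < awy) (b3 : awz < awy) (ht : 1 ≤ tyx) :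
    Clo g axy ayz azx awx awy awz tzx tzy tzw txy txz txw tyz tyx tyw := by
  obtain ⟨hz, hx, hy, -⟩ := hV
  obtain ⟨s1, s2, s3, hs⟩ := outer0 hg hxy hyz hzx
  obtain ⟨u1, u2, u3, kz, dz⟩ := peel2_B hz (by linarith) (by linarith)
  obtain ⟨v1, v2, v3, kx, dx⟩ := peel2_C hx (by linarith) (by linarith)
  obtain ⟨ky, dy, dy2⟩ := peel2_D2 hy (by linarith)
  rw [show g - awy = g - 2 - (awy - 2) by ring] at kz
  rw [show g - awz - 1 = g - 2 - (awz - 1) by ring] at kx
  rw [show g - awx - 1 = g - 2 - (awx - 1) by ring] at ky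
  refine step2 (bwx := awx - 1) (bwy := awy - 2) (bwz := awz - 1) (O.xyz, 1) (O.zyx, 1) (O.yzx, 0) (O.xzy, 2) hxy hyz hzx
    (by decide) (by decide) (by decide) ?_ ?_ ?_ (by decide) (by decide) (by decide) ?_ ?_ ?_
    (by decide) (by decide) (by decide) (by decide) ?_ ?_ ?_ ?_ ?_ ?_
    (IH (axy - 1) (ayz - 1) (azx - 1) (awx - 1) (awy - 2) (awz - 1) u1 u2 u3 v1 v2 v3 tyz (tyx - 1) tyw
      ⟨kz, kx, ky, s1, s2, s3, hs⟩)
  · rw [show lt W X (O.xyz, 1) = 0 by decide, show lt W X (O.zyx, 1) = 1 by decide]; ring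
  · rw [show lt W Y (O.xyz, 1) = 1 by decide, show lt W Y (O.zyx, 1) = 1 by decide]; ring
  · rw [show lt W Z (O.xyz, 1) = 1 by decide, show lt W Z (O.zyx, 1) = 0 by decide]; ring
  · rw [show lt W X (O.yzx, 0) = 1 by decide, show lt W X (O.xzy, 2) = 0 by decide]; ring
  · rw [show lt W Y (O.yzx, 0) = 1 by decide, show lt W Y (O.xzy, 2) = 1 by decide]; ring
  · rw [show lt W Z (O.yzx, 0) = 1 by decide, show lt W Z (O.xzy, 2) = 0 by decide]; ring
  · unfold Dr2
    rw [show md W X Y (O.xyz, 1) + md W X Y (O.zyx, 1) = 0 by decide,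
      show md X Y W (O.xyz, 1) + md X Y W (O.zyx, 1) = 1 by decide,
      show md Y W X (O.xyz, 1) + md Y W X (O.zyx, 1) = 1 by decide,
      show g - 2 - (awy - 2) = g - awy by ring]
    exact dz
  · unfold Dr2
    rw [show md W Y Z (O.xyz, 1) + md W Y Z (O.zyx, 1) = 1 by decide,
      show md Y Z W (O.xyz, 1) + md Y Z W (O.zyx, 1) = 0 by decide,
      show md Z W Y (O.xyz, 1) + md Z W Y (O.zyx, 1) = 1 by decide,
      show g - 2 - (awz - 1) = g - awz - 1 by ring]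
    exact dx
  · unfold Dr2
    rw [show md W Z X (O.xyz, 1) + md W Z X (O.zyx, 1) = 0 by decide,
      show md Z X W (O.xyz, 1) + md Z X W (O.zyx, 1) = 0 by decide,
      show md X W Z (O.xyz, 1) + md X W Z (O.zyx, 1) = 2 by decide,
      show g - 2 - (awx - 1) = g - awx - 1 by ring]
    exact dy2
  · unfold Dr2
    rw [show md W X Y (O.yzx, 0) + md W X Y (O.xzy, 2) = 0 by decide,
      show md X Y W (O.yzx, 0) + md X Y W (O.xzy, 2) = 1 by decide,
      show md Y W X (O.yzx, 0) + md Y W X (O.xzy, 2) = 1 by decide,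
      show g - 2 - (awy - 2) = g - awy by ring]
    exact dz
  · unfold Dr2
    rw [show md W Y Z (O.yzx, 0) + md W Y Z (O.xzy, 2) = 1 by decide,
      show md Y Z W (O.yzx, 0) + md Y Z W (O.xzy, 2) = 0 by decide,
      show md Z W Y (O.yzx, 0) + md Z W Y (O.xzy, 2) = 1 by decide,
      show g - 2 - (awz - 1) = g - awz - 1 by ring]
    exact dx
  · unfold Dr2
    rw [show md W Z X (O.yzx, 0) + md W Z X (O.xzy, 2) = 2 by decide,
      show md Z X W (O.yzx, 0) + md Z X W (O.xzy, 2) = 0 by decide,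
      show md X W Z (O.yzx, 0) + md X W Z (O.xzy, 2) = 0 by decide,
      show g - 2 - (awx - 1) = g - awx - 1 by ring]
    exact dy

end Pool.Agent.H29.W3
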