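import Pool.Agent.H29.W3.ZCases

/-!
The case of `E = 0` with all `w`-marginals equal to `g / 2`.
-/

set_option autoImplicit false
set_option maxHeartbeats 4000000

namespace Pool.Agent.H29.W3

variable {g axy ayz azx awx awy awz tzx tzy tzw txy txz txw tyz tyx tyw : ℤ}

theorem zD_xyz
    (IH : ∀ bxy byz bzx bwx bwy bwz uzx uzy uzw uxy uxz uxw uyz uyx uyw : ℤ,
      VD (g - 2) bxy byz bzx bwx bwy bwz uzx uzy uzw uxy uxz uxw uyz uyx uyw →
      Clo (g - 2) bxy byz bzx bwx bwy bwz uzx uzy uzw uxy uxz uxw uyz uyx uyw)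
    (hV : VD g axy ayz azx awx awy awz tzx tzy tzw txy txz txw tyz tyx tyw)
    (hg : 2 ≤ g) (hxy : 2 * axy = g) (hyz : 2 * ayz = g) (hzx : 2 * azx = g)
    (ht1 : 1 ≤ tzx) (ht2 : 1 ≤ txy) (ht3 : 1 ≤ tyz) :
    Clo g axy ayz azx awx awy awz tzx tzy tzw txy txz txw tyz tyx tyw := by
  obtain ⟨hz, hx, hy, -⟩ := hV
  obtain ⟨s1, s2, s3, hs⟩ := outer0 hg hxy hyz hzx
  obtain ⟨kz, dz, dz2⟩ := peel2_D1 hz (by linarith)
  obtain ⟨kx, dx, dx2⟩ := peel2_D1 hx (by linarith)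
  obtain ⟨ky, dy, dy2⟩ := peel2_D1 hy (by linarith)
  rw [show g - awy - 1 = g - 2 - (awy - 1) by ring] at kz
  rw [show g - awz - 1 = g - 2 - (awz - 1) by ring] at kx
  rw [show g - awx - 1 = g - 2 - (awx - 1) by ring] at ky
  refine step2 (bwx := awx - 1) (bwy := awy - 1) (bwz := awz - 1) (O.xyz, 2) (O.zyx, 1) (O.yzx, 2) (O.xzy, 1) hxy hyz hzx
    (by decide) (by decide) (by decide) ?_ ?_ ?_ (by decide) (by decide) (by decide) ?_ ?_ ?_
    (by decide) (by decide) (by decide) (by decide) ?_ ?_ ?_ ?_ ?_ ?_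
    (IH (axy - 1) (ayz - 1) (azx - 1) (awx - 1) (awy - 1) (awz - 1) (tzx - 1) tzy tzw (txy - 1) txz txw (tyz - 1) tyx tyw
      ⟨kz, kx, ky, s1, s2, s3, hs⟩)
  · rw [show lt W X (O.xyz, 2) = 0 by decide, show lt W X (O.zyx, 1) = 1 by decide]; ring
  · rw [show lt W Y (O.xyz, 2) = 0 by decide, show lt W Y (O.zyx, 1) = 1 by decide]; ring
  · rw [show lt W Z (O.xyz, 2) = 1 by decide, show lt W Z (O.zyx, 1) = 0 by decide]; ring
  · rw [show lt W X (O.yzx, 2) = 1 by decide, show lt W X (O.xzy, 1) = 0 by decide]; ring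
  · rw [show lt W Y (O.yzx, 2) = 0 by decide, show lt W Y (O.xzy, 1) = 1 by decide]; ring
  · rw [show lt W Z (O.yzx, 2) = 0 by decide, show lt W Z (O.xzy, 1) = 1 by decide]; ring
  · unfold Dr2
    rw [show md W X Y (O.xyz, 2) + md W X Y (O.zyx, 1) = 0 by decide,
      show md X Y W (O.xyz, 2) + md X Y W (O.zyx, 1) = 2 by decide,
      show md Y W X (O.xyz, 2) + md Y W X (O.zyx, 1) = 0 by decide,
      show g - 2 - (awy - 1) = g - awy - 1 by ring]
    exact dz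
  · unfold Dr2
    rw [show md W Y Z (O.xyz, 2) + md W Y Z (O.zyx, 1) = 0 by decide,
      show md Y Z W (O.xyz, 2) + md Y Z W (O.zyx, 1) = 0 by decide,
      show md Z W Y (O.xyz, 2) + md Z W Y (O.zyx, 1) = 2 by decide,
      show g - 2 - (awz - 1) = g - awz - 1 by ring]
    exact dx2
  · unfold Dr2
    rw [show md W Z X (O.xyz, 2) + md W Z X (O.zyx, 1) = 0 by decide,
      show md Z X W (O.xyz, 2) + md Z X W (O.zyx, 1) = 0 by decide,
      show md X W Z (O.xyz, 2) + md X W Z (O.zyx, 1) = 2 by decide,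
      show g - 2 - (awx - 1) = g - awx - 1 by ring]
    exact dy2
  · unfold Dr2
    rw [show md W X Y (O.yzx, 2) + md W X Y (O.xzy, 1) = 0 by decide,
      show md X Y W (O.yzx, 2) + md X Y W (O.xzy, 1) = 0 by decide,
      show md Y W X (O.yzx, 2) + md Y W X (O.xzy, 1) = 2 by decide,
      show g - 2 - (awy - 1) = g - awy - 1 by ring]
    exact dz2
  · unfold Dr2
    rw [show md W Y Z (O.yzx, 2) + md W Y Z (O.xzy, 1) = 0 by decide,
      show md Y Z W (O.yzx, 2) + md Y Z W (O.xzy, 1) = 2 by decide,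
      show md Z W Y (O.yzx, 2) + md Z W Y (O.xzy, 1) = 0 by decide,
      show g - 2 - (awz - 1) = g - awz - 1 by ring]
    exact dx
  · unfold Dr2
    rw [show md W Z X (O.yzx, 2) + md W Z X (O.xzy, 1) = 0 by decide,
      show md Z X W (O.yzx, 2) + md Z X W (O.xzy, 1) = 0 by decide,
      show md X W Z (O.yzx, 2) + md X W Z (O.xzy, 1) = 2 by decide,
      show g - 2 - (awx - 1) = g - awx - 1 by ring]
    exact dy2

theorem zD_xyx
    (IH : ∀ bxy byz bzx bwx bwy bwz uzx uzy uzw uxy uxz uxw uyz uyx uyw : ℤ,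
      VD (g - 2) bxy byz bzx bwx bwy bwz uzx uzy uzw uxy uxz uxw uyz uyx uyw →
      Clo (g - 2) bxy byz bzx bwx bwy bwz uzx uzy uzw uxy uxz uxw uyz uyx uyw)
    (hV : VD g axy ayz azx awx awy awz tzx tzy tzw txy txz txw tyz tyx tyw)
    (hg : 2 ≤ g) (hxy : 2 * axy = g) (hyz : 2 * ayz = g) (hzx : 2 * azx = g)
    (ht1 : 1 ≤ tzx) (ht2 : 1 ≤ txy) (ht3 : 1 ≤ tyx) :
    Clo g axy ayz azx awx awy awz tzx tzy tzw txy txz txw tyz tyx tyw := by
  obtain ⟨hz, hx, hy, -⟩ := hV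
  obtain ⟨s1, s2, s3, hs⟩ := outer0 hg hxy hyz hzx
  obtain ⟨kz, dz, dz2⟩ := peel2_D1 hz (by linarith)
  obtain ⟨kx, dx, dx2⟩ := peel2_D1 hx (by linarith)
  obtain ⟨ky, dy, dy2⟩ := peel2_D2 hy (by linarith)
  rw [show g - awy - 1 = g - 2 - (awy - 1) by ring] at kz
  rw [show g - awz - 1 = g - 2 - (awz - 1) by ring] at kx
  rw [show g - awx - 1 = g - 2 - (awx - 1) by ring] at ky
  refine step2 (bwx := awx - 1) (bwy := awy - 1) (bwz := awz - 1) (O.xyz, 2) (O.zyx, 1) (O.yzx, 1) (O.xzy, 2) hxy hyz hzx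
    (by decide) (by decide) (by decide) ?_ ?_ ?_ (by decide) (by decide) (by decide) ?_ ?_ ?_
    (by decide) (by decide) (by decide) (by decide) ?_ ?_ ?_ ?_ ?_ ?_
    (IH (axy - 1) (ayz - 1) (azx - 1) (awx - 1) (awy - 1) (awz - 1) (tzx - 1) tzy tzw (txy - 1) txz txw tyz (tyx - 1) tyw
      ⟨kz, kx, ky, s1, s2, s3, hs⟩)
  · rw [show lt W X (O.xyz, 2) = 0 by decide, show lt W X (O.zyx, 1) = 1 by decide]; ring
  · rw [show lt W Y (O.xyz, 2) = 0 by decide, show lt W Y (O.zyx, 1) = 1 by decide]; ring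
  · rw [show lt W Z (O.xyz, 2) = 1 by decide, show lt W Z (O.zyx, 1) = 0 by decide]; ring
  · rw [show lt W X (O.yzx, 1) = 1 by decide, show lt W X (O.xzy, 2) = 0 by decide]; ring
  · rw [show lt W Y (O.yzx, 1) = 0 by decide, show lt W Y (O.xzy, 2) = 1 by decide]; ring
  · rw [show lt W Z (O.yzx, 1) = 1 by decide, show lt W Z (O.xzy, 2) = 0 by decide]; ring
  · unfold Dr2
    rw [show md W X Y (O.xyz, 2) + md W X Y (O.zyx, 1) = 0 by decide,
      show md X Y W (O.xyz, 2) + md X Y W (O.zyx, 1) = 2 by decide,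
      show md Y W X (O.xyz, 2) + md Y W X (O.zyx, 1) = 0 by decide,
      show g - 2 - (awy - 1) = g - awy - 1 by ring]
    exact dz
  · unfold Dr2
    rw [show md W Y Z (O.xyz, 2) + md W Y Z (O.zyx, 1) = 0 by decide,
      show md Y Z W (O.xyz, 2) + md Y Z W (O.zyx, 1) = 0 by decide,
      show md Z W Y (O.xyz, 2) + md Z W Y (O.zyx, 1) = 2 by decide,
      show g - 2 - (awz - 1) = g - awz - 1 by ring]
    exact dx2
  · unfold Dr2
    rw [show md W Z X (O.xyz, 2) + md W Z X (O.zyx, 1) = 0 by decide,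
      show md Z X W (O.xyz, 2) + md Z X W (O.zyx, 1) = 0 by decide,
      show md X W Z (O.xyz, 2) + md X W Z (O.zyx, 1) = 2 by decide,
      show g - 2 - (awx - 1) = g - awx - 1 by ring]
    exact dy2
  · unfold Dr2
    rw [show md W X Y (O.yzx, 1) + md W X Y (O.xzy, 2) = 0 by decide,
      show md X Y W (O.yzx, 1) + md X Y W (O.xzy, 2) = 0 by decide,
      show md Y W X (O.yzx, 1) + md Y W X (O.xzy, 2) = 2 by decide,
      show g - 2 - (awy - 1) = g - awy - 1 by ring]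
    exact dz2
  · unfold Dr2
    rw [show md W Y Z (O.yzx, 1) + md W Y Z (O.xzy, 2) = 0 by decide,
      show md Y Z W (O.yzx, 1) + md Y Z W (O.xzy, 2) = 0 by decide,
      show md Z W Y (O.yzx, 1) + md Z W Y (O.xzy, 2) = 2 by decide,
      show g - 2 - (awz - 1) = g - awz - 1 by ring]
    exact dx2
  · unfold Dr2
    rw [show md W Z X (O.yzx, 1) + md W Z X (O.xzy, 2) = 2 by decide,
      show md Z X W (O.yzx, 1) + md Z X W (O.xzy, 2) = 0 by decide,
      show md X W Z (O.yzx, 1) + md X W Z (O.xzy, 2) = 0 by decide,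
      show g - 2 - (awx - 1) = g - awx - 1 by ring]
    exact dy

theorem zD_xyw
    (IH : ∀ bxy byz bzx bwx bwy bwz uzx uzy uzw uxy uxz uxw uyz uyx uyw : ℤ,
      VD (g - 2) bxy byz bzx bwx bwy bwz uzx uzy uzw uxy uxz uxw uyz uyx uyw →
      Clo (g - 2) bxy byz bzx bwx bwy bwz uzx uzy uzw uxy uxz uxw uyz uyx uyw)
    (hV : VD g axy ayz azx awx awy awz tzx tzy tzw txy txz txw tyz tyx tyw)
    (hg : 2 ≤ g) (hxy : 2 * axy = g) (hyz : 2 * ayz = g) (hzx : 2 * azx = g)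
    (ht1 : 1 ≤ tzx) (ht2 : 1 ≤ txy) (ht3 : 1 ≤ tyw) :
    Clo g axy ayz azx awx awy awz tzx tzy tzw txy txz txw tyz tyx tyw := by
  obtain ⟨hz, hx, hy, -⟩ := hV
  obtain ⟨s1, s2, s3, hs⟩ := outer0 hg hxy hyz hzx
  obtain ⟨kz, dz, dz2⟩ := peel2_D1 hz (by linarith)
  obtain ⟨kx, dx, dx2⟩ := peel2_D1 hx (by linarith)
  obtain ⟨ky, dy, dy2⟩ := peel2_D3 hy (by linarith)
  rw [show g - awy - 1 = g - 2 - (awy - 1) by ring] at kz
  rw [show g - awz - 1 = g - 2 - (awz - 1) by ring] at kx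
  rw [show g - awx - 1 = g - 2 - (awx - 1) by ring] at ky
  refine step2 (bwx := awx - 1) (bwy := awy - 1) (bwz := awz - 1) (O.xyz, 3) (O.zyx, 0) (O.yzx, 1) (O.xzy, 2) hxy hyz hzx
    (by decide) (by decide) (by decide) ?_ ?_ ?_ (by decide) (by decide) (by decide) ?_ ?_ ?_
    (by decide) (by decide) (by decide) (by decide) ?_ ?_ ?_ ?_ ?_ ?_
    (IH (axy - 1) (ayz - 1) (azx - 1) (awx - 1) (awy - 1) (awz - 1) (tzx - 1) tzy tzw (txy - 1) txz txw tyz tyx (tyw - 1)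
      ⟨kz, kx, ky, s1, s2, s3, hs⟩)
  · rw [show lt W X (O.xyz, 3) = 0 by decide, show lt W X (O.zyx, 0) = 1 by decide]; ring
  · rw [show lt W Y (O.xyz, 3) = 0 by decide, show lt W Y (O.zyx, 0) = 1 by decide]; ring
  · rw [show lt W Z (O.xyz, 3) = 0 by decide, show lt W Z (O.zyx, 0) = 1 by decide]; ring
  · rw [show lt W X (O.yzx, 1) = 1 by decide, show lt W X (O.xzy, 2) = 0 by decide]; ring
  · rw [show lt W Y (O.yzx, 1) = 0 by decide, show lt W Y (O.xzy, 2) = 1 by decide]; ring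
  · rw [show lt W Z (O.yzx, 1) = 1 by decide, show lt W Z (O.xzy, 2) = 0 by decide]; ring
  · unfold Dr2
    rw [show md W X Y (O.xyz, 3) + md W X Y (O.zyx, 0) = 0 by decide,
      show md X Y W (O.xyz, 3) + md X Y W (O.zyx, 0) = 2 by decide,
      show md Y W X (O.xyz, 3) + md Y W X (O.zyx, 0) = 0 by decide,
      show g - 2 - (awy - 1) = g - awy - 1 by ring]
    exact dz
  · unfold Dr2
    rw [show md W Y Z (O.xyz, 3) + md W Y Z (O.zyx, 0) = 0 by decide,
      show md Y Z W (O.xyz, 3) + md Y Z W (O.zyx, 0) = 2 by decide,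
      show md Z W Y (O.xyz, 3) + md Z W Y (O.zyx, 0) = 0 by decide,
      show g - 2 - (awz - 1) = g - awz - 1 by ring]
    exact dx
  · unfold Dr2
    rw [show md W Z X (O.xyz, 3) + md W Z X (O.zyx, 0) = 2 by decide,
      show md Z X W (O.xyz, 3) + md Z X W (O.zyx, 0) = 0 by decide,
      show md X W Z (O.xyz, 3) + md X W Z (O.zyx, 0) = 0 by decide,
      show g - 2 - (awx - 1) = g - awx - 1 by ring]
    exact dy
  · unfold Dr2
    rw [show md W X Y (O.yzx, 1) + md W X Y (O.xzy, 2) = 0 by decide,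
      show md X Y W (O.yzx, 1) + md X Y W (O.xzy, 2) = 0 by decide,
      show md Y W X (O.yzx, 1) + md Y W X (O.xzy, 2) = 2 by decide,
      show g - 2 - (awy - 1) = g - awy - 1 by ring]
    exact dz2
  · unfold Dr2
    rw [show md W Y Z (O.yzx, 1) + md W Y Z (O.xzy, 2) = 0 by decide,
      show md Y Z W (O.yzx, 1) + md Y Z W (O.xzy, 2) = 0 by decide,
      show md Z W Y (O.yzx, 1) + md Z W Y (O.xzy, 2) = 2 by decide,
      show g - 2 - (awz - 1) = g - awz - 1 by ring]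
    exact dx2
  · unfold Dr2
    rw [show md W Z X (O.yzx, 1) + md W Z X (O.xzy, 2) = 2 by decide,
      show md Z X W (O.yzx, 1) + md Z X W (O.xzy, 2) = 0 by decide,
      show md X W Z (O.yzx, 1) + md X W Z (O.xzy, 2) = 0 by decide,
      show g - 2 - (awx - 1) = g - awx - 1 by ring]
    exact dy

theorem zD_xzx
    (IH : ∀ bxy byz bzx bwx bwy bwz uzx uzy uzw uxy uxz uxw uyz uyx uyw : ℤ,
      VD (g - 2) bxy byz bzx bwx bwy bwz uzx uzy uzw uxy uxz uxw uyz uyx uyw →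
      Clo (g - 2) bxy byz bzx bwx bwy bwz uzx uzy uzw uxy uxz uxw uyz uyx uyw)
    (hV : VD g axy ayz azx awx awy awz tzx tzy tzw txy txz txw tyz tyx tyw)
    (hg : 2 ≤ g) (hxy : 2 * axy = g) (hyz : 2 * ayz = g) (hzx : 2 * azx = g)
    (ht1 : 1 ≤ tzx) (ht2 : 1 ≤ txz) (ht3 : 1 ≤ tyx) :
    Clo g axy ayz azx awx awy awz tzx tzy tzw txy txz txw tyz tyx tyw := by
  obtain ⟨hz, hx, hy, -⟩ := hV
  obtain ⟨s1, s2, s3, hs⟩ := outer0 hg hxy hyz hzx
  obtain ⟨kz, dz, dz2⟩ := peel2_D1 hz (by linarith)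
  obtain ⟨kx, dx, dx2⟩ := peel2_D2 hx (by linarith)
  obtain ⟨ky, dy, dy2⟩ := peel2_D2 hy (by linarith)
  rw [show g - awy - 1 = g - 2 - (awy - 1) by ring] at kz
  rw [show g - awz - 1 = g - 2 - (awz - 1) by ring] at kx
  rw [show g - awx - 1 = g - 2 - (awx - 1) by ring] at ky
  refine step2 (bwx := awx - 1) (bwy := awy - 1) (bwz := awz - 1) (O.xyz, 1) (O.zyx, 2) (O.yzx, 0) (O.xzy, 3) hxy hyz hzx
    (by decide) (by decide) (by decide) ?_ ?_ ?_ (by decide) (by decide) (by decide) ?_ ?_ ?_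
    (by decide) (by decide) (by decide) (by decide) ?_ ?_ ?_ ?_ ?_ ?_
    (IH (axy - 1) (ayz - 1) (azx - 1) (awx - 1) (awy - 1) (awz - 1) (tzx - 1) tzy tzw txy (txz - 1) txw tyz (tyx - 1) tyw
      ⟨kz, kx, ky, s1, s2, s3, hs⟩)
  · rw [show lt W X (O.xyz, 1) = 0 by decide, show lt W X (O.zyx, 2) = 1 by decide]; ring
  · rw [show lt W Y (O.xyz, 1) = 1 by decide, show lt W Y (O.zyx, 2) = 0 by decide]; ring
  · rw [show lt W Z (O.xyz, 1) = 1 by decide, show lt W Z (O.zyx, 2) = 0 by decide]; ring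
  · rw [show lt W X (O.yzx, 0) = 1 by decide, show lt W X (O.xzy, 3) = 0 by decide]; ring
  · rw [show lt W Y (O.yzx, 0) = 1 by decide, show lt W Y (O.xzy, 3) = 0 by decide]; ring
  · rw [show lt W Z (O.yzx, 0) = 1 by decide, show lt W Z (O.xzy, 3) = 0 by decide]; ring
  · unfold Dr2
    rw [show md W X Y (O.xyz, 1) + md W X Y (O.zyx, 2) = 0 by decide,
      show md X Y W (O.xyz, 1) + md X Y W (O.zyx, 2) = 0 by decide,
      show md Y W X (O.xyz, 1) + md Y W X (O.zyx, 2) = 2 by decide,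
      show g - 2 - (awy - 1) = g - awy - 1 by ring]
    exact dz2
  · unfold Dr2
    rw [show md W Y Z (O.xyz, 1) + md W Y Z (O.zyx, 2) = 2 by decide,
      show md Y Z W (O.xyz, 1) + md Y Z W (O.zyx, 2) = 0 by decide,
      show md Z W Y (O.xyz, 1) + md Z W Y (O.zyx, 2) = 0 by decide,
      show g - 2 - (awz - 1) = g - awz - 1 by ring]
    exact dx
  · unfold Dr2
    rw [show md W Z X (O.xyz, 1) + md W Z X (O.zyx, 2) = 0 by decide,
      show md Z X W (O.xyz, 1) + md Z X W (O.zyx, 2) = 0 by decide,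
      show md X W Z (O.xyz, 1) + md X W Z (O.zyx, 2) = 2 by decide,
      show g - 2 - (awx - 1) = g - awx - 1 by ring]
    exact dy2
  · unfold Dr2
    rw [show md W X Y (O.yzx, 0) + md W X Y (O.xzy, 3) = 0 by decide,
      show md X Y W (O.yzx, 0) + md X Y W (O.xzy, 3) = 2 by decide,
      show md Y W X (O.yzx, 0) + md Y W X (O.xzy, 3) = 0 by decide,
      show g - 2 - (awy - 1) = g - awy - 1 by ring]
    exact dz
  · unfold Dr2
    rw [show md W Y Z (O.yzx, 0) + md W Y Z (O.xzy, 3) = 2 by decide,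
      show md Y Z W (O.yzx, 0) + md Y Z W (O.xzy, 3) = 0 by decide,
      show md Z W Y (O.yzx, 0) + md Z W Y (O.xzy, 3) = 0 by decide,
      show g - 2 - (awz - 1) = g - awz - 1 by ring]
    exact dx
  · unfold Dr2
    rw [show md W Z X (O.yzx, 0) + md W Z X (O.xzy, 3) = 2 by decide,
      show md Z X W (O.yzx, 0) + md Z X W (O.xzy, 3) = 0 by decide,
      show md X W Z (O.yzx, 0) + md X W Z (O.xzy, 3) = 0 by decide,
      show g - 2 - (awx - 1) = g - awx - 1 by ring]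
    exact dy

theorem zD_xwz
    (IH : ∀ bxy byz bzx bwx bwy bwz uzx uzy uzw uxy uxz uxw uyz uyx uyw : ℤ,
      VD (g - 2) bxy byz bzx bwx bwy bwz uzx uzy uzw uxy uxz uxw uyz uyx uyw →
      Clo (g - 2) bxy byz bzx bwx bwy bwz uzx uzy uzw uxy uxz uxw uyz uyx uyw)
    (hV : VD g axy ayz azx awx awy awz tzx tzy tzw txy txz txw tyz tyx tyw)
    (hg : 2 ≤ g) (hxy : 2 * axy = g) (hyz : 2 * ayz = g) (hzx : 2 * azx = g)
    (ht1 : 1 ≤ tzx) (ht2 : 1 ≤ txw) (ht3 : 1 ≤ tyz) :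
    Clo g axy ayz azx awx awy awz tzx tzy tzw txy txz txw tyz tyx tyw := by
  obtain ⟨hz, hx, hy, -⟩ := hV
  obtain ⟨s1, s2, s3, hs⟩ := outer0 hg hxy hyz hzx
  obtain ⟨kz, dz, dz2⟩ := peel2_D1 hz (by linarith)
  obtain ⟨kx, dx, dx2⟩ := peel2_D3 hx (by linarith)
  obtain ⟨ky, dy, dy2⟩ := peel2_D1 hy (by linarith)
  rw [show g - awy - 1 = g - 2 - (awy - 1) by ring] at kz
  rw [show g - awz - 1 = g - 2 - (awz - 1) by ring] at kx
  rw [show g - awx - 1 = g - 2 - (awx - 1) by ring] at ky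
  refine step2 (bwx := awx - 1) (bwy := awy - 1) (bwz := awz - 1) (O.xyz, 1) (O.zyx, 2) (O.yzx, 2) (O.xzy, 1) hxy hyz hzx
    (by decide) (by decide) (by decide) ?_ ?_ ?_ (by decide) (by decide) (by decide) ?_ ?_ ?_
    (by decide) (by decide) (by decide) (by decide) ?_ ?_ ?_ ?_ ?_ ?_
    (IH (axy - 1) (ayz - 1) (azx - 1) (awx - 1) (awy - 1) (awz - 1) (tzx - 1) tzy tzw txy txz (txw - 1) (tyz - 1) tyx tyw
      ⟨kz, kx, ky, s1, s2, s3, hs⟩)
  · rw [show lt W X (O.xyz, 1) = 0 by decide, show lt W X (O.zyx, 2) = 1 by decide]; ring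
  · rw [show lt W Y (O.xyz, 1) = 1 by decide, show lt W Y (O.zyx, 2) = 0 by decide]; ring
  · rw [show lt W Z (O.xyz, 1) = 1 by decide, show lt W Z (O.zyx, 2) = 0 by decide]; ring
  · rw [show lt W X (O.yzx, 2) = 1 by decide, show lt W X (O.xzy, 1) = 0 by decide]; ring
  · rw [show lt W Y (O.yzx, 2) = 0 by decide, show lt W Y (O.xzy, 1) = 1 by decide]; ring
  · rw [show lt W Z (O.yzx, 2) = 0 by decide, show lt W Z (O.xzy, 1) = 1 by decide]; ring
  · unfold Dr2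
    rw [show md W X Y (O.xyz, 1) + md W X Y (O.zyx, 2) = 0 by decide,
      show md X Y W (O.xyz, 1) + md X Y W (O.zyx, 2) = 0 by decide,
      show md Y W X (O.xyz, 1) + md Y W X (O.zyx, 2) = 2 by decide,
      show g - 2 - (awy - 1) = g - awy - 1 by ring]
    exact dz2
  · unfold Dr2
    rw [show md W Y Z (O.xyz, 1) + md W Y Z (O.zyx, 2) = 2 by decide,
      show md Y Z W (O.xyz, 1) + md Y Z W (O.zyx, 2) = 0 by decide,
      show md Z W Y (O.xyz, 1) + md Z W Y (O.zyx, 2) = 0 by decide,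
      show g - 2 - (awz - 1) = g - awz - 1 by ring]
    exact dx
  · unfold Dr2
    rw [show md W Z X (O.xyz, 1) + md W Z X (O.zyx, 2) = 0 by decide,
      show md Z X W (O.xyz, 1) + md Z X W (O.zyx, 2) = 0 by decide,
      show md X W Z (O.xyz, 1) + md X W Z (O.zyx, 2) = 2 by decide,
      show g - 2 - (awx - 1) = g - awx - 1 by ring]
    exact dy2
  · unfold Dr2
    rw [show md W X Y (O.yzx, 2) + md W X Y (O.xzy, 1) = 0 by decide,
      show md X Y W (O.yzx, 2) + md X Y W (O.xzy, 1) = 0 by decide,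
      show md Y W X (O.yzx, 2) + md Y W X (O.xzy, 1) = 2 by decide,
      show g - 2 - (awy - 1) = g - awy - 1 by ring]
    exact dz2
  · unfold Dr2
    rw [show md W Y Z (O.yzx, 2) + md W Y Z (O.xzy, 1) = 0 by decide,
      show md Y Z W (O.yzx, 2) + md Y Z W (O.xzy, 1) = 2 by decide,
      show md Z W Y (O.yzx, 2) + md Z W Y (O.xzy, 1) = 0 by decide,
      show g - 2 - (awz - 1) = g - awz - 1 by ring]
    exact dx2
  · unfold Dr2
    rw [show md W Z X (O.yzx, 2) + md W Z X (O.xzy, 1) = 0 by decide,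
      show md Z X W (O.yzx, 2) + md Z X W (O.xzy, 1) = 0 by decide,
      show md X W Z (O.yzx, 2) + md X W Z (O.xzy, 1) = 2 by decide,
      show g - 2 - (awx - 1) = g - awx - 1 by ring]
    exact dy2

theorem zD_xwx
    (IH : ∀ bxy byz bzx bwx bwy bwz uzx uzy uzw uxy uxz uxw uyz uyx uyw : ℤ,
      VD (g - 2) bxy byz bzx bwx bwy bwz uzx uzy uzw uxy uxz uxw uyz uyx uyw →
      Clo (g - 2) bxy byz bzx bwx bwy bwz uzx uzy uzw uxy uxz uxw uyz uyx uyw)
    (hV : VD g axy ayz azx awx awy awz tzx tzy tzw txy txz txw tyz tyx tyw)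
    (hg : 2 ≤ g) (hxy : 2 * axy = g) (hyz : 2 * ayz = g) (hzx : 2 * azx = g)
    (ht1 : 1 ≤ tzx) (ht2 : 1 ≤ txw) (ht3 : 1 ≤ tyx) :
    Clo g axy ayz azx awx awy awz tzx tzy tzw txy txz txw tyz tyx tyw := by
  obtain ⟨hz, hx, hy, -⟩ := hV
  obtain ⟨s1, s2, s3, hs⟩ := outer0 hg hxy hyz hzx
  obtain ⟨kz, dz, dz2⟩ := peel2_D1 hz (by linarith)
  obtain ⟨kx, dx, dx2⟩ := peel2_D3 hx (by linarith)
  obtain ⟨ky, dy, dy2⟩ := peel2_D2 hy (by linarith)
  rw [show g - awy - 1 = g - 2 - (awy - 1) by ring] at kz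
  rw [show g - awz - 1 = g - 2 - (awz - 1) by ring] at kx
  rw [show g - awx - 1 = g - 2 - (awx - 1) by ring] at ky
  refine step2 (bwx := awx - 1) (bwy := awy - 1) (bwz := awz - 1) (O.xyz, 1) (O.zyx, 2) (O.yzx, 0) (O.xzy, 3) hxy hyz hzx
    (by decide) (by decide) (by decide) ?_ ?_ ?_ (by decide) (by decide) (by decide) ?_ ?_ ?_
    (by decide) (by decide) (by decide) (by decide) ?_ ?_ ?_ ?_ ?_ ?_
    (IH (axy - 1) (ayz - 1) (azx - 1) (awx - 1) (awy - 1) (awz - 1) (tzx - 1) tzy tzw txy txz (txw - 1) tyz (tyx - 1) tyw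
      ⟨kz, kx, ky, s1, s2, s3, hs⟩)
  · rw [show lt W X (O.xyz, 1) = 0 by decide, show lt W X (O.zyx, 2) = 1 by decide]; ring
  · rw [show lt W Y (O.xyz, 1) = 1 by decide, show lt W Y (O.zyx, 2) = 0 by decide]; ring
  · rw [show lt W Z (O.xyz, 1) = 1 by decide, show lt W Z (O.zyx, 2) = 0 by decide]; ring
  · rw [show lt W X (O.yzx, 0) = 1 by decide, show lt W X (O.xzy, 3) = 0 by decide]; ring
  · rw [show lt W Y (O.yzx, 0) = 1 by decide, show lt W Y (O.xzy, 3) = 0 by decide]; ring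
  · rw [show lt W Z (O.yzx, 0) = 1 by decide, show lt W Z (O.xzy, 3) = 0 by decide]; ring
  · unfold Dr2
    rw [show md W X Y (O.xyz, 1) + md W X Y (O.zyx, 2) = 0 by decide,
      show md X Y W (O.xyz, 1) + md X Y W (O.zyx, 2) = 0 by decide,
      show md Y W X (O.xyz, 1) + md Y W X (O.zyx, 2) = 2 by decide,
      show g - 2 - (awy - 1) = g - awy - 1 by ring]
    exact dz2
  · unfold Dr2
    rw [show md W Y Z (O.xyz, 1) + md W Y Z (O.zyx, 2) = 2 by decide,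
      show md Y Z W (O.xyz, 1) + md Y Z W (O.zyx, 2) = 0 by decide,
      show md Z W Y (O.xyz, 1) + md Z W Y (O.zyx, 2) = 0 by decide,
      show g - 2 - (awz - 1) = g - awz - 1 by ring]
    exact dx
  · unfold Dr2
    rw [show md W Z X (O.xyz, 1) + md W Z X (O.zyx, 2) = 0 by decide,
      show md Z X W (O.xyz, 1) + md Z X W (O.zyx, 2) = 0 by decide,
      show md X W Z (O.xyz, 1) + md X W Z (O.zyx, 2) = 2 by decide,
      show g - 2 - (awx - 1) = g - awx - 1 by ring]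
    exact dy2
  · unfold Dr2
    rw [show md W X Y (O.yzx, 0) + md W X Y (O.xzy, 3) = 0 by decide,
      show md X Y W (O.yzx, 0) + md X Y W (O.xzy, 3) = 2 by decide,
      show md Y W X (O.yzx, 0) + md Y W X (O.xzy, 3) = 0 by decide,
      show g - 2 - (awy - 1) = g - awy - 1 by ring]
    exact dz
  · unfold Dr2
    rw [show md W Y Z (O.yzx, 0) + md W Y Z (O.xzy, 3) = 2 by decide,
      show md Y Z W (O.yzx, 0) + md Y Z W (O.xzy, 3) = 0 by decide,
      show md Z W Y (O.yzx, 0) + md Z W Y (O.xzy, 3) = 0 by decide,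
      show g - 2 - (awz - 1) = g - awz - 1 by ring]
    exact dx
  · unfold Dr2
    rw [show md W Z X (O.yzx, 0) + md W Z X (O.xzy, 3) = 2 by decide,
      show md Z X W (O.yzx, 0) + md Z X W (O.xzy, 3) = 0 by decide,
      show md X W Z (O.yzx, 0) + md X W Z (O.xzy, 3) = 0 by decide,
      show g - 2 - (awx - 1) = g - awx - 1 by ring]
    exact dy

theorem zD_xww
    (IH : ∀ bxy byz bzx bwx bwy bwz uzx uzy uzw uxy uxz uxw uyz uyx uyw : ℤ,
      VD (g - 2) bxy byz bzx bwx bwy bwz uzx uzy uzw uxy uxz uxw uyz uyx uyw →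
      Clo (g - 2) bxy byz bzx bwx bwy bwz uzx uzy uzw uxy uxz uxw uyz uyx uyw)
    (hV : VD g axy ayz azx awx awy awz tzx tzy tzw txy txz txw tyz tyx tyw)
    (hg : 2 ≤ g) (hxy : 2 * axy = g) (hyz : 2 * ayz = g) (hzx : 2 * azx = g)
    (ht1 : 1 ≤ tzx) (ht2 : 1 ≤ txw) (ht3 : 1 ≤ tyw) :
    Clo g axy ayz azx awx awy awz tzx tzy tzw txy txz txw tyz tyx tyw := by
  obtain ⟨hz, hx, hy, -⟩ := hV
  obtain ⟨s1, s2, s3, hs⟩ := outer0 hg hxy hyz hzx
  obtain ⟨kz, dz, dz2⟩ := peel2_D1 hz (by linarith)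
  obtain ⟨kx, dx, dx2⟩ := peel2_D3 hx (by linarith)
  obtain ⟨ky, dy, dy2⟩ := peel2_D3 hy (by linarith)
  rw [show g - awy - 1 = g - 2 - (awy - 1) by ring] at kz
  rw [show g - awz - 1 = g - 2 - (awz - 1) by ring] at kx
  rw [show g - awx - 1 = g - 2 - (awx - 1) by ring] at ky
  refine step2 (bwx := awx - 1) (bwy := awy - 1) (bwz := awz - 1) (O.xyz, 3) (O.zyx, 0) (O.yzx, 0) (O.xzy, 3) hxy hyz hzx
    (by decide) (by decide) (by decide) ?_ ?_ ?_ (by decide) (by decide) (by decide) ?_ ?_ ?_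
    (by decide) (by decide) (by decide) (by decide) ?_ ?_ ?_ ?_ ?_ ?_
    (IH (axy - 1) (ayz - 1) (azx - 1) (awx - 1) (awy - 1) (awz - 1) (tzx - 1) tzy tzw txy txz (txw - 1) tyz tyx (tyw - 1)
      ⟨kz, kx, ky, s1, s2, s3, hs⟩)
  · rw [show lt W X (O.xyz, 3) = 0 by decide, show lt W X (O.zyx, 0) = 1 by decide]; ring
  · rw [show lt W Y (O.xyz, 3) = 0 by decide, show lt W Y (O.zyx, 0) = 1 by decide]; ring
  · rw [show lt W Z (O.xyz, 3) = 0 by decide, show lt W Z (O.zyx, 0) = 1 by decide]; ring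
  · rw [show lt W X (O.yzx, 0) = 1 by decide, show lt W X (O.xzy, 3) = 0 by decide]; ring
  · rw [show lt W Y (O.yzx, 0) = 1 by decide, show lt W Y (O.xzy, 3) = 0 by decide]; ring
  · rw [show lt W Z (O.yzx, 0) = 1 by decide, show lt W Z (O.xzy, 3) = 0 by decide]; ring
  · unfold Dr2
    rw [show md W X Y (O.xyz, 3) + md W X Y (O.zyx, 0) = 0 by decide,
      show md X Y W (O.xyz, 3) + md X Y W (O.zyx, 0) = 2 by decide,
      show md Y W X (O.xyz, 3) + md Y W X (O.zyx, 0) = 0 by decide,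
      show g - 2 - (awy - 1) = g - awy - 1 by ring]
    exact dz
  · unfold Dr2
    rw [show md W Y Z (O.xyz, 3) + md W Y Z (O.zyx, 0) = 0 by decide,
      show md Y Z W (O.xyz, 3) + md Y Z W (O.zyx, 0) = 2 by decide,
      show md Z W Y (O.xyz, 3) + md Z W Y (O.zyx, 0) = 0 by decide,
      show g - 2 - (awz - 1) = g - awz - 1 by ring]
    exact dx2
  · unfold Dr2
    rw [show md W Z X (O.xyz, 3) + md W Z X (O.zyx, 0) = 2 by decide,
      show md Z X W (O.xyz, 3) + md Z X W (O.zyx, 0) = 0 by decide,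
      show md X W Z (O.xyz, 3) + md X W Z (O.zyx, 0) = 0 by decide,
      show g - 2 - (awx - 1) = g - awx - 1 by ring]
    exact dy
  · unfold Dr2
    rw [show md W X Y (O.yzx, 0) + md W X Y (O.xzy, 3) = 0 by decide,
      show md X Y W (O.yzx, 0) + md X Y W (O.xzy, 3) = 2 by decide,
      show md Y W X (O.yzx, 0) + md Y W X (O.xzy, 3) = 0 by decide,
      show g - 2 - (awy - 1) = g - awy - 1 by ring]
    exact dz
  · unfold Dr2
    rw [show md W Y Z (O.yzx, 0) + md W Y Z (O.xzy, 3) = 2 by decide,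
      show md Y Z W (O.yzx, 0) + md Y Z W (O.xzy, 3) = 0 by decide,
      show md Z W Y (O.yzx, 0) + md Z W Y (O.xzy, 3) = 0 by decide,
      show g - 2 - (awz - 1) = g - awz - 1 by ring]
    exact dx
  · unfold Dr2
    rw [show md W Z X (O.yzx, 0) + md W Z X (O.xzy, 3) = 2 by decide,
      show md Z X W (O.yzx, 0) + md Z X W (O.xzy, 3) = 0 by decide,
      show md X W Z (O.yzx, 0) + md X W Z (O.xzy, 3) = 0 by decide,
      show g - 2 - (awx - 1) = g - awx - 1 by ring]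
    exact dy

theorem zD_yzx
    (IH : ∀ bxy byz bzx bwx bwy bwz uzx uzy uzw uxy uxz uxw uyz uyx uyw : ℤ,
      VD (g - 2) bxy byz bzx bwx bwy bwz uzx uzy uzw uxy uxz uxw uyz uyx uyw →
      Clo (g - 2) bxy byz bzx bwx bwy bwz uzx uzy uzw uxy uxz uxw uyz uyx uyw)
    (hV : VD g axy ayz azx awx awy awz tzx tzy tzw txy txz txw tyz tyx tyw)
    (hg : 2 ≤ g) (hxy : 2 * axy = g) (hyz : 2 * ayz = g) (hzx : 2 * azx = g)
    (ht1 : 1 ≤ tzy) (ht2 : 1 ≤ txz) (ht3 : 1 ≤ tyx) :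
    Clo g axy ayz azx awx awy awz tzx tzy tzw txy txz txw tyz tyx tyw := by
  obtain ⟨hz, hx, hy, -⟩ := hV
  obtain ⟨s1, s2, s3, hs⟩ := outer0 hg hxy hyz hzx
  obtain ⟨kz, dz, dz2⟩ := peel2_D2 hz (by linarith)
  obtain ⟨kx, dx, dx2⟩ := peel2_D2 hx (by linarith)
  obtain ⟨ky, dy, dy2⟩ := peel2_D2 hy (by linarith)
  rw [show g - awy - 1 = g - 2 - (awy - 1) by ring] at kz
  rw [show g - awz - 1 = g - 2 - (awz - 1) by ring] at kx
  rw [show g - awx - 1 = g - 2 - (awx - 1) by ring] at ky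
  refine step2 (bwx := awx - 1) (bwy := awy - 1) (bwz := awz - 1) (O.xyz, 1) (O.zyx, 2) (O.yzx, 1) (O.xzy, 2) hxy hyz hzx
    (by decide) (by decide) (by decide) ?_ ?_ ?_ (by decide) (by decide) (by decide) ?_ ?_ ?_
    (by decide) (by decide) (by decide) (by decide) ?_ ?_ ?_ ?_ ?_ ?_
    (IH (axy - 1) (ayz - 1) (azx - 1) (awx - 1) (awy - 1) (awz - 1) tzx (tzy - 1) tzw txy (txz - 1) txw tyz (tyx - 1) tyw
      ⟨kz, kx, ky, s1, s2, s3, hs⟩)
  · rw [show lt W X (O.xyz, 1) = 0 by decide, show lt W X (O.zyx, 2) = 1 by decide]; ring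
  · rw [show lt W Y (O.xyz, 1) = 1 by decide, show lt W Y (O.zyx, 2) = 0 by decide]; ring
  · rw [show lt W Z (O.xyz, 1) = 1 by decide, show lt W Z (O.zyx, 2) = 0 by decide]; ring
  · rw [show lt W X (O.yzx, 1) = 1 by decide, show lt W X (O.xzy, 2) = 0 by decide]; ring
  · rw [show lt W Y (O.yzx, 1) = 0 by decide, show lt W Y (O.xzy, 2) = 1 by decide]; ring
  · rw [show lt W Z (O.yzx, 1) = 1 by decide, show lt W Z (O.xzy, 2) = 0 by decide]; ring
  · unfold Dr2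
    rw [show md W X Y (O.xyz, 1) + md W X Y (O.zyx, 2) = 0 by decide,
      show md X Y W (O.xyz, 1) + md X Y W (O.zyx, 2) = 0 by decide,
      show md Y W X (O.xyz, 1) + md Y W X (O.zyx, 2) = 2 by decide,
      show g - 2 - (awy - 1) = g - awy - 1 by ring]
    exact dz2
  · unfold Dr2
    rw [show md W Y Z (O.xyz, 1) + md W Y Z (O.zyx, 2) = 2 by decide,
      show md Y Z W (O.xyz, 1) + md Y Z W (O.zyx, 2) = 0 by decide,
      show md Z W Y (O.xyz, 1) + md Z W Y (O.zyx, 2) = 0 by decide,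
      show g - 2 - (awz - 1) = g - awz - 1 by ring]
    exact dx
  · unfold Dr2
    rw [show md W Z X (O.xyz, 1) + md W Z X (O.zyx, 2) = 0 by decide,
      show md Z X W (O.xyz, 1) + md Z X W (O.zyx, 2) = 0 by decide,
      show md X W Z (O.xyz, 1) + md X W Z (O.zyx, 2) = 2 by decide,
      show g - 2 - (awx - 1) = g - awx - 1 by ring]
    exact dy2
  · unfold Dr2
    rw [show md W X Y (O.yzx, 1) + md W X Y (O.xzy, 2) = 0 by decide,
      show md X Y W (O.yzx, 1) + md X Y W (O.xzy, 2) = 0 by decide,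
      show md Y W X (O.yzx, 1) + md Y W X (O.xzy, 2) = 2 by decide,
      show g - 2 - (awy - 1) = g - awy - 1 by ring]
    exact dz2
  · unfold Dr2
    rw [show md W Y Z (O.yzx, 1) + md W Y Z (O.xzy, 2) = 0 by decide,
      show md Y Z W (O.yzx, 1) + md Y Z W (O.xzy, 2) = 0 by decide,
      show md Z W Y (O.yzx, 1) + md Z W Y (O.xzy, 2) = 2 by decide,
      show g - 2 - (awz - 1) = g - awz - 1 by ring]
    exact dx2
  · unfold Dr2
    rw [show md W Z X (O.yzx, 1) + md W Z X (O.xzy, 2) = 2 by decide,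
      show md Z X W (O.yzx, 1) + md Z X W (O.xzy, 2) = 0 by decide,
      show md X W Z (O.yzx, 1) + md X W Z (O.xzy, 2) = 0 by decide,
      show g - 2 - (awx - 1) = g - awx - 1 by ring]
    exact dy

theorem zD_yzw
    (IH : ∀ bxy byz bzx bwx bwy bwz uzx uzy uzw uxy uxz uxw uyz uyx uyw : ℤ,
      VD (g - 2) bxy byz bzx bwx bwy bwz uzx uzy uzw uxy uxz uxw uyz uyx uyw →
      Clo (g - 2) bxy byz bzx bwx bwy bwz uzx uzy uzw uxy uxz uxw uyz uyx uyw)
    (hV : VD g axy ayz azx awx awy awz tzx tzy tzw txy txz txw tyz tyx tyw)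
    (hg : 2 ≤ g) (hxy : 2 * axy = g) (hyz : 2 * ayz = g) (hzx : 2 * azx = g)
    (ht1 : 1 ≤ tzy) (ht2 : 1 ≤ txz) (ht3 : 1 ≤ tyw) :
    Clo g axy ayz azx awx awy awz tzx tzy tzw txy txz txw tyz tyx tyw := by
  obtain ⟨hz, hx, hy, -⟩ := hV
  obtain ⟨s1, s2, s3, hs⟩ := outer0 hg hxy hyz hzx
  obtain ⟨kz, dz, dz2⟩ := peel2_D2 hz (by linarith)
  obtain ⟨kx, dx, dx2⟩ := peel2_D2 hx (by linarith)
  obtain ⟨ky, dy, dy2⟩ := peel2_D3 hy (by linarith)
  rw [show g - awy - 1 = g - 2 - (awy - 1) by ring] at kz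
  rw [show g - awz - 1 = g - 2 - (awz - 1) by ring] at kx
  rw [show g - awx - 1 = g - 2 - (awx - 1) by ring] at ky
  refine step2 (bwx := awx - 1) (bwy := awy - 1) (bwz := awz - 1) (O.xyz, 0) (O.zyx, 3) (O.yzx, 1) (O.xzy, 2) hxy hyz hzx
    (by decide) (by decide) (by decide) ?_ ?_ ?_ (by decide) (by decide) (by decide) ?_ ?_ ?_
    (by decide) (by decide) (by decide) (by decide) ?_ ?_ ?_ ?_ ?_ ?_
    (IH (axy - 1) (ayz - 1) (azx - 1) (awx - 1) (awy - 1) (awz - 1) tzx (tzy - 1) tzw txy (txz - 1) txw tyz tyx (tyw - 1)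
      ⟨kz, kx, ky, s1, s2, s3, hs⟩)
  · rw [show lt W X (O.xyz, 0) = 1 by decide, show lt W X (O.zyx, 3) = 0 by decide]; ring
  · rw [show lt W Y (O.xyz, 0) = 1 by decide, show lt W Y (O.zyx, 3) = 0 by decide]; ring
  · rw [show lt W Z (O.xyz, 0) = 1 by decide, show lt W Z (O.zyx, 3) = 0 by decide]; ring
  · rw [show lt W X (O.yzx, 1) = 1 by decide, show lt W X (O.xzy, 2) = 0 by decide]; ring
  · rw [show lt W Y (O.yzx, 1) = 0 by decide, show lt W Y (O.xzy, 2) = 1 by decide]; ring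
  · rw [show lt W Z (O.yzx, 1) = 1 by decide, show lt W Z (O.xzy, 2) = 0 by decide]; ring
  · unfold Dr2
    rw [show md W X Y (O.xyz, 0) + md W X Y (O.zyx, 3) = 2 by decide,
      show md X Y W (O.xyz, 0) + md X Y W (O.zyx, 3) = 0 by decide,
      show md Y W X (O.xyz, 0) + md Y W X (O.zyx, 3) = 0 by decide,
      show g - 2 - (awy - 1) = g - awy - 1 by ring]
    exact dz
  · unfold Dr2
    rw [show md W Y Z (O.xyz, 0) + md W Y Z (O.zyx, 3) = 2 by decide,
      show md Y Z W (O.xyz, 0) + md Y Z W (O.zyx, 3) = 0 by decide,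
      show md Z W Y (O.xyz, 0) + md Z W Y (O.zyx, 3) = 0 by decide,
      show g - 2 - (awz - 1) = g - awz - 1 by ring]
    exact dx
  · unfold Dr2
    rw [show md W Z X (O.xyz, 0) + md W Z X (O.zyx, 3) = 0 by decide,
      show md Z X W (O.xyz, 0) + md Z X W (O.zyx, 3) = 2 by decide,
      show md X W Z (O.xyz, 0) + md X W Z (O.zyx, 3) = 0 by decide,
      show g - 2 - (awx - 1) = g - awx - 1 by ring]
    exact dy2
  · unfold Dr2
    rw [show md W X Y (O.yzx, 1) + md W X Y (O.xzy, 2) = 0 by decide,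
      show md X Y W (O.yzx, 1) + md X Y W (O.xzy, 2) = 0 by decide,
      show md Y W X (O.yzx, 1) + md Y W X (O.xzy, 2) = 2 by decide,
      show g - 2 - (awy - 1) = g - awy - 1 by ring]
    exact dz2
  · unfold Dr2
    rw [show md W Y Z (O.yzx, 1) + md W Y Z (O.xzy, 2) = 0 by decide,
      show md Y Z W (O.yzx, 1) + md Y Z W (O.xzy, 2) = 0 by decide,
      show md Z W Y (O.yzx, 1) + md Z W Y (O.xzy, 2) = 2 by decide,
      show g - 2 - (awz - 1) = g - awz - 1 by ring]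
    exact dx2
  · unfold Dr2
    rw [show md W Z X (O.yzx, 1) + md W Z X (O.xzy, 2) = 2 by decide,
      show md Z X W (O.yzx, 1) + md Z X W (O.xzy, 2) = 0 by decide,
      show md X W Z (O.yzx, 1) + md X W Z (O.xzy, 2) = 0 by decide,
      show g - 2 - (awx - 1) = g - awx - 1 by ring]
    exact dy

theorem zD_ywz
    (IH : ∀ bxy byz bzx bwx bwy bwz uzx uzy uzw uxy uxz uxw uyz uyx uyw : ℤ,
      VD (g - 2) bxy byz bzx bwx bwy bwz uzx uzy uzw uxy uxz uxw uyz uyx uyw →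
      Clo (g - 2) bxy byz bzx bwx bwy bwz uzx uzy uzw uxy uxz uxw uyz uyx uyw)
    (hV : VD g axy ayz azx awx awy awz tzx tzy tzw txy txz txw tyz tyx tyw)
    (hg : 2 ≤ g) (hxy : 2 * axy = g) (hyz : 2 * ayz = g) (hzx : 2 * azx = g)
    (ht1 : 1 ≤ tzy) (ht2 : 1 ≤ txw) (ht3 : 1 ≤ tyz) :
    Clo g axy ayz azx awx awy awz tzx tzy tzw txy txz txw tyz tyx tyw := by
  obtain ⟨hz, hx, hy, -⟩ := hV
  obtain ⟨s1, s2, s3, hs⟩ := outer0 hg hxy hyz hzx
  obtain ⟨kz, dz, dz2⟩ := peel2_D2 hz (by linarith)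
  obtain ⟨kx, dx, dx2⟩ := peel2_D3 hx (by linarith)
  obtain ⟨ky, dy, dy2⟩ := peel2_D1 hy (by linarith)
  rw [show g - awy - 1 = g - 2 - (awy - 1) by ring] at kz
  rw [show g - awz - 1 = g - 2 - (awz - 1) by ring] at kx
  rw [show g - awx - 1 = g - 2 - (awx - 1) by ring] at ky
  refine step2 (bwx := awx - 1) (bwy := awy - 1) (bwz := awz - 1) (O.xyz, 0) (O.zyx, 3) (O.yzx, 2) (O.xzy, 1) hxy hyz hzx
    (by decide) (by decide) (by decide) ?_ ?_ ?_ (by decide) (by decide) (by decide) ?_ ?_ ?_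
    (by decide) (by decide) (by decide) (by decide) ?_ ?_ ?_ ?_ ?_ ?_
    (IH (axy - 1) (ayz - 1) (azx - 1) (awx - 1) (awy - 1) (awz - 1) tzx (tzy - 1) tzw txy txz (txw - 1) (tyz - 1) tyx tyw
      ⟨kz, kx, ky, s1, s2, s3, hs⟩)
  · rw [show lt W X (O.xyz, 0) = 1 by decide, show lt W X (O.zyx, 3) = 0 by decide]; ring
  · rw [show lt W Y (O.xyz, 0) = 1 by decide, show lt W Y (O.zyx, 3) = 0 by decide]; ring
  · rw [show lt W Z (O.xyz, 0) = 1 by decide, show lt W Z (O.zyx, 3) = 0 by decide]; ring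
  · rw [show lt W X (O.yzx, 2) = 1 by decide, show lt W X (O.xzy, 1) = 0 by decide]; ring
  · rw [show lt W Y (O.yzx, 2) = 0 by decide, show lt W Y (O.xzy, 1) = 1 by decide]; ring
  · rw [show lt W Z (O.yzx, 2) = 0 by decide, show lt W Z (O.xzy, 1) = 1 by decide]; ring
  · unfold Dr2
    rw [show md W X Y (O.xyz, 0) + md W X Y (O.zyx, 3) = 2 by decide,
      show md X Y W (O.xyz, 0) + md X Y W (O.zyx, 3) = 0 by decide,
      show md Y W X (O.xyz, 0) + md Y W X (O.zyx, 3) = 0 by decide,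
      show g - 2 - (awy - 1) = g - awy - 1 by ring]
    exact dz
  · unfold Dr2
    rw [show md W Y Z (O.xyz, 0) + md W Y Z (O.zyx, 3) = 2 by decide,
      show md Y Z W (O.xyz, 0) + md Y Z W (O.zyx, 3) = 0 by decide,
      show md Z W Y (O.xyz, 0) + md Z W Y (O.zyx, 3) = 0 by decide,
      show g - 2 - (awz - 1) = g - awz - 1 by ring]
    exact dx
  · unfold Dr2
    rw [show md W Z X (O.xyz, 0) + md W Z X (O.zyx, 3) = 0 by decide,
      show md Z X W (O.xyz, 0) + md Z X W (O.zyx, 3) = 2 by decide,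
      show md X W Z (O.xyz, 0) + md X W Z (O.zyx, 3) = 0 by decide,
      show g - 2 - (awx - 1) = g - awx - 1 by ring]
    exact dy
  · unfold Dr2
    rw [show md W X Y (O.yzx, 2) + md W X Y (O.xzy, 1) = 0 by decide,
      show md X Y W (O.yzx, 2) + md X Y W (O.xzy, 1) = 0 by decide,
      show md Y W X (O.yzx, 2) + md Y W X (O.xzy, 1) = 2 by decide,
      show g - 2 - (awy - 1) = g - awy - 1 by ring]
    exact dz2
  · unfold Dr2
    rw [show md W Y Z (O.yzx, 2) + md W Y Z (O.xzy, 1) = 0 by decide,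
      show md Y Z W (O.yzx, 2) + md Y Z W (O.xzy, 1) = 2 by decide,
      show md Z W Y (O.yzx, 2) + md Z W Y (O.xzy, 1) = 0 by decide,
      show g - 2 - (awz - 1) = g - awz - 1 by ring]
    exact dx2
  · unfold Dr2
    rw [show md W Z X (O.yzx, 2) + md W Z X (O.xzy, 1) = 0 by decide,
      show md Z X W (O.yzx, 2) + md Z X W (O.xzy, 1) = 0 by decide,
      show md X W Z (O.yzx, 2) + md X W Z (O.xzy, 1) = 2 by decide,
      show g - 2 - (awx - 1) = g - awx - 1 by ring]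
    exact dy2

theorem zD_ywx
    (IH : ∀ bxy byz bzx bwx bwy bwz uzx uzy uzw uxy uxz uxw uyz uyx uyw : ℤ,
      VD (g - 2) bxy byz bzx bwx bwy bwz uzx uzy uzw uxy uxz uxw uyz uyx uyw →
      Clo (g - 2) bxy byz bzx bwx bwy bwz uzx uzy uzw uxy uxz uxw uyz uyx uyw)
    (hV : VD g axy ayz azx awx awy awz tzx tzy tzw txy txz txw tyz tyx tyw)
    (hg : 2 ≤ g) (hxy : 2 * axy = g) (hyz : 2 * ayz = g) (hzx : 2 * azx = g)
    (ht1 : 1 ≤ tzy) (ht2 : 1 ≤ txw) (ht3 : 1 ≤ tyx) :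
    Clo g axy ayz azx awx awy awz tzx tzy tzw txy txz txw tyz tyx tyw := by
  obtain ⟨hz, hx, hy, -⟩ := hV
  obtain ⟨s1, s2, s3, hs⟩ := outer0 hg hxy hyz hzx
  obtain ⟨kz, dz, dz2⟩ := peel2_D2 hz (by linarith)
  obtain ⟨kx, dx, dx2⟩ := peel2_D3 hx (by linarith)
  obtain ⟨ky, dy, dy2⟩ := peel2_D2 hy (by linarith)
  rw [show g - awy - 1 = g - 2 - (awy - 1) by ring] at kz
  rw [show g - awz - 1 = g - 2 - (awz - 1) by ring] at kx
  rw [show g - awx - 1 = g - 2 - (awx - 1) by ring] at ky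
  refine step2 (bwx := awx - 1) (bwy := awy - 1) (bwz := awz - 1) (O.xyz, 1) (O.zyx, 2) (O.yzx, 2) (O.xzy, 1) hxy hyz hzx
    (by decide) (by decide) (by decide) ?_ ?_ ?_ (by decide) (by decide) (by decide) ?_ ?_ ?_
    (by decide) (by decide) (by decide) (by decide) ?_ ?_ ?_ ?_ ?_ ?_
    (IH (axy - 1) (ayz - 1) (azx - 1) (awx - 1) (awy - 1) (awz - 1) tzx (tzy - 1) tzw txy txz (txw - 1) tyz (tyx - 1) tyw
      ⟨kz, kx, ky, s1, s2, s3, hs⟩)
  · rw [show lt W X (O.xyz, 1) = 0 by decide, show lt W X (O.zyx, 2) = 1 by decide]; ring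
  · rw [show lt W Y (O.xyz, 1) = 1 by decide, show lt W Y (O.zyx, 2) = 0 by decide]; ring
  · rw [show lt W Z (O.xyz, 1) = 1 by decide, show lt W Z (O.zyx, 2) = 0 by decide]; ring
  · rw [show lt W X (O.yzx, 2) = 1 by decide, show lt W X (O.xzy, 1) = 0 by decide]; ring
  · rw [show lt W Y (O.yzx, 2) = 0 by decide, show lt W Y (O.xzy, 1) = 1 by decide]; ring
  · rw [show lt W Z (O.yzx, 2) = 0 by decide, show lt W Z (O.xzy, 1) = 1 by decide]; ring
  · unfold Dr2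
    rw [show md W X Y (O.xyz, 1) + md W X Y (O.zyx, 2) = 0 by decide,
      show md X Y W (O.xyz, 1) + md X Y W (O.zyx, 2) = 0 by decide,
      show md Y W X (O.xyz, 1) + md Y W X (O.zyx, 2) = 2 by decide,
      show g - 2 - (awy - 1) = g - awy - 1 by ring]
    exact dz2
  · unfold Dr2
    rw [show md W Y Z (O.xyz, 1) + md W Y Z (O.zyx, 2) = 2 by decide,
      show md Y Z W (O.xyz, 1) + md Y Z W (O.zyx, 2) = 0 by decide,
      show md Z W Y (O.xyz, 1) + md Z W Y (O.zyx, 2) = 0 by decide,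
      show g - 2 - (awz - 1) = g - awz - 1 by ring]
    exact dx
  · unfold Dr2
    rw [show md W Z X (O.xyz, 1) + md W Z X (O.zyx, 2) = 0 by decide,
      show md Z X W (O.xyz, 1) + md Z X W (O.zyx, 2) = 0 by decide,
      show md X W Z (O.xyz, 1) + md X W Z (O.zyx, 2) = 2 by decide,
      show g - 2 - (awx - 1) = g - awx - 1 by ring]
    exact dy2
  · unfold Dr2
    rw [show md W X Y (O.yzx, 2) + md W X Y (O.xzy, 1) = 0 by decide,
      show md X Y W (O.yzx, 2) + md X Y W (O.xzy, 1) = 0 by decide,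
      show md Y W X (O.yzx, 2) + md Y W X (O.xzy, 1) = 2 by decide,
      show g - 2 - (awy - 1) = g - awy - 1 by ring]
    exact dz2
  · unfold Dr2
    rw [show md W Y Z (O.yzx, 2) + md W Y Z (O.xzy, 1) = 0 by decide,
      show md Y Z W (O.yzx, 2) + md Y Z W (O.xzy, 1) = 2 by decide,
      show md Z W Y (O.yzx, 2) + md Z W Y (O.xzy, 1) = 0 by decide,
      show g - 2 - (awz - 1) = g - awz - 1 by ring]
    exact dx2
  · unfold Dr2
    rw [show md W Z X (O.yzx, 2) + md W Z X (O.xzy, 1) = 0 by decide,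
      show md Z X W (O.yzx, 2) + md Z X W (O.xzy, 1) = 0 by decide,
      show md X W Z (O.yzx, 2) + md X W Z (O.xzy, 1) = 2 by decide,
      show g - 2 - (awx - 1) = g - awx - 1 by ring]
    exact dy2

theorem zD_yww
    (IH : ∀ bxy byz bzx bwx bwy bwz uzx uzy uzw uxy uxz uxw uyz uyx uyw : ℤ,
      VD (g - 2) bxy byz bzx bwx bwy bwz uzx uzy uzw uxy uxz uxw uyz uyx uyw →
      Clo (g - 2) bxy byz bzx bwx bwy bwz uzx uzy uzw uxy uxz uxw uyz uyx uyw)
    (hV : VD g axy ayz azx awx awy awz tzx tzy tzw txy txz txw tyz tyx tyw)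
    (hg : 2 ≤ g) (hxy : 2 * axy = g) (hyz : 2 * ayz = g) (hzx : 2 * azx = g)
    (ht1 : 1 ≤ tzy) (ht2 : 1 ≤ txw) (ht3 : 1 ≤ tyw) :
    Clo g axy ayz azx awx awy awz tzx tzy tzw txy txz txw tyz tyx tyw := by
  obtain ⟨hz, hx, hy, -⟩ := hV
  obtain ⟨s1, s2, s3, hs⟩ := outer0 hg hxy hyz hzx
  obtain ⟨kz, dz, dz2⟩ := peel2_D2 hz (by linarith)
  obtain ⟨kx, dx, dx2⟩ := peel2_D3 hx (by linarith)
  obtain ⟨ky, dy, dy2⟩ := peel2_D3 hy (by linarith)
  rw [show g - awy - 1 = g - 2 - (awy - 1) by ring] at kz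
  rw [show g - awz - 1 = g - 2 - (awz - 1) by ring] at kx
  rw [show g - awx - 1 = g - 2 - (awx - 1) by ring] at ky
  refine step2 (bwx := awx - 1) (bwy := awy - 1) (bwz := awz - 1) (O.xyz, 0) (O.zyx, 3) (O.yzx, 3) (O.xzy, 0) hxy hyz hzx
    (by decide) (by decide) (by decide) ?_ ?_ ?_ (by decide) (by decide) (by decide) ?_ ?_ ?_
    (by decide) (by decide) (by decide) (by decide) ?_ ?_ ?_ ?_ ?_ ?_
    (IH (axy - 1) (ayz - 1) (azx - 1) (awx - 1) (awy - 1) (awz - 1) tzx (tzy - 1) tzw txy txz (txw - 1) tyz tyx (tyw - 1)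
      ⟨kz, kx, ky, s1, s2, s3, hs⟩)
  · rw [show lt W X (O.xyz, 0) = 1 by decide, show lt W X (O.zyx, 3) = 0 by decide]; ring
  · rw [show lt W Y (O.xyz, 0) = 1 by decide, show lt W Y (O.zyx, 3) = 0 by decide]; ring
  · rw [show lt W Z (O.xyz, 0) = 1 by decide, show lt W Z (O.zyx, 3) = 0 by decide]; ring
  · rw [show lt W X (O.yzx, 3) = 0 by decide, show lt W X (O.xzy, 0) = 1 by decide]; ring
  · rw [show lt W Y (O.yzx, 3) = 0 by decide, show lt W Y (O.xzy, 0) = 1 by decide]; ring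
  · rw [show lt W Z (O.yzx, 3) = 0 by decide, show lt W Z (O.xzy, 0) = 1 by decide]; ring
  · unfold Dr2
    rw [show md W X Y (O.xyz, 0) + md W X Y (O.zyx, 3) = 2 by decide,
      show md X Y W (O.xyz, 0) + md X Y W (O.zyx, 3) = 0 by decide,
      show md Y W X (O.xyz, 0) + md Y W X (O.zyx, 3) = 0 by decide,
      show g - 2 - (awy - 1) = g - awy - 1 by ring]
    exact dz
  · unfold Dr2
    rw [show md W Y Z (O.xyz, 0) + md W Y Z (O.zyx, 3) = 2 by decide,
      show md Y Z W (O.xyz, 0) + md Y Z W (O.zyx, 3) = 0 by decide,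
      show md Z W Y (O.xyz, 0) + md Z W Y (O.zyx, 3) = 0 by decide,
      show g - 2 - (awz - 1) = g - awz - 1 by ring]
    exact dx
  · unfold Dr2
    rw [show md W Z X (O.xyz, 0) + md W Z X (O.zyx, 3) = 0 by decide,
      show md Z X W (O.xyz, 0) + md Z X W (O.zyx, 3) = 2 by decide,
      show md X W Z (O.xyz, 0) + md X W Z (O.zyx, 3) = 0 by decide,
      show g - 2 - (awx - 1) = g - awx - 1 by ring]
    exact dy2
  · unfold Dr2
    rw [show md W X Y (O.yzx, 3) + md W X Y (O.xzy, 0) = 2 by decide,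
      show md X Y W (O.yzx, 3) + md X Y W (O.xzy, 0) = 0 by decide,
      show md Y W X (O.yzx, 3) + md Y W X (O.xzy, 0) = 0 by decide,
      show g - 2 - (awy - 1) = g - awy - 1 by ring]
    exact dz
  · unfold Dr2
    rw [show md W Y Z (O.yzx, 3) + md W Y Z (O.xzy, 0) = 0 by decide,
      show md Y Z W (O.yzx, 3) + md Y Z W (O.xzy, 0) = 2 by decide,
      show md Z W Y (O.yzx, 3) + md Z W Y (O.xzy, 0) = 0 by decide,
      show g - 2 - (awz - 1) = g - awz - 1 by ring]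
    exact dx2
  · unfold Dr2
    rw [show md W Z X (O.yzx, 3) + md W Z X (O.xzy, 0) = 0 by decide,
      show md Z X W (O.yzx, 3) + md Z X W (O.xzy, 0) = 2 by decide,
      show md X W Z (O.yzx, 3) + md X W Z (O.xzy, 0) = 0 by decide,
      show g - 2 - (awx - 1) = g - awx - 1 by ring]
    exact dy2

theorem zD_wyz
    (IH : ∀ bxy byz bzx bwx bwy bwz uzx uzy uzw uxy uxz uxw uyz uyx uyw : ℤ,
      VD (g - 2) bxy byz bzx bwx bwy bwz uzx uzy uzw uxy uxz uxw uyz uyx uyw →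
      Clo (g - 2) bxy byz bzx bwx bwy bwz uzx uzy uzw uxy uxz uxw uyz uyx uyw)
    (hV : VD g axy ayz azx awx awy awz tzx tzy tzw txy txz txw tyz tyx tyw)
    (hg : 2 ≤ g) (hxy : 2 * axy = g) (hyz : 2 * ayz = g) (hzx : 2 * azx = g)
    (ht1 : 1 ≤ tzw) (ht2 : 1 ≤ txy) (ht3 : 1 ≤ tyz) :
    Clo g axy ayz azx awx awy awz tzx tzy tzw txy txz txw tyz tyx tyw := by
  obtain ⟨hz, hx, hy, -⟩ := hV
  obtain ⟨s1, s2, s3, hs⟩ := outer0 hg hxy hyz hzx
  obtain ⟨kz, dz, dz2⟩ := peel2_D3 hz (by linarith)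
  obtain ⟨kx, dx, dx2⟩ := peel2_D1 hx (by linarith)
  obtain ⟨ky, dy, dy2⟩ := peel2_D1 hy (by linarith)
  rw [show g - awy - 1 = g - 2 - (awy - 1) by ring] at kz
  rw [show g - awz - 1 = g - 2 - (awz - 1) by ring] at kx
  rw [show g - awx - 1 = g - 2 - (awx - 1) by ring] at ky
  refine step2 (bwx := awx - 1) (bwy := awy - 1) (bwz := awz - 1) (O.xyz, 2) (O.zyx, 1) (O.yzx, 3) (O.xzy, 0) hxy hyz hzx
    (by decide) (by decide) (by decide) ?_ ?_ ?_ (by decide) (by decide) (by decide) ?_ ?_ ?_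
    (by decide) (by decide) (by decide) (by decide) ?_ ?_ ?_ ?_ ?_ ?_
    (IH (axy - 1) (ayz - 1) (azx - 1) (awx - 1) (awy - 1) (awz - 1) tzx tzy (tzw - 1) (txy - 1) txz txw (tyz - 1) tyx tyw
      ⟨kz, kx, ky, s1, s2, s3, hs⟩)
  · rw [show lt W X (O.xyz, 2) = 0 by decide, show lt W X (O.zyx, 1) = 1 by decide]; ring
  · rw [show lt W Y (O.xyz, 2) = 0 by decide, show lt W Y (O.zyx, 1) = 1 by decide]; ring
  · rw [show lt W Z (O.xyz, 2) = 1 by decide, show lt W Z (O.zyx, 1) = 0 by decide]; ring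
  · rw [show lt W X (O.yzx, 3) = 0 by decide, show lt W X (O.xzy, 0) = 1 by decide]; ring
  · rw [show lt W Y (O.yzx, 3) = 0 by decide, show lt W Y (O.xzy, 0) = 1 by decide]; ring
  · rw [show lt W Z (O.yzx, 3) = 0 by decide, show lt W Z (O.xzy, 0) = 1 by decide]; ring
  · unfold Dr2
    rw [show md W X Y (O.xyz, 2) + md W X Y (O.zyx, 1) = 0 by decide,
      show md X Y W (O.xyz, 2) + md X Y W (O.zyx, 1) = 2 by decide,
      show md Y W X (O.xyz, 2) + md Y W X (O.zyx, 1) = 0 by decide,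
      show g - 2 - (awy - 1) = g - awy - 1 by ring]
    exact dz2
  · unfold Dr2
    rw [show md W Y Z (O.xyz, 2) + md W Y Z (O.zyx, 1) = 0 by decide,
      show md Y Z W (O.xyz, 2) + md Y Z W (O.zyx, 1) = 0 by decide,
      show md Z W Y (O.xyz, 2) + md Z W Y (O.zyx, 1) = 2 by decide,
      show g - 2 - (awz - 1) = g - awz - 1 by ring]
    exact dx2
  · unfold Dr2
    rw [show md W Z X (O.xyz, 2) + md W Z X (O.zyx, 1) = 0 by decide,
      show md Z X W (O.xyz, 2) + md Z X W (O.zyx, 1) = 0 by decide,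
      show md X W Z (O.xyz, 2) + md X W Z (O.zyx, 1) = 2 by decide,
      show g - 2 - (awx - 1) = g - awx - 1 by ring]
    exact dy2
  · unfold Dr2
    rw [show md W X Y (O.yzx, 3) + md W X Y (O.xzy, 0) = 2 by decide,
      show md X Y W (O.yzx, 3) + md X Y W (O.xzy, 0) = 0 by decide,
      show md Y W X (O.yzx, 3) + md Y W X (O.xzy, 0) = 0 by decide,
      show g - 2 - (awy - 1) = g - awy - 1 by ring]
    exact dz
  · unfold Dr2
    rw [show md W Y Z (O.yzx, 3) + md W Y Z (O.xzy, 0) = 0 by decide,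
      show md Y Z W (O.yzx, 3) + md Y Z W (O.xzy, 0) = 2 by decide,
      show md Z W Y (O.yzx, 3) + md Z W Y (O.xzy, 0) = 0 by decide,
      show g - 2 - (awz - 1) = g - awz - 1 by ring]
    exact dx
  · unfold Dr2
    rw [show md W Z X (O.yzx, 3) + md W Z X (O.xzy, 0) = 0 by decide,
      show md Z X W (O.yzx, 3) + md Z X W (O.xzy, 0) = 2 by decide,
      show md X W Z (O.yzx, 3) + md X W Z (O.xzy, 0) = 0 by decide,
      show g - 2 - (awx - 1) = g - awx - 1 by ring]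
    exact dy

theorem zD_wyw
    (IH : ∀ bxy byz bzx bwx bwy bwz uzx uzy uzw uxy uxz uxw uyz uyx uyw : ℤ,
      VD (g - 2) bxy byz bzx bwx bwy bwz uzx uzy uzw uxy uxz uxw uyz uyx uyw →
      Clo (g - 2) bxy byz bzx bwx bwy bwz uzx uzy uzw uxy uxz uxw uyz uyx uyw)
    (hV : VD g axy ayz azx awx awy awz tzx tzy tzw txy txz txw tyz tyx tyw)
    (hg : 2 ≤ g) (hxy : 2 * axy = g) (hyz : 2 * ayz = g) (hzx : 2 * azx = g)
    (ht1 : 1 ≤ tzw) (ht2 : 1 ≤ txy) (ht3 : 1 ≤ tyw) :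
    Clo g axy ayz azx awx awy awz tzx tzy tzw txy txz txw tyz tyx tyw := by
  obtain ⟨hz, hx, hy, -⟩ := hV
  obtain ⟨s1, s2, s3, hs⟩ := outer0 hg hxy hyz hzx
  obtain ⟨kz, dz, dz2⟩ := peel2_D3 hz (by linarith)
  obtain ⟨kx, dx, dx2⟩ := peel2_D1 hx (by linarith)
  obtain ⟨ky, dy, dy2⟩ := peel2_D3 hy (by linarith)
  rw [show g - awy - 1 = g - 2 - (awy - 1) by ring] at kz
  rw [show g - awz - 1 = g - 2 - (awz - 1) by ring] at kx
  rw [show g - awx - 1 = g - 2 - (awx - 1) by ring] at ky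
  refine step2 (bwx := awx - 1) (bwy := awy - 1) (bwz := awz - 1) (O.xyz, 3) (O.zyx, 0) (O.yzx, 3) (O.xzy, 0) hxy hyz hzx
    (by decide) (by decide) (by decide) ?_ ?_ ?_ (by decide) (by decide) (by decide) ?_ ?_ ?_
    (by decide) (by decide) (by decide) (by decide) ?_ ?_ ?_ ?_ ?_ ?_
    (IH (axy - 1) (ayz - 1) (azx - 1) (awx - 1) (awy - 1) (awz - 1) tzx tzy (tzw - 1) (txy - 1) txz txw tyz tyx (tyw - 1)
      ⟨kz, kx, ky, s1, s2, s3, hs⟩)
  · rw [show lt W X (O.xyz, 3) = 0 by decide, show lt W X (O.zyx, 0) = 1 by decide]; ring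
  · rw [show lt W Y (O.xyz, 3) = 0 by decide, show lt W Y (O.zyx, 0) = 1 by decide]; ring
  · rw [show lt W Z (O.xyz, 3) = 0 by decide, show lt W Z (O.zyx, 0) = 1 by decide]; ring
  · rw [show lt W X (O.yzx, 3) = 0 by decide, show lt W X (O.xzy, 0) = 1 by decide]; ring
  · rw [show lt W Y (O.yzx, 3) = 0 by decide, show lt W Y (O.xzy, 0) = 1 by decide]; ring
  · rw [show lt W Z (O.yzx, 3) = 0 by decide, show lt W Z (O.xzy, 0) = 1 by decide]; ring
  · unfold Dr2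
    rw [show md W X Y (O.xyz, 3) + md W X Y (O.zyx, 0) = 0 by decide,
      show md X Y W (O.xyz, 3) + md X Y W (O.zyx, 0) = 2 by decide,
      show md Y W X (O.xyz, 3) + md Y W X (O.zyx, 0) = 0 by decide,
      show g - 2 - (awy - 1) = g - awy - 1 by ring]
    exact dz2
  · unfold Dr2
    rw [show md W Y Z (O.xyz, 3) + md W Y Z (O.zyx, 0) = 0 by decide,
      show md Y Z W (O.xyz, 3) + md Y Z W (O.zyx, 0) = 2 by decide,
      show md Z W Y (O.xyz, 3) + md Z W Y (O.zyx, 0) = 0 by decide,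
      show g - 2 - (awz - 1) = g - awz - 1 by ring]
    exact dx
  · unfold Dr2
    rw [show md W Z X (O.xyz, 3) + md W Z X (O.zyx, 0) = 2 by decide,
      show md Z X W (O.xyz, 3) + md Z X W (O.zyx, 0) = 0 by decide,
      show md X W Z (O.xyz, 3) + md X W Z (O.zyx, 0) = 0 by decide,
      show g - 2 - (awx - 1) = g - awx - 1 by ring]
    exact dy
  · unfold Dr2
    rw [show md W X Y (O.yzx, 3) + md W X Y (O.xzy, 0) = 2 by decide,
      show md X Y W (O.yzx, 3) + md X Y W (O.xzy, 0) = 0 by decide,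
      show md Y W X (O.yzx, 3) + md Y W X (O.xzy, 0) = 0 by decide,
      show g - 2 - (awy - 1) = g - awy - 1 by ring]
    exact dz
  · unfold Dr2
    rw [show md W Y Z (O.yzx, 3) + md W Y Z (O.xzy, 0) = 0 by decide,
      show md Y Z W (O.yzx, 3) + md Y Z W (O.xzy, 0) = 2 by decide,
      show md Z W Y (O.yzx, 3) + md Z W Y (O.xzy, 0) = 0 by decide,
      show g - 2 - (awz - 1) = g - awz - 1 by ring]
    exact dx
  · unfold Dr2
    rw [show md W Z X (O.yzx, 3) + md W Z X (O.xzy, 0) = 0 by decide,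
      show md Z X W (O.yzx, 3) + md Z X W (O.xzy, 0) = 2 by decide,
      show md X W Z (O.yzx, 3) + md X W Z (O.xzy, 0) = 0 by decide,
      show g - 2 - (awx - 1) = g - awx - 1 by ring]
    exact dy2

theorem zD_wzx
    (IH : ∀ bxy byz bzx bwx bwy bwz uzx uzy uzw uxy uxz uxw uyz uyx uyw : ℤ,
      VD (g - 2) bxy byz bzx bwx bwy bwz uzx uzy uzw uxy uxz uxw uyz uyx uyw →
      Clo (g - 2) bxy byz bzx bwx bwy bwz uzx uzy uzw uxy uxz uxw uyz uyx uyw)
    (hV : VD g axy ayz azx awx awy awz tzx tzy tzw txy txz txw tyz tyx tyw)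
    (hg : 2 ≤ g) (hxy : 2 * axy = g) (hyz : 2 * ayz = g) (hzx : 2 * azx = g)
    (ht1 : 1 ≤ tzw) (ht2 : 1 ≤ txz) (ht3 : 1 ≤ tyx) :
    Clo g axy ayz azx awx awy awz tzx tzy tzw txy txz txw tyz tyx tyw := by
  obtain ⟨hz, hx, hy, -⟩ := hV
  obtain ⟨s1, s2, s3, hs⟩ := outer0 hg hxy hyz hzx
  obtain ⟨kz, dz, dz2⟩ := peel2_D3 hz (by linarith)
  obtain ⟨kx, dx, dx2⟩ := peel2_D2 hx (by linarith)
  obtain ⟨ky, dy, dy2⟩ := peel2_D2 hy (by linarith)
  rw [show g - awy - 1 = g - 2 - (awy - 1) by ring] at kz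
  rw [show g - awz - 1 = g - 2 - (awz - 1) by ring] at kx
  rw [show g - awx - 1 = g - 2 - (awx - 1) by ring] at ky
  refine step2 (bwx := awx - 1) (bwy := awy - 1) (bwz := awz - 1) (O.xyz, 2) (O.zyx, 1) (O.yzx, 0) (O.xzy, 3) hxy hyz hzx
    (by decide) (by decide) (by decide) ?_ ?_ ?_ (by decide) (by decide) (by decide) ?_ ?_ ?_
    (by decide) (by decide) (by decide) (by decide) ?_ ?_ ?_ ?_ ?_ ?_
    (IH (axy - 1) (ayz - 1) (azx - 1) (awx - 1) (awy - 1) (awz - 1) tzx tzy (tzw - 1) txy (txz - 1) txw tyz (tyx - 1) tyw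
      ⟨kz, kx, ky, s1, s2, s3, hs⟩)
  · rw [show lt W X (O.xyz, 2) = 0 by decide, show lt W X (O.zyx, 1) = 1 by decide]; ring
  · rw [show lt W Y (O.xyz, 2) = 0 by decide, show lt W Y (O.zyx, 1) = 1 by decide]; ring
  · rw [show lt W Z (O.xyz, 2) = 1 by decide, show lt W Z (O.zyx, 1) = 0 by decide]; ring
  · rw [show lt W X (O.yzx, 0) = 1 by decide, show lt W X (O.xzy, 3) = 0 by decide]; ring
  · rw [show lt W Y (O.yzx, 0) = 1 by decide, show lt W Y (O.xzy, 3) = 0 by decide]; ring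
  · rw [show lt W Z (O.yzx, 0) = 1 by decide, show lt W Z (O.xzy, 3) = 0 by decide]; ring
  · unfold Dr2
    rw [show md W X Y (O.xyz, 2) + md W X Y (O.zyx, 1) = 0 by decide,
      show md X Y W (O.xyz, 2) + md X Y W (O.zyx, 1) = 2 by decide,
      show md Y W X (O.xyz, 2) + md Y W X (O.zyx, 1) = 0 by decide,
      show g - 2 - (awy - 1) = g - awy - 1 by ring]
    exact dz2
  · unfold Dr2
    rw [show md W Y Z (O.xyz, 2) + md W Y Z (O.zyx, 1) = 0 by decide,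
      show md Y Z W (O.xyz, 2) + md Y Z W (O.zyx, 1) = 0 by decide,
      show md Z W Y (O.xyz, 2) + md Z W Y (O.zyx, 1) = 2 by decide,
      show g - 2 - (awz - 1) = g - awz - 1 by ring]
    exact dx2
  · unfold Dr2
    rw [show md W Z X (O.xyz, 2) + md W Z X (O.zyx, 1) = 0 by decide,
      show md Z X W (O.xyz, 2) + md Z X W (O.zyx, 1) = 0 by decide,
      show md X W Z (O.xyz, 2) + md X W Z (O.zyx, 1) = 2 by decide,
      show g - 2 - (awx - 1) = g - awx - 1 by ring]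
    exact dy2
  · unfold Dr2
    rw [show md W X Y (O.yzx, 0) + md W X Y (O.xzy, 3) = 0 by decide,
      show md X Y W (O.yzx, 0) + md X Y W (O.xzy, 3) = 2 by decide,
      show md Y W X (O.yzx, 0) + md Y W X (O.xzy, 3) = 0 by decide,
      show g - 2 - (awy - 1) = g - awy - 1 by ring]
    exact dz2
  · unfold Dr2
    rw [show md W Y Z (O.yzx, 0) + md W Y Z (O.xzy, 3) = 2 by decide,
      show md Y Z W (O.yzx, 0) + md Y Z W (O.xzy, 3) = 0 by decide,
      show md Z W Y (O.yzx, 0) + md Z W Y (O.xzy, 3) = 0 by decide,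
      show g - 2 - (awz - 1) = g - awz - 1 by ring]
    exact dx
  · unfold Dr2
    rw [show md W Z X (O.yzx, 0) + md W Z X (O.xzy, 3) = 2 by decide,
      show md Z X W (O.yzx, 0) + md Z X W (O.xzy, 3) = 0 by decide,
      show md X W Z (O.yzx, 0) + md X W Z (O.xzy, 3) = 0 by decide,
      show g - 2 - (awx - 1) = g - awx - 1 by ring]
    exact dy

theorem zD_wzw
    (IH : ∀ bxy byz bzx bwx bwy bwz uzx uzy uzw uxy uxz uxw uyz uyx uyw : ℤ,
      VD (g - 2) bxy byz bzx bwx bwy bwz uzx uzy uzw uxy uxz uxw uyz uyx uyw →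
      Clo (g - 2) bxy byz bzx bwx bwy bwz uzx uzy uzw uxy uxz uxw uyz uyx uyw)
    (hV : VD g axy ayz azx awx awy awz tzx tzy tzw txy txz txw tyz tyx tyw)
    (hg : 2 ≤ g) (hxy : 2 * axy = g) (hyz : 2 * ayz = g) (hzx : 2 * azx = g)
    (ht1 : 1 ≤ tzw) (ht2 : 1 ≤ txz) (ht3 : 1 ≤ tyw) :
    Clo g axy ayz azx awx awy awz tzx tzy tzw txy txz txw tyz tyx tyw := by
  obtain ⟨hz, hx, hy, -⟩ := hV
  obtain ⟨s1, s2, s3, hs⟩ := outer0 hg hxy hyz hzx
  obtain ⟨kz, dz, dz2⟩ := peel2_D3 hz (by linarith)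
  obtain ⟨kx, dx, dx2⟩ := peel2_D2 hx (by linarith)
  obtain ⟨ky, dy, dy2⟩ := peel2_D3 hy (by linarith)
  rw [show g - awy - 1 = g - 2 - (awy - 1) by ring] at kz
  rw [show g - awz - 1 = g - 2 - (awz - 1) by ring] at kx
  rw [show g - awx - 1 = g - 2 - (awx - 1) by ring] at ky
  refine step2 (bwx := awx - 1) (bwy := awy - 1) (bwz := awz - 1) (O.xyz, 0) (O.zyx, 3) (O.yzx, 0) (O.xzy, 3) hxy hyz hzx
    (by decide) (by decide) (by decide) ?_ ?_ ?_ (by decide) (by decide) (by decide) ?_ ?_ ?_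
    (by decide) (by decide) (by decide) (by decide) ?_ ?_ ?_ ?_ ?_ ?_
    (IH (axy - 1) (ayz - 1) (azx - 1) (awx - 1) (awy - 1) (awz - 1) tzx tzy (tzw - 1) txy (txz - 1) txw tyz tyx (tyw - 1)
      ⟨kz, kx, ky, s1, s2, s3, hs⟩)
  · rw [show lt W X (O.xyz, 0) = 1 by decide, show lt W X (O.zyx, 3) = 0 by decide]; ring
  · rw [show lt W Y (O.xyz, 0) = 1 by decide, show lt W Y (O.zyx, 3) = 0 by decide]; ring
  · rw [show lt W Z (O.xyz, 0) = 1 by decide, show lt W Z (O.zyx, 3) = 0 by decide]; ring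
  · rw [show lt W X (O.yzx, 0) = 1 by decide, show lt W X (O.xzy, 3) = 0 by decide]; ring
  · rw [show lt W Y (O.yzx, 0) = 1 by decide, show lt W Y (O.xzy, 3) = 0 by decide]; ring
  · rw [show lt W Z (O.yzx, 0) = 1 by decide, show lt W Z (O.xzy, 3) = 0 by decide]; ring
  · unfold Dr2
    rw [show md W X Y (O.xyz, 0) + md W X Y (O.zyx, 3) = 2 by decide,
      show md X Y W (O.xyz, 0) + md X Y W (O.zyx, 3) = 0 by decide,
      show md Y W X (O.xyz, 0) + md Y W X (O.zyx, 3) = 0 by decide,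
      show g - 2 - (awy - 1) = g - awy - 1 by ring]
    exact dz
  · unfold Dr2
    rw [show md W Y Z (O.xyz, 0) + md W Y Z (O.zyx, 3) = 2 by decide,
      show md Y Z W (O.xyz, 0) + md Y Z W (O.zyx, 3) = 0 by decide,
      show md Z W Y (O.xyz, 0) + md Z W Y (O.zyx, 3) = 0 by decide,
      show g - 2 - (awz - 1) = g - awz - 1 by ring]
    exact dx
  · unfold Dr2
    rw [show md W Z X (O.xyz, 0) + md W Z X (O.zyx, 3) = 0 by decide,
      show md Z X W (O.xyz, 0) + md Z X W (O.zyx, 3) = 2 by decide,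
      show md X W Z (O.xyz, 0) + md X W Z (O.zyx, 3) = 0 by decide,
      show g - 2 - (awx - 1) = g - awx - 1 by ring]
    exact dy2
  · unfold Dr2
    rw [show md W X Y (O.yzx, 0) + md W X Y (O.xzy, 3) = 0 by decide,
      show md X Y W (O.yzx, 0) + md X Y W (O.xzy, 3) = 2 by decide,
      show md Y W X (O.yzx, 0) + md Y W X (O.xzy, 3) = 0 by decide,
      show g - 2 - (awy - 1) = g - awy - 1 by ring]
    exact dz2
  · unfold Dr2
    rw [show md W Y Z (O.yzx, 0) + md W Y Z (O.xzy, 3) = 2 by decide,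
      show md Y Z W (O.yzx, 0) + md Y Z W (O.xzy, 3) = 0 by decide,
      show md Z W Y (O.yzx, 0) + md Z W Y (O.xzy, 3) = 0 by decide,
      show g - 2 - (awz - 1) = g - awz - 1 by ring]
    exact dx
  · unfold Dr2
    rw [show md W Z X (O.yzx, 0) + md W Z X (O.xzy, 3) = 2 by decide,
      show md Z X W (O.yzx, 0) + md Z X W (O.xzy, 3) = 0 by decide,
      show md X W Z (O.yzx, 0) + md X W Z (O.xzy, 3) = 0 by decide,
      show g - 2 - (awx - 1) = g - awx - 1 by ring]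
    exact dy

theorem zD_wwz
    (IH : ∀ bxy byz bzx bwx bwy bwz uzx uzy uzw uxy uxz uxw uyz uyx uyw : ℤ,
      VD (g - 2) bxy byz bzx bwx bwy bwz uzx uzy uzw uxy uxz uxw uyz uyx uyw →
      Clo (g - 2) bxy byz bzx bwx bwy bwz uzx uzy uzw uxy uxz uxw uyz uyx uyw)
    (hV : VD g axy ayz azx awx awy awz tzx tzy tzw txy txz txw tyz tyx tyw)
    (hg : 2 ≤ g) (hxy : 2 * axy = g) (hyz : 2 * ayz = g) (hzx : 2 * azx = g)
    (ht1 : 1 ≤ tzw) (ht2 : 1 ≤ txw) (ht3 : 1 ≤ tyz) :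
    Clo g axy ayz azx awx awy awz tzx tzy tzw txy txz txw tyz tyx tyw := by
  obtain ⟨hz, hx, hy, -⟩ := hV
  obtain ⟨s1, s2, s3, hs⟩ := outer0 hg hxy hyz hzx
  obtain ⟨kz, dz, dz2⟩ := peel2_D3 hz (by linarith)
  obtain ⟨kx, dx, dx2⟩ := peel2_D3 hx (by linarith)
  obtain ⟨ky, dy, dy2⟩ := peel2_D1 hy (by linarith)
  rw [show g - awy - 1 = g - 2 - (awy - 1) by ring] at kz
  rw [show g - awz - 1 = g - 2 - (awz - 1) by ring] at kx
  rw [show g - awx - 1 = g - 2 - (awx - 1) by ring] at ky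
  refine step2 (bwx := awx - 1) (bwy := awy - 1) (bwz := awz - 1) (O.xyz, 0) (O.zyx, 3) (O.yzx, 3) (O.xzy, 0) hxy hyz hzx
    (by decide) (by decide) (by decide) ?_ ?_ ?_ (by decide) (by decide) (by decide) ?_ ?_ ?_
    (by decide) (by decide) (by decide) (by decide) ?_ ?_ ?_ ?_ ?_ ?_
    (IH (axy - 1) (ayz - 1) (azx - 1) (awx - 1) (awy - 1) (awz - 1) tzx tzy (tzw - 1) txy txz (txw - 1) (tyz - 1) tyx tyw
      ⟨kz, kx, ky, s1, s2, s3, hs⟩)
  · rw [show lt W X (O.xyz, 0) = 1 by decide, show lt W X (O.zyx, 3) = 0 by decide]; ring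
  · rw [show lt W Y (O.xyz, 0) = 1 by decide, show lt W Y (O.zyx, 3) = 0 by decide]; ring
  · rw [show lt W Z (O.xyz, 0) = 1 by decide, show lt W Z (O.zyx, 3) = 0 by decide]; ring
  · rw [show lt W X (O.yzx, 3) = 0 by decide, show lt W X (O.xzy, 0) = 1 by decide]; ring
  · rw [show lt W Y (O.yzx, 3) = 0 by decide, show lt W Y (O.xzy, 0) = 1 by decide]; ring
  · rw [show lt W Z (O.yzx, 3) = 0 by decide, show lt W Z (O.xzy, 0) = 1 by decide]; ring
  · unfold Dr2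
    rw [show md W X Y (O.xyz, 0) + md W X Y (O.zyx, 3) = 2 by decide,
      show md X Y W (O.xyz, 0) + md X Y W (O.zyx, 3) = 0 by decide,
      show md Y W X (O.xyz, 0) + md Y W X (O.zyx, 3) = 0 by decide,
      show g - 2 - (awy - 1) = g - awy - 1 by ring]
    exact dz
  · unfold Dr2
    rw [show md W Y Z (O.xyz, 0) + md W Y Z (O.zyx, 3) = 2 by decide,
      show md Y Z W (O.xyz, 0) + md Y Z W (O.zyx, 3) = 0 by decide,
      show md Z W Y (O.xyz, 0) + md Z W Y (O.zyx, 3) = 0 by decide,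
      show g - 2 - (awz - 1) = g - awz - 1 by ring]
    exact dx
  · unfold Dr2
    rw [show md W Z X (O.xyz, 0) + md W Z X (O.zyx, 3) = 0 by decide,
      show md Z X W (O.xyz, 0) + md Z X W (O.zyx, 3) = 2 by decide,
      show md X W Z (O.xyz, 0) + md X W Z (O.zyx, 3) = 0 by decide,
      show g - 2 - (awx - 1) = g - awx - 1 by ring]
    exact dy
  · unfold Dr2
    rw [show md W X Y (O.yzx, 3) + md W X Y (O.xzy, 0) = 2 by decide,
      show md X Y W (O.yzx, 3) + md X Y W (O.xzy, 0) = 0 by decide,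
      show md Y W X (O.yzx, 3) + md Y W X (O.xzy, 0) = 0 by decide,
      show g - 2 - (awy - 1) = g - awy - 1 by ring]
    exact dz
  · unfold Dr2
    rw [show md W Y Z (O.yzx, 3) + md W Y Z (O.xzy, 0) = 0 by decide,
      show md Y Z W (O.yzx, 3) + md Y Z W (O.xzy, 0) = 2 by decide,
      show md Z W Y (O.yzx, 3) + md Z W Y (O.xzy, 0) = 0 by decide,
      show g - 2 - (awz - 1) = g - awz - 1 by ring]
    exact dx2
  · unfold Dr2
    rw [show md W Z X (O.yzx, 3) + md W Z X (O.xzy, 0) = 0 by decide,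
      show md Z X W (O.yzx, 3) + md Z X W (O.xzy, 0) = 2 by decide,
      show md X W Z (O.yzx, 3) + md X W Z (O.xzy, 0) = 0 by decide,
      show g - 2 - (awx - 1) = g - awx - 1 by ring]
    exact dy

theorem zD_wwx
    (IH : ∀ bxy byz bzx bwx bwy bwz uzx uzy uzw uxy uxz uxw uyz uyx uyw : ℤ,
      VD (g - 2) bxy byz bzx bwx bwy bwz uzx uzy uzw uxy uxz uxw uyz uyx uyw →
      Clo (g - 2) bxy byz bzx bwx bwy bwz uzx uzy uzw uxy uxz uxw uyz uyx uyw)
    (hV : VD g axy ayz azx awx awy awz tzx tzy tzw txy txz txw tyz tyx tyw)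
    (hg : 2 ≤ g) (hxy : 2 * axy = g) (hyz : 2 * ayz = g) (hzx : 2 * azx = g)
    (ht1 : 1 ≤ tzw) (ht2 : 1 ≤ txw) (ht3 : 1 ≤ tyx) :
    Clo g axy ayz azx awx awy awz tzx tzy tzw txy txz txw tyz tyx tyw := by
  obtain ⟨hz, hx, hy, -⟩ := hV
  obtain ⟨s1, s2, s3, hs⟩ := outer0 hg hxy hyz hzx
  obtain ⟨kz, dz, dz2⟩ := peel2_D3 hz (by linarith)
  obtain ⟨kx, dx, dx2⟩ := peel2_D3 hx (by linarith)
  obtain ⟨ky, dy, dy2⟩ := peel2_D2 hy (by linarith)
  rw [show g - awy - 1 = g - 2 - (awy - 1) by ring] at kz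
  rw [show g - awz - 1 = g - 2 - (awz - 1) by ring] at kx
  rw [show g - awx - 1 = g - 2 - (awx - 1) by ring] at ky
  refine step2 (bwx := awx - 1) (bwy := awy - 1) (bwz := awz - 1) (O.xyz, 3) (O.zyx, 0) (O.yzx, 0) (O.xzy, 3) hxy hyz hzx
    (by decide) (by decide) (by decide) ?_ ?_ ?_ (by decide) (by decide) (by decide) ?_ ?_ ?_
    (by decide) (by decide) (by decide) (by decide) ?_ ?_ ?_ ?_ ?_ ?_
    (IH (axy - 1) (ayz - 1) (azx - 1) (awx - 1) (awy - 1) (awz - 1) tzx tzy (tzw - 1) txy txz (txw - 1) tyz (tyx - 1) tyw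
      ⟨kz, kx, ky, s1, s2, s3, hs⟩)
  · rw [show lt W X (O.xyz, 3) = 0 by decide, show lt W X (O.zyx, 0) = 1 by decide]; ring
  · rw [show lt W Y (O.xyz, 3) = 0 by decide, show lt W Y (O.zyx, 0) = 1 by decide]; ring
  · rw [show lt W Z (O.xyz, 3) = 0 by decide, show lt W Z (O.zyx, 0) = 1 by decide]; ring
  · rw [show lt W X (O.yzx, 0) = 1 by decide, show lt W X (O.xzy, 3) = 0 by decide]; ring
  · rw [show lt W Y (O.yzx, 0) = 1 by decide, show lt W Y (O.xzy, 3) = 0 by decide]; ring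
  · rw [show lt W Z (O.yzx, 0) = 1 by decide, show lt W Z (O.xzy, 3) = 0 by decide]; ring
  · unfold Dr2
    rw [show md W X Y (O.xyz, 3) + md W X Y (O.zyx, 0) = 0 by decide,
      show md X Y W (O.xyz, 3) + md X Y W (O.zyx, 0) = 2 by decide,
      show md Y W X (O.xyz, 3) + md Y W X (O.zyx, 0) = 0 by decide,
      show g - 2 - (awy - 1) = g - awy - 1 by ring]
    exact dz2
  · unfold Dr2
    rw [show md W Y Z (O.xyz, 3) + md W Y Z (O.zyx, 0) = 0 by decide,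
      show md Y Z W (O.xyz, 3) + md Y Z W (O.zyx, 0) = 2 by decide,
      show md Z W Y (O.xyz, 3) + md Z W Y (O.zyx, 0) = 0 by decide,
      show g - 2 - (awz - 1) = g - awz - 1 by ring]
    exact dx2
  · unfold Dr2
    rw [show md W Z X (O.xyz, 3) + md W Z X (O.zyx, 0) = 2 by decide,
      show md Z X W (O.xyz, 3) + md Z X W (O.zyx, 0) = 0 by decide,
      show md X W Z (O.xyz, 3) + md X W Z (O.zyx, 0) = 0 by decide,
      show g - 2 - (awx - 1) = g - awx - 1 by ring]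
    exact dy
  · unfold Dr2
    rw [show md W X Y (O.yzx, 0) + md W X Y (O.xzy, 3) = 0 by decide,
      show md X Y W (O.yzx, 0) + md X Y W (O.xzy, 3) = 2 by decide,
      show md Y W X (O.yzx, 0) + md Y W X (O.xzy, 3) = 0 by decide,
      show g - 2 - (awy - 1) = g - awy - 1 by ring]
    exact dz2
  · unfold Dr2
    rw [show md W Y Z (O.yzx, 0) + md W Y Z (O.xzy, 3) = 2 by decide,
      show md Y Z W (O.yzx, 0) + md Y Z W (O.xzy, 3) = 0 by decide,
      show md Z W Y (O.yzx, 0) + md Z W Y (O.xzy, 3) = 0 by decide,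
      show g - 2 - (awz - 1) = g - awz - 1 by ring]
    exact dx
  · unfold Dr2
    rw [show md W Z X (O.yzx, 0) + md W Z X (O.xzy, 3) = 2 by decide,
      show md Z X W (O.yzx, 0) + md Z X W (O.xzy, 3) = 0 by decide,
      show md X W Z (O.yzx, 0) + md X W Z (O.xzy, 3) = 0 by decide,
      show g - 2 - (awx - 1) = g - awx - 1 by ring]
    exact dy

theorem zD_www
    (IH : ∀ bxy byz bzx bwx bwy bwz uzx uzy uzw uxy uxz uxw uyz uyx uyw : ℤ,
      VD (g - 2) bxy byz bzx bwx bwy bwz uzx uzy uzw uxy uxz uxw uyz uyx uyw →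
      Clo (g - 2) bxy byz bzx bwx bwy bwz uzx uzy uzw uxy uxz uxw uyz uyx uyw)
    (hV : VD g axy ayz azx awx awy awz tzx tzy tzw txy txz txw tyz tyx tyw)
    (hg : 2 ≤ g) (hxy : 2 * axy = g) (hyz : 2 * ayz = g) (hzx : 2 * azx = g)
    (ht1 : 1 ≤ tzw) (ht2 : 1 ≤ txw) (ht3 : 1 ≤ tyw) :
    Clo g axy ayz azx awx awy awz tzx tzy tzw txy txz txw tyz tyx tyw := by
  obtain ⟨hz, hx, hy, -⟩ := hV
  obtain ⟨s1, s2, s3, hs⟩ := outer0 hg hxy hyz hzx
  obtain ⟨kz, dz, dz2⟩ := peel2_D3 hz (by linarith)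
  obtain ⟨kx, dx, dx2⟩ := peel2_D3 hx (by linarith)
  obtain ⟨ky, dy, dy2⟩ := peel2_D3 hy (by linarith)
  rw [show g - awy - 1 = g - 2 - (awy - 1) by ring] at kz
  rw [show g - awz - 1 = g - 2 - (awz - 1) by ring] at kx
  rw [show g - awx - 1 = g - 2 - (awx - 1) by ring] at ky
  refine step2 (bwx := awx - 1) (bwy := awy - 1) (bwz := awz - 1) (O.xyz, 0) (O.zyx, 3) (O.yzx, 0) (O.xzy, 3) hxy hyz hzx
    (by decide) (by decide) (by decide) ?_ ?_ ?_ (by decide) (by decide) (by decide) ?_ ?_ ?_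
    (by decide) (by decide) (by decide) (by decide) ?_ ?_ ?_ ?_ ?_ ?_
    (IH (axy - 1) (ayz - 1) (azx - 1) (awx - 1) (awy - 1) (awz - 1) tzx tzy (tzw - 1) txy txz (txw - 1) tyz tyx (tyw - 1)
      ⟨kz, kx, ky, s1, s2, s3, hs⟩)
  · rw [show lt W X (O.xyz, 0) = 1 by decide, show lt W X (O.zyx, 3) = 0 by decide]; ring
  · rw [show lt W Y (O.xyz, 0) = 1 by decide, show lt W Y (O.zyx, 3) = 0 by decide]; ring
  · rw [show lt W Z (O.xyz, 0) = 1 by decide, show lt W Z (O.zyx, 3) = 0 by decide]; ring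
  · rw [show lt W X (O.yzx, 0) = 1 by decide, show lt W X (O.xzy, 3) = 0 by decide]; ring
  · rw [show lt W Y (O.yzx, 0) = 1 by decide, show lt W Y (O.xzy, 3) = 0 by decide]; ring
  · rw [show lt W Z (O.yzx, 0) = 1 by decide, show lt W Z (O.xzy, 3) = 0 by decide]; ring
  · unfold Dr2
    rw [show md W X Y (O.xyz, 0) + md W X Y (O.zyx, 3) = 2 by decide,
      show md X Y W (O.xyz, 0) + md X Y W (O.zyx, 3) = 0 by decide,
      show md Y W X (O.xyz, 0) + md Y W X (O.zyx, 3) = 0 by decide,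
      show g - 2 - (awy - 1) = g - awy - 1 by ring]
    exact dz
  · unfold Dr2
    rw [show md W Y Z (O.xyz, 0) + md W Y Z (O.zyx, 3) = 2 by decide,
      show md Y Z W (O.xyz, 0) + md Y Z W (O.zyx, 3) = 0 by decide,
      show md Z W Y (O.xyz, 0) + md Z W Y (O.zyx, 3) = 0 by decide,
      show g - 2 - (awz - 1) = g - awz - 1 by ring]
    exact dx
  · unfold Dr2
    rw [show md W Z X (O.xyz, 0) + md W Z X (O.zyx, 3) = 0 by decide,
      show md Z X W (O.xyz, 0) + md Z X W (O.zyx, 3) = 2 by decide,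
      show md X W Z (O.xyz, 0) + md X W Z (O.zyx, 3) = 0 by decide,
      show g - 2 - (awx - 1) = g - awx - 1 by ring]
    exact dy2
  · unfold Dr2
    rw [show md W X Y (O.yzx, 0) + md W X Y (O.xzy, 3) = 0 by decide,
      show md X Y W (O.yzx, 0) + md X Y W (O.xzy, 3) = 2 by decide,
      show md Y W X (O.yzx, 0) + md Y W X (O.xzy, 3) = 0 by decide,
      show g - 2 - (awy - 1) = g - awy - 1 by ring]
    exact dz2
  · unfold Dr2
    rw [show md W Y Z (O.yzx, 0) + md W Y Z (O.xzy, 3) = 2 by decide,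
      show md Y Z W (O.yzx, 0) + md Y Z W (O.xzy, 3) = 0 by decide,
      show md Z W Y (O.yzx, 0) + md Z W Y (O.xzy, 3) = 0 by decide,
      show g - 2 - (awz - 1) = g - awz - 1 by ring]
    exact dx
  · unfold Dr2
    rw [show md W Z X (O.yzx, 0) + md W Z X (O.xzy, 3) = 2 by decide,
      show md Z X W (O.yzx, 0) + md Z X W (O.xzy, 3) = 0 by decide,
      show md X W Z (O.yzx, 0) + md X W Z (O.xzy, 3) = 0 by decide,
      show g - 2 - (awx - 1) = g - awx - 1 by ring]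
    exact dy

theorem VD.unrot (h : VD g axy ayz azx awx awy awz tzx tzy tzw txy txz txw tyz tyx tyw) :
    VD g azx axy ayz awz awx awy tyz tyx tyw tzx tzy tzw txy txz txw := by
  obtain ⟨h1, h2, h3, s1, s2, s3, h4⟩ := h
  exact ⟨h3, h1, h2, s3, s1, s2, h4.rot.rot⟩

theorem zD
    (IH : ∀ bxy byz bzx bwx bwy bwz uzx uzy uzw uxy uxz uxw uyz uyx uyw : ℤ,
      VD (g - 2) bxy byz bzx bwx bwy bwz uzx uzy uzw uxy uxz uxw uyz uyx uyw →
      Clo (g - 2) bxy byz bzx bwx bwy bwz uzx uzy uzw uxy uxz uxw uyz uyx uyw)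
    (hV : VD g axy ayz azx awx awy awz tzx tzy tzw txy txz txw tyz tyx tyw)
    (hg : 2 ≤ g) (hxy : 2 * axy = g) (hyz : 2 * ayz = g) (hzx : 2 * azx = g)
    (f1 : 2 * awx = g) (f2 : 2 * awy = g) (f3 : 2 * awz = g) :
    Clo g axy ayz azx awx awy awz tzx tzy tzw txy txz txw tyz tyx tyw := by
  have hV' := hV
  obtain ⟨⟨z1, z2, z3, z4⟩, ⟨x1, x2, x3, x4⟩, ⟨y1, y2, y3, y4⟩, -⟩ := hV'
  have hz : 1 ≤ tzx ∨ 1 ≤ tzy ∨ 1 ≤ tzw := by
    rw [show awx + axy - g = 0 by linarith, show axy + (g - awy) - g = 0 by linarith,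
      show (g - awy) + awx - g = 0 by linarith, abs_zero] at z4
    omega
  have hx : 1 ≤ txy ∨ 1 ≤ txz ∨ 1 ≤ txw := by
    rw [show awy + ayz - g = 0 by linarith, show ayz + (g - awz) - g = 0 by linarith,
      show (g - awz) + awy - g = 0 by linarith, abs_zero] at x4
    omega
  have hy : 1 ≤ tyz ∨ 1 ≤ tyx ∨ 1 ≤ tyw := by
    rw [show awz + azx - g = 0 by linarith, show azx + (g - awx) - g = 0 by linarith,
      show (g - awx) + awz - g = 0 by linarith, abs_zero] at y4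
    omega
  have hV1 := hV.unrot
  have hV2 := hV1.unrot
  rcases hz with hz | hz | hz <;> rcases hx with hx | hx | hx <;> rcases hy with hy | hy | hy
  · exact zD_xyz IH hV hg hxy hyz hzx hz hx hy
  · exact zD_xyx IH hV hg hxy hyz hzx hz hx hy
  · exact zD_xyw IH hV hg hxy hyz hzx hz hx hy
  · exact (zD_xyx IH hV1 hg hzx hxy hyz hy hz hx).rot
  · exact zD_xzx IH hV hg hxy hyz hzx hz hx hy
  · exact (zD_ywz IH hV2 hg hyz hzx hxy hx hy hz).rot.rot
  · exact zD_xwz IH hV hg hxy hyz hzx hz hx hy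
  · exact zD_xwx IH hV hg hxy hyz hzx hz hx hy
  · exact zD_xww IH hV hg hxy hyz hzx hz hx hy
  · exact (zD_xyx IH hV2 hg hyz hzx hxy hx hy hz).rot.rot
  · exact (zD_xzx IH hV2 hg hyz hzx hxy hx hy hz).rot.rot
  · exact (zD_xwx IH hV2 hg hyz hzx hxy hx hy hz).rot.rot
  · exact (zD_xzx IH hV1 hg hzx hxy hyz hy hz hx).rot
  · exact zD_yzx IH hV hg hxy hyz hzx hz hx hy
  · exact zD_yzw IH hV hg hxy hyz hzx hz hx hy
  · exact zD_ywz IH hV hg hxy hyz hzx hz hx hy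
  · exact zD_ywx IH hV hg hxy hyz hzx hz hx hy
  · exact zD_yww IH hV hg hxy hyz hzx hz hx hy
  · exact zD_wyz IH hV hg hxy hyz hzx hz hx hy
  · exact (zD_ywz IH hV1 hg hzx hxy hyz hy hz hx).rot
  · exact zD_wyw IH hV hg hxy hyz hzx hz hx hy
  · exact (zD_xwx IH hV1 hg hzx hxy hyz hy hz hx).rot
  · exact zD_wzx IH hV hg hxy hyz hzx hz hx hy
  · exact zD_wzw IH hV hg hxy hyz hzx hz hx hy
  · exact zD_wwz IH hV hg hxy hyz hzx hz hx hy
  · exact zD_wwx IH hV hg hxy hyz hzx hz hx hy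
  · exact zD_www IH hV hg hxy hyz hzx hz hx hy

end Pool.Agent.H29.W3
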