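import Pool.Agent.H29.W3.Two

/-!
The case `E = 0` on the outer triangle.
-/

set_option autoImplicit false
set_option maxHeartbeats 4000000

namespace Pool.Agent.H29.W3

theorem Dr.trans {g a b c t1 t2 t3 g' a' b' c' t1' t2' t3' m1 m2 m3 : ℤ}
    {g2 a2 b2 c2 u1 u2 u3 n1 n2 n3 : ℤ}
    (h : Dr g a b c t1 t2 t3 g' a' b' c' t1' t2' t3' m1 m2 m3)
    (h' : Dr g' a' b' c' t1' t2' t3' g2 a2 b2 c2 u1 u2 u3 n1 n2 n3) :
    Dr g a b c t1 t2 t3 g2 a2 b2 c2 u1 u2 u3 (m1 + n1) (m2 + n2) (m3 + n3) := by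
  obtain ⟨h1, h2, h3⟩ := h
  obtain ⟨k1, k2, k3⟩ := h'
  exact ⟨by linarith, by linarith, by linarith⟩

/-- remove `r p q` and `r q p` -/
theorem peel2_A {g a b c t1 t2 t3 : ℤ} (h : Face g a b c t1 t2 t3) (h1 : 0 < c + a - g)
    (h2 : a + b - g < 0) : ∃ u1 u2 u3 : ℤ, Face (g - 2) (a - 1) b (c - 2) u1 u2 u3 ∧
      Dr g a b c t1 t2 t3 (g - 2) (a - 1) b (c - 2) u1 u2 u3 1 1 0 := by
  obtain ⟨v1, v2, v3, hv, dv⟩ := peel_rpq h (Or.inl h1)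
  obtain ⟨u1, u2, u3, hu, du⟩ := peel_rqp hv (Or.inl (by linarith))
  refine ⟨u1, u2, u3, ?_, ?_⟩
  · rw [show g - 2 = g - 1 - 1 by ring, show c - 2 = c - 1 - 1 by ring]; exact hu
  · have := dv.trans du
    rw [show g - 2 = g - 1 - 1 by ring, show c - 2 = c - 1 - 1 by ring]
    simpa using this

/-- remove `r q p` and `p r q` -/
theorem peel2_B {g a b c t1 t2 t3 : ℤ} (h : Face g a b c t1 t2 t3) (h1 : a + b - g < 0)
    (h2 : b + c - g < 0) : ∃ u1 u2 u3 : ℤ, Face (g - 2) (a - 1) b (c - 1) u1 u2 u3 ∧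
      Dr g a b c t1 t2 t3 (g - 2) (a - 1) b (c - 1) u1 u2 u3 0 1 1 := by
  obtain ⟨v1, v2, v3, hv, dv⟩ := peel_rqp h (Or.inl h1)
  obtain ⟨u1, u2, u3, hu, du⟩ := peel_prq hv (Or.inl (by linarith))
  refine ⟨u1, u2, u3, ?_, ?_⟩
  · rw [show g - 2 = g - 1 - 1 by ring]; exact hu
  · have := dv.trans du
    rw [show g - 2 = g - 1 - 1 by ring]
    simpa using this

/-- remove `r p q` and `q r p` -/
theorem peel2_C {g a b c t1 t2 t3 : ℤ} (h : Face g a b c t1 t2 t3) (h1 : 0 < c + a - g)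
    (h2 : 0 < b + c - g) : ∃ u1 u2 u3 : ℤ, Face (g - 2) (a - 1) (b - 1) (c - 2) u1 u2 u3 ∧
      Dr g a b c t1 t2 t3 (g - 2) (a - 1) (b - 1) (c - 2) u1 u2 u3 1 0 1 := by
  obtain ⟨v1, v2, v3, hv, dv⟩ := peel_rpq h (Or.inl h1)
  obtain ⟨u1, u2, u3, hu, du⟩ := peel_qrp hv (Or.inl (by linarith))
  refine ⟨u1, u2, u3, ?_, ?_⟩
  · rw [show g - 2 = g - 1 - 1 by ring, show c - 2 = c - 1 - 1 by ring]; exact hu
  · have := dv.trans du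
    rw [show g - 2 = g - 1 - 1 by ring, show c - 2 = c - 1 - 1 by ring]
    simpa using this

/-- remove two opposite orders, the middle is not `p` -/
theorem peel2_D1 {g a b c t1 t2 t3 : ℤ} (h : Face g a b c t1 t2 t3) (h1 : 1 ≤ t1) :
    Face (g - 2) (a - 1) (b - 1) (c - 1) (t1 - 1) t2 t3 ∧
      Dr g a b c t1 t2 t3 (g - 2) (a - 1) (b - 1) (c - 1) (t1 - 1) t2 t3 0 2 0 ∧
      Dr g a b c t1 t2 t3 (g - 2) (a - 1) (b - 1) (c - 1) (t1 - 1) t2 t3 0 0 2 := by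
  obtain ⟨k1, k2, k3, k4⟩ := h
  have e1 : c - 1 + (a - 1) - (g - 2) = c + a - g := by ring
  have e2 : a - 1 + (b - 1) - (g - 2) = a + b - g := by ring
  have e3 : b - 1 + (c - 1) - (g - 2) = b + c - g := by ring
  refine ⟨⟨by linarith, k2, k3, by rw [e1, e2, e3]; linarith⟩, ⟨?_, ?_, ?_⟩, ⟨?_, ?_, ?_⟩⟩
  all_goals first | rw [e1] | rw [e2] | rw [e3]
  all_goals linarith

theorem peel2_D2 {g a b c t1 t2 t3 : ℤ} (h : Face g a b c t1 t2 t3) (h1 : 1 ≤ t2) :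
    Face (g - 2) (a - 1) (b - 1) (c - 1) t1 (t2 - 1) t3 ∧
      Dr g a b c t1 t2 t3 (g - 2) (a - 1) (b - 1) (c - 1) t1 (t2 - 1) t3 2 0 0 ∧
      Dr g a b c t1 t2 t3 (g - 2) (a - 1) (b - 1) (c - 1) t1 (t2 - 1) t3 0 0 2 := by
  obtain ⟨k1, k2, k3, k4⟩ := h
  have e1 : c - 1 + (a - 1) - (g - 2) = c + a - g := by ring
  have e2 : a - 1 + (b - 1) - (g - 2) = a + b - g := by ring
  have e3 : b - 1 + (c - 1) - (g - 2) = b + c - g := by ring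
  refine ⟨⟨k1, by linarith, k3, by rw [e1, e2, e3]; linarith⟩, ⟨?_, ?_, ?_⟩, ⟨?_, ?_, ?_⟩⟩
  all_goals first | rw [e1] | rw [e2] | rw [e3]
  all_goals linarith

theorem peel2_D3 {g a b c t1 t2 t3 : ℤ} (h : Face g a b c t1 t2 t3) (h1 : 1 ≤ t3) :
    Face (g - 2) (a - 1) (b - 1) (c - 1) t1 t2 (t3 - 1) ∧
      Dr g a b c t1 t2 t3 (g - 2) (a - 1) (b - 1) (c - 1) t1 t2 (t3 - 1) 2 0 0 ∧
      Dr g a b c t1 t2 t3 (g - 2) (a - 1) (b - 1) (c - 1) t1 t2 (t3 - 1) 0 2 0 := by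
  obtain ⟨k1, k2, k3, k4⟩ := h
  have e1 : c - 1 + (a - 1) - (g - 2) = c + a - g := by ring
  have e2 : a - 1 + (b - 1) - (g - 2) = a + b - g := by ring
  have e3 : b - 1 + (c - 1) - (g - 2) = b + c - g := by ring
  refine ⟨⟨k1, k2, by linarith, by rw [e1, e2, e3]; linarith⟩, ⟨?_, ?_, ?_⟩, ⟨?_, ?_, ?_⟩⟩
  all_goals first | rw [e1] | rw [e2] | rw [e3]
  all_goals linarith

end Pool.Agent.H29.W3
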